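import Pool.Agent.H561.PG.C7

set_option autoImplicit false

/-! The formula relative to the size of the constant term itself. -/

namespace Pool.Agent.H561.PG

open Finset
open Pool.Agent.H373R2.T7

/-- the formula for all windows, relative to the size `ν` -/
def GoN (s : Bool) (r D W : ℕ) (θ ε ν : ℝ) (f : Fin 1 → ℕ → ℤ) (S : ℝ) : Prop :=
  ∀ u v : ℝ, 0 ≤ u → ν ^ θ ≤ v → v ^ r * Real.log ν ^ D ≤ ν → v / Real.log ν ^ W ≤ v - u →
    |((PT s f ⌊u⌋₊ ⌊v⌋₊).card : ℝ) - S * (v - u) / (lb s v * Real.log ν)| ≤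
      ε * (S * (v - u) / (lb s v * Real.log ν))

lemma close_lem (N G S S' l L ε : ℝ) (hG : 0 ≤ G) (hS : 0 ≤ S) (hl : 0 < l) (hlL : l ≤ L) (hr : L - l ≤ ε / 8 * l)
    (hε : 0 < ε) (hε1 : ε ≤ 1) (hSS : |S' - S| ≤ ε / 8 * S) (h : |N - S * G / L| ≤ (ε / 8) * (S * G / L)) :
    |N - S' * G / l| ≤ ε * (S' * G / l) := by
  have hL : 0 < L := lt_of_lt_of_le hl hlL
  obtain ⟨M, hM⟩ : ∃ M, M = S * G / L := ⟨_, rfl⟩
  obtain ⟨M', hM'⟩ : ∃ M', M' = S' * G / l := ⟨_, rfl⟩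
  rw [← hM] at h
  rw [← hM']
  have hM0 : 0 ≤ M := by rw [hM]; positivity
  have hLl : L ≤ 2 * l := by nlinarith
  have hGl : 0 ≤ G / l := by positivity
  have e1 : S * G / l ≤ 2 * M := by
    rw [hM, ← mul_div_assoc, div_le_div_iff₀ hl hL]
    have : 0 ≤ S * G := by positivity
    nlinarith
  have e2 : |M' - S * G / l| ≤ ε / 8 * (S * G / l) := by
    rw [hM']
    have : S' * G / l - S * G / l = (S' - S) * (G / l) := by ring
    rw [this, abs_mul, abs_of_nonneg hGl]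
    calc |S' - S| * (G / l) ≤ (ε / 8 * S) * (G / l) := mul_le_mul_of_nonneg_right hSS hGl
      _ = _ := by ring
  have e3 : |S * G / l - M| ≤ ε / 8 * M := by
    have h1 : S * G / l - M = M * ((L - l) / l) := by
      rw [hM]
      field_simp
    rw [h1, abs_of_nonneg (mul_nonneg hM0 (div_nonneg (by linarith) hl.le)), mul_comm]
    apply mul_le_mul_of_nonneg_right _ hM0
    rw [div_le_iff₀ hl]
    exact hr
  have e4 : ε / 8 * (S * G / l) ≤ ε / 4 * M := by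
    have := mul_le_mul_of_nonneg_left e1 (show 0 ≤ ε / 8 by positivity)
    linarith
  have e5 : |M' - M| ≤ 3 * ε / 8 * M := by
    have e6 : M' - M = (M' - S * G / l) + (S * G / l - M) := by ring
    rw [e6]
    refine (abs_add_le _ _).trans ?_
    linarith
  have e7 : |N - M'| ≤ ε / 2 * M := by
    have e8 : N - M' = (N - M) - (M' - M) := by ring
    rw [e8]
    refine (abs_sub _ _).trans ?_
    linarith
  have e9 : M / 2 ≤ M' := by
    have := (abs_le.1 e5).1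
    have h2 : 3 * ε / 8 * M ≤ 1 / 2 * M := mul_le_mul_of_nonneg_right (by linarith) hM0
    linarith
  calc |N - M'| ≤ ε / 2 * M := e7
    _ = ε * (M / 2) := by ring
    _ ≤ ε * M' := mul_le_mul_of_nonneg_left e9 hε.le

/-- **Change of the normalisation.** -/
theorem norm_all (s : Bool) (r D W : ℕ) (hr : 1 ≤ r) (θ δ ε : ℝ) (hθ : 0 < θ) (hθ1 : θ ≤ 1) (hδ : 0 < δ) (hε : 0 < ε) (hε1 : ε ≤ 1) :
    ∃ X₀ : ℕ, ∀ X : ℕ, X₀ ≤ X → ∀ ν : ℝ, X ≤ 4 * ν → ν ≤ X → ∀ (f : Fin 1 → ℕ → ℤ) (S S' : ℝ), 0 ≤ S →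
    |S' - S| ≤ ε / 8 * S → GdT s r X D (W + 1) θ (ε / 8) f S → GoN s r (D + 1) W (θ + δ) ε ν f S' := by
  obtain ⟨n1, h1⟩ := ev_L' (4 ^ r * 2 ^ (D + 1) + 32 / ε + 100)
  obtain ⟨n3, h3⟩ := Filter.eventually_atTop.1 (Pool.Agent.helper24_UT.Sil2.ev_pow 0 (δ / 2) 4 (by positivity))
  refine ⟨n1 + n3 + 16, fun X hX ν hν1 hν2 f S S' hS hSS hg => ?_⟩
  have hL := h1 X (by omega)
  have a3 := h3 X (by omega)
  rw [pow_zero, mul_one] at a3
  have hX16 : (16 : ℝ) ≤ X := by exact_mod_cast (by omega : 16 ≤ X)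
  have hX0 : (0 : ℝ) < X := by linarith
  have hν0 : 0 < ν := by linarith
  have hν1' : 1 ≤ ν := by linarith
  have p1 : (0 : ℝ) < 4 ^ r * 2 ^ (D + 1) := by positivity
  have p2 : (0 : ℝ) < 32 / ε := by positivity
  have hlL : Real.log ν ≤ Real.log X := Real.log_le_log hν0 hν2
  have hlL2 : Real.log X ≤ Real.log ν + 2 := by
    have e1 : Real.log X ≤ Real.log (4 * ν) := Real.log_le_log hX0 hν1
    rw [Real.log_mul (by norm_num) hν0.ne'] at e1
    have h4 : Real.log 4 ≤ 2 := by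
      have : Real.log 4 = 2 * Real.log 2 := by
        rw [show (4 : ℝ) = 2 ^ 2 by norm_num, Real.log_pow]
        norm_num
      have := Real.log_two_lt_d9
      linarith
    linarith
  intro u v hu hv hvD hvu
  unfold GdT at hg
  obtain ⟨L, hLd⟩ : ∃ L, L = Real.log (X : ℝ) := ⟨_, rfl⟩
  obtain ⟨l, hl⟩ : ∃ l, l = Real.log ν := ⟨_, rfl⟩
  rw [← hLd] at hL hlL hlL2 hg
  rw [← hl] at hlL hlL2 hvD hvu ⊢
  have hl1 : 1 ≤ l := by linarith
  have hl0 : 0 < l := by linarith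
  have hL0 : 0 < L := by linarith
  have hL1 : 1 ≤ L := by linarith
  have hv1 : 1 ≤ v := (Real.one_le_rpow hν1' (by positivity)).trans hv
  have hv0 : 0 < v := by linarith
  have hXν : (X : ℝ) ^ θ ≤ v := by
    refine le_trans ?_ hv
    have e1 : (X : ℝ) ^ θ ≤ (4 * ν) ^ θ := Real.rpow_le_rpow hX0.le hν1 hθ.le
    refine e1.trans ?_
    rw [Real.mul_rpow (by norm_num) hν0.le]
    have e2 : (4 : ℝ) ^ θ ≤ 4 := by
      calc (4 : ℝ) ^ θ ≤ (4 : ℝ) ^ (1 : ℝ) := Real.rpow_le_rpow_of_exponent_le (by norm_num) hθ1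
        _ = 4 := Real.rpow_one 4
    have e3 : (4 : ℝ) ≤ ν ^ δ := by
      have e4 : √(X : ℝ) ≤ ν := by
        have e5 : √(X : ℝ) * √(X : ℝ) = X := Real.mul_self_sqrt hX0.le
        have e6 : 4 ≤ √(X : ℝ) := by
          apply Real.le_sqrt_of_sq_le
          linarith
        nlinarith
      calc (4 : ℝ) ≤ (X : ℝ) ^ (δ / 2) := a3
        _ = (√(X : ℝ)) ^ δ := by
            rw [Real.sqrt_eq_rpow, ← Real.rpow_mul hX0.le]
            congr 1
            ring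
        _ ≤ ν ^ δ := Real.rpow_le_rpow (Real.sqrt_nonneg _) e4 hδ.le
    calc (4 : ℝ) ^ θ * ν ^ θ ≤ ν ^ δ * ν ^ θ := mul_le_mul_of_nonneg_right (e2.trans e3) (by positivity)
      _ = ν ^ (θ + δ) := by rw [← Real.rpow_add hν0, add_comm]
  have hvD' : (4 * v) ^ r * L ^ D ≤ X := by
    refine le_trans ?_ (hvD.trans hν2)
    have e1 : 4 ^ r * L ^ D ≤ l ^ (D + 1) := by
      calc 4 ^ r * L ^ D ≤ 4 ^ r * (2 * l) ^ D := by
            apply mul_le_mul_of_nonneg_left _ (by positivity)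
            exact pow_le_pow_left₀ hL0.le (by linarith) D
        _ = (4 ^ r * 2 ^ D) * l ^ D := by rw [mul_pow]; ring
        _ ≤ l * l ^ D := by
            apply mul_le_mul_of_nonneg_right _ (by positivity)
            have : (4 : ℝ) ^ r * 2 ^ (D + 1) = 2 * (4 ^ r * 2 ^ D) := by rw [pow_succ]; ring
            have : (1 : ℝ) ≤ 4 ^ r * 2 ^ D := one_le_mul_of_one_le_of_one_le (one_le_pow₀ (by norm_num)) (one_le_pow₀ (by norm_num))
            linarith
        _ = l ^ (D + 1) := by ring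
    calc (4 * v) ^ r * L ^ D = v ^ r * (4 ^ r * L ^ D) := by rw [mul_pow]; ring
      _ ≤ v ^ r * l ^ (D + 1) := mul_le_mul_of_nonneg_left e1 (by positivity)
  have hvu' : v / L ^ (W + 1) ≤ v - u := by
    refine le_trans ?_ hvu
    apply div_le_div_of_nonneg_left hv0.le (by positivity)
    calc l ^ W ≤ L ^ W := pow_le_pow_left₀ hl0.le hlL W
      _ ≤ L ^ (W + 1) := pow_le_pow_right₀ hL1 (by omega)
  have hgg := hg u v hu hXν hvD' hvu'
  rw [pow_one] at hgg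
  have hlb : 0 ≤ lb s v := by
    unfold lb
    split_ifs
    · exact Real.log_nonneg hv1
    · norm_num
  have hvu0 : 0 ≤ v - u := (div_nonneg hv0.le (pow_nonneg hl0.le W)).trans hvu
  have e1 : ∀ (T t : ℝ), T * (v - u) / (lb s v * t) = T * ((v - u) / lb s v) / t := by
    intro T t
    rw [← mul_div_assoc, div_div]
  rw [e1] at hgg ⊢
  apply close_lem _ _ S S' l L ε (div_nonneg hvu0 hlb) hS hl0 hlL _ hε hε1 hSS hgg
  have e2 : 32 / ε ≤ l := by linarith
  rw [div_le_iff₀ hε] at e2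
  linarith

end Pool.Agent.H561.PG
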