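import Pool.Agent.H561.PG.Q2
import Pool.Graph.R_seed8.R460.SC.Ga

set_option autoImplicit false

/-! Quadratic polynomials: both signs, all dyadic ranges; the local conditions. -/

namespace Pool.Agent.H561.PG

open Finset
open Pool.Agent.H373R2.T7
open Pool.Agent.R460.SB (QS QS_per QS_perB loc_lt fv)

lemma HoldC_mono (s : Bool) (a b : ℤ) (δ δ' ε ε' : ℝ) (hδ : δ' ≤ δ) (hε : ε' ≤ ε) (hδ0 : 0 < δ') (W D : ℕ) (c : ℤ) (hc : c ≠ 0)
    (h : HoldC s a b δ' ε' W D c) : HoldC s a b δ ε W D c := by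
  obtain ⟨S, h1, h2, h3⟩ := h
  refine ⟨S, h1, h2, fun u v hu hv hvD hvu => ?_⟩
  have hc1 : (1 : ℝ) ≤ c.natAbs := by
    have : 1 ≤ c.natAbs := Int.natAbs_pos.2 hc
    exact_mod_cast this
  have hl0 : 0 ≤ Real.log c.natAbs := Real.log_nonneg hc1
  have hv' : (c.natAbs : ℝ) ^ (1 / 8 + δ') ≤ v :=
    (Real.rpow_le_rpow_of_exponent_le hc1 (by linarith)).trans hv
  refine (h3 u v hu hv' hvD hvu).trans ?_
  have hv1 : 1 ≤ v := (Real.one_le_rpow hc1 (by positivity)).trans hv'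
  have hlb : 0 ≤ lb s v := by
    unfold lb
    split_ifs
    · exact Real.log_nonneg hv1
    · norm_num
  have hvu0 : 0 ≤ v - u := (div_nonneg (by linarith) (pow_nonneg hl0 W)).trans hvu
  exact mul_le_mul_of_nonneg_right hε (div_nonneg (mul_nonneg h1.le hvu0) (mul_nonneg hlb hl0))

open Classical in
/-- **Quadratic polynomials with almost every constant term.** -/
theorem quad_all (s : Bool) (a b : ℤ) (ha : 0 < a) (W A : ℕ) (δ ε : ℝ) (hδ : 0 < δ) (hε : 0 < ε) :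
    ∃ D X₀ : ℕ, ∀ X : ℕ, X₀ ≤ X →
    (((Icc (-(X : ℤ)) X).filter (fun c : ℤ => c ≠ 0 ∧ LS s a b c ∧ ¬ HoldC s a b δ ε W D c)).card : ℝ) ≤
      X / Real.log X ^ A := by
  obtain ⟨δ', hδ'⟩ : ∃ δ', δ' = min δ (1 / 8) := ⟨_, rfl⟩
  obtain ⟨ε', hε'⟩ : ∃ ε', ε' = min ε 1 := ⟨_, rfl⟩
  have hδ'0 : 0 < δ' := by rw [hδ']; positivity
  have hε'0 : 0 < ε' := by rw [hε']; positivity
  obtain ⟨D, X0, h⟩ := mainC s a b ha W (A + 2) δ' ε' hδ'0 (by rw [hδ']; exact min_le_right _ _) hε'0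
    (by rw [hε']; exact min_le_right _ _)
  have hdy : ∀ σ : ℤ, (σ = 1 ∨ σ = -1) → ∃ X₁ : ℕ, ∀ X : ℕ, X₁ ≤ X →
      (((Icc 1 X).filter (fun m : ℕ => LS s a b (σ * m) ∧ ¬ HoldC s a b δ' ε' W D (σ * m))).card : ℝ) ≤ X / Real.log X ^ (A + 1) := by
    intro σ hσ
    obtain ⟨X1, h1⟩ := CM.dyadic (fun m : ℕ => LS s a b (σ * m) ∧ ¬ HoldC s a b δ' ε' W D (σ * m)) (A + 1) X0 (by
      intro X hX
      refine le_trans (le_of_eq ?_) (h X hX σ hσ)
      congr 2
      ext m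
      simp only [mem_filter])
    refine ⟨X1, fun X hX => ?_⟩
    refine le_trans (le_of_eq ?_) (h1 X hX)
    congr 2
    ext m
    simp only [mem_filter]
  obtain ⟨n1, h1⟩ := hdy 1 (Or.inl rfl)
  obtain ⟨n2, h2⟩ := hdy (-1) (Or.inr rfl)
  obtain ⟨n3, h3⟩ := ev_L' 2
  refine ⟨D, n1 + n2 + n3 + 3, fun X hX => ?_⟩
  have k1 := h1 X (by omega)
  have k2 := h2 X (by omega)
  have k3 := h3 X (by omega)
  have hX0 : (0 : ℝ) < X := by exact_mod_cast (by omega : 0 < X)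
  obtain ⟨F1, hF1⟩ : ∃ F1, F1 = (Icc 1 X).filter (fun m : ℕ => LS s a b (1 * m) ∧ ¬ HoldC s a b δ' ε' W D (1 * m)) := ⟨_, rfl⟩
  obtain ⟨F2, hF2⟩ : ∃ F2, F2 = (Icc 1 X).filter (fun m : ℕ => LS s a b (-1 * m) ∧ ¬ HoldC s a b δ' ε' W D (-1 * m)) := ⟨_, rfl⟩
  rw [← hF1] at k1
  rw [← hF2] at k2
  have hsub : (Icc (-(X : ℤ)) X).filter (fun c : ℤ => c ≠ 0 ∧ LS s a b c ∧ ¬ HoldC s a b δ ε W D c) ⊆
      F1.image (fun m : ℕ => (m : ℤ)) ∪ F2.image (fun m : ℕ => -(m : ℤ)) := by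
    intro c hc
    rw [mem_filter, mem_Icc] at hc
    obtain ⟨⟨g1, g2⟩, g3, g4, g5⟩ := hc
    have g6 : ¬ HoldC s a b δ' ε' W D c := by
      intro h
      apply g5
      exact HoldC_mono s a b δ δ' ε ε' (by rw [hδ']; exact min_le_left _ _) (by rw [hε']; exact min_le_left _ _) hδ'0 W D c g3 h
    rw [mem_union, mem_image, mem_image]
    rcases lt_or_gt_of_ne g3 with h | h
    · right
      refine ⟨c.natAbs, ?_, by omega⟩
      have e : (-1 : ℤ) * ((c.natAbs : ℕ) : ℤ) = c := by omega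
      rw [hF2, mem_filter, mem_Icc, e]
      exact ⟨⟨by omega, by omega⟩, g4, g6⟩
    · left
      refine ⟨c.natAbs, ?_, by omega⟩
      have e : (1 : ℤ) * ((c.natAbs : ℕ) : ℤ) = c := by omega
      rw [hF1, mem_filter, mem_Icc, e]
      exact ⟨⟨by omega, by omega⟩, g4, g6⟩
  have hcard : (((Icc (-(X : ℤ)) X).filter (fun c : ℤ => c ≠ 0 ∧ LS s a b c ∧ ¬ HoldC s a b δ ε W D c)).card : ℝ) ≤ F1.card + F2.card := by
    exact_mod_cast (card_le_card hsub).trans ((card_union_le _ _).trans (add_le_add card_image_le card_image_le))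
  refine hcard.trans ?_
  have hLA : 0 < Real.log (X : ℝ) ^ A := pow_pos (by linarith) A
  calc (F1.card : ℝ) + F2.card ≤ X / Real.log X ^ (A + 1) + X / Real.log X ^ (A + 1) := add_le_add k1 k2
    _ = (2 / Real.log X) * (X / Real.log X ^ A) := by
        rw [pow_succ]
        field_simp
        ring
    _ ≤ 1 * (X / Real.log X ^ A) := by
        apply mul_le_mul_of_nonneg_right _ (by positivity)
        rw [div_le_one (by linarith)]
        exact k3
    _ = _ := one_mul _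

/-- the local conditions of the problem at the integers -/
lemma LS_adm {a b c : ℤ} (hg : ∀ p : ℕ, p.Prime → (p : ℤ) ∣ a → (p : ℤ) ∣ b → ¬ (p : ℤ) ∣ c)
    (h2 : ¬ (Even (a + b) ∧ Even c)) : LS false a b c := by
  intro p hp
  unfold loc
  simp only [Bool.false_eq_true, if_false]
  have hp0 : (0 : ℝ) < p := by exact_mod_cast hp.pos
  rw [div_lt_one hp0]
  have : nuB (QS (-a) (-b) c) p < p := by
    apply loc_lt hp
    by_contra hc
    push Not at hc
    have e0 := hc 0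
    have e1 := hc 1
    have e2 := hc 2
    unfold fv at e0 e1 e2
    simp only [Nat.cast_zero, Nat.cast_one, Nat.cast_ofNat] at e0 e1 e2
    have f0 : (p : ℤ) ∣ c := by simpa using e0
    have f1 : (p : ℤ) ∣ a + b := by
      have := dvd_sub e1 f0
      have e : c - (-a * 1 ^ 2 + -b * 1) - c = a + b := by ring
      rwa [e] at this
    have f2 : (p : ℤ) ∣ 2 * a := by
      have := dvd_sub (dvd_sub e2 f0) (dvd_mul_of_dvd_right f1 2)
      have e : c - (-a * 2 ^ 2 + -b * 2) - c - 2 * (a + b) = 2 * a := by ring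
      rwa [e] at this
    rcases hp.eq_two_or_odd' with h | h
    · apply h2
      rw [h] at f0 f1
      exact ⟨even_iff_two_dvd.2 (by exact_mod_cast f1), even_iff_two_dvd.2 (by exact_mod_cast f0)⟩
    · have hcop : IsCoprime (p : ℤ) 2 := by
        rw [Int.isCoprime_iff_gcd_eq_one]
        have : Nat.Coprime p 2 := by
          rw [Nat.coprime_two_right]
          exact h
        exact_mod_cast this
      have fa : (p : ℤ) ∣ a := hcop.dvd_of_dvd_mul_left f2
      have fb : (p : ℤ) ∣ b := by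
        have := dvd_sub f1 fa
        rwa [add_sub_cancel_left] at this
      exact hg p hp fa fb f0
  exact_mod_cast this

open Pool.Agent.R460.SC (om cf cf_eq om_zero om_one) in
/-- the constant of the problem -/
lemma St_cf {a b c : ℤ} (hg : ∀ p : ℕ, p.Prime → (p : ℤ) ∣ a → (p : ℤ) ∣ b → ¬ (p : ℤ) ∣ c)
    (h2 : ¬ (Even (a + b) ∧ Even c)) {z : ℕ} (hz : 2 ≤ z) : St false z (QS (-a) (-b) c) = 2 * cf a b c z := by
  have hom : ∀ p : ℕ, nuB (QS (-a) (-b) c) p = om a b c p := by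
    classical
    intro p
    have e : ∀ m : ℕ, c - (-a * (m : ℤ) ^ 2 + -b * (m : ℤ)) = a * (m : ℤ) ^ 2 + b * (m : ℤ) + c := fun m => by ring
    unfold nuB om
    refine card_bij (fun r _ => r) ?_ (fun _ _ _ _ h => h) ?_
    · intro r hr
      obtain ⟨h1, h3⟩ := mem_filter.1 hr
      refine mem_filter.2 ⟨h1, ?_⟩
      unfold QS at h3
      rwa [e] at h3
    · intro r hr
      obtain ⟨h1, h3⟩ := mem_filter.1 hr
      refine ⟨r, mem_filter.2 ⟨h1, ?_⟩, rfl⟩
      unfold QS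
      rwa [e]
  rw [St_prod]
  have := cf_eq (a := a) (b := b) (c := c) h2 hg (by
    intro p hp hp2 hpa
    rw [← hom p]
    exact nu_val hp (by omega) hpa) hz
  rw [← this]
  unfold pz
  apply prod_congr rfl
  intro p _
  unfold loc
  simp only [Bool.false_eq_true, if_false]
  rw [hom p]

end Pool.Agent.H561.PG
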