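import Pool.Agent.H561.PG.P5
import Pool.Agent.H561.GN.G4

set_option autoImplicit false

/-! From weighted sums to counts, at the integers or at the primes: the two basic inequalities. -/

namespace Pool.Agent.H561.PG

open Finset
open Pool.Agent.H373R2.T7
open Pool.Agent.W93.GB
open Pool.Agent.H561.GN (BP)

variable {k : ℕ}

/-- the weight of the arguments in a count -/
noncomputable def lb (τ : Bool) (x : ℝ) : ℝ := if τ then Real.log x else 1

/-- the weighted number of the `n ≤ y` -/
noncomputable def RT (τ : Bool) (f : Fin k → ℕ → ℤ) (y : ℕ) : ℝ :=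
  ∑ n ∈ Icc 1 y, wt τ n * ∏ i, lamI (f i n)

/-- the integers (the primes) of an interval with prime values -/
def PT (τ : Bool) (f : Fin k → ℕ → ℤ) (a b : ℕ) : Finset ℕ :=
  (Ioc a b).filter (fun n => (τ = true → n.Prime) ∧ ∀ i, (f i n).toNat.Prime)

lemma RT_true (f : Fin k → ℕ → ℤ) : RT true f = GN.RR f := by
  funext y
  unfold RT GN.RR
  apply sum_congr rfl
  intro n _
  simp [wt]

lemma PT_true (f : Fin k → ℕ → ℤ) (a b : ℕ) : PT true f a b = GN.PS f a b := by
  unfold PT GN.PS
  apply filter_congr
  intro n _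
  simp

lemma RT_sub (τ : Bool) (f : Fin k → ℕ → ℤ) (a b : ℕ) (h : a ≤ b) :
    RT τ f b - RT τ f a = ∑ n ∈ Ioc a b, wt τ n * ∏ i, lamI (f i n) := by
  unfold RT
  have h1 : Icc 1 b = Icc 1 a ∪ Ioc a b := by
    ext n
    rw [mem_union, mem_Icc, mem_Icc, mem_Ioc]
    omega
  rw [h1, sum_union]
  · ring
  · rw [disjoint_left]
    intro n hn hn'
    rw [mem_Icc] at hn
    rw [mem_Ioc] at hn'
    omega

lemma RT_mono (τ : Bool) (f : Fin k → ℕ → ℤ) (a b : ℕ) (h : a ≤ b) : RT τ f a ≤ RT τ f b := by
  unfold RT
  apply sum_le_sum_of_subset_of_nonneg (Icc_subset_Icc_right h)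
  intro n _ _
  exact mul_nonneg (wt_nonneg τ n) (prod_nonneg fun i _ => lamI_nonneg _)

lemma lowT (τ : Bool) (f : Fin k → ℕ → ℤ) (a b P : ℕ) (h : a ≤ b) (hbP : b ≤ P) (hb : 1 ≤ b) (Lm : ℝ) (hLm : 0 ≤ Lm)
    (hf : ∀ n ∈ Ioc a b, ∀ i, lamI (f i n) ≤ Lm) :
    RT τ f b - RT τ f a ≤ (((PT τ f a b).card : ℝ) + (BP f P).card) * (lb τ b * Lm ^ k) + 2 * √(P : ℝ) * Real.log P * Lm ^ k := by
  classical
  cases τ with
  | true =>
    rw [RT_true, PT_true]
    have := GN.low f a b P h hbP hb Lm hLm hf
    simpa [lb] using this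
  | false =>
    rw [RT_sub false f a b h]
    have hLk : 0 ≤ Lm ^ k := pow_nonneg hLm k
    have h1 : ∀ n ∈ Ioc a b, wt false n * ∏ i, lamI (f i n) ≤
        ((if n ∈ PT false f a b then (1 : ℝ) else 0) + (if n ∈ BP f P then (1 : ℝ) else 0)) * Lm ^ k := by
      intro n hn
      have hn' := mem_Ioc.1 hn
      have hw : wt false n = 1 := by simp [wt]
      rw [hw, one_mul]
      have hprod : ∏ i, lamI (f i n) ≤ Lm ^ k := by
        calc ∏ i, lamI (f i n) ≤ ∏ _i : Fin k, Lm := prod_le_prod (fun i _ => lamI_nonneg _) (fun i _ => hf n hn i)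
          _ = Lm ^ k := by rw [prod_const, card_univ, Fintype.card_fin]
      by_cases hB : n ∈ BP f P
      · rw [if_pos hB]
        have h5 : (0 : ℝ) ≤ (if n ∈ PT false f a b then (1 : ℝ) else 0) := by split_ifs <;> norm_num
        nlinarith
      · by_cases hPS : n ∈ PT false f a b
        · rw [if_pos hPS, if_neg hB]
          linarith
        · have h5 : ∃ i, ¬ (f i n).toNat.Prime := by
            by_contra hc
            push Not at hc
            apply hPS
            unfold PT
            rw [mem_filter]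
            exact ⟨hn, fun h => absurd h (by simp), hc⟩
          obtain ⟨i, hi⟩ := h5
          have h6 : lamI (f i n) = lamP (f i n) := by
            by_contra hc
            apply hB
            unfold BP
            rw [mem_filter, mem_Icc]
            exact ⟨⟨by omega, by omega⟩, i, hc⟩
          have h7 : lamI (f i n) = 0 := by
            rw [h6]
            unfold lamP
            rw [if_neg hi]
          rw [prod_eq_zero (mem_univ i) h7]
          have h8 : (0 : ℝ) ≤ (if n ∈ PT false f a b then (1 : ℝ) else 0) + (if n ∈ BP f P then (1 : ℝ) else 0) := by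
            split_ifs <;> norm_num
          positivity
    refine (sum_le_sum h1).trans ?_
    rw [← sum_mul, sum_add_distrib]
    have e1 : ∑ n ∈ Ioc a b, (if n ∈ PT false f a b then (1 : ℝ) else 0) ≤ (PT false f a b).card := by
      rw [← sum_filter, sum_const, nsmul_eq_mul, mul_one]
      have : ((Ioc a b).filter (fun n => n ∈ PT false f a b)).card ≤ (PT false f a b).card :=
        card_le_card fun n hn => (mem_filter.1 hn).2
      exact_mod_cast this
    have e2 : ∑ n ∈ Ioc a b, (if n ∈ BP f P then (1 : ℝ) else 0) ≤ (BP f P).card := by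
      rw [← sum_filter, sum_const, nsmul_eq_mul, mul_one]
      have : ((Ioc a b).filter (fun n => n ∈ BP f P)).card ≤ (BP f P).card :=
        card_le_card fun n hn => (mem_filter.1 hn).2
      exact_mod_cast this
    have e4 : 0 ≤ 2 * √(P : ℝ) * Real.log P * Lm ^ k := by
      have := Real.log_natCast_nonneg P
      positivity
    have e5 : lb false b = 1 := by simp [lb]
    rw [e5, one_mul]
    have := mul_le_mul_of_nonneg_right (add_le_add e1 e2) hLk
    linarith

lemma uppT (τ : Bool) (f : Fin k → ℕ → ℤ) (a b y : ℕ) (h : a ≤ b) (hy : 1 ≤ y) (ll : ℝ) (hll : 0 ≤ ll)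
    (hf : ∀ n ∈ Ioc a b, ∀ i, (f i n).toNat.Prime → ll ≤ lamI (f i n)) :
    ((PT τ f a b).card : ℝ) * (lb τ y * ll ^ k) ≤ y * (lb τ y * ll ^ k) + (RT τ f b - RT τ f a) := by
  classical
  cases τ with
  | true =>
    rw [RT_true, PT_true]
    have := GN.upp f a b y h hy ll hll hf
    simpa [lb] using this
  | false =>
    rw [RT_sub false f a b h]
    have e5 : lb false y = 1 := by simp [lb]
    rw [e5, one_mul]
    have h1 : ((PT false f a b).card : ℝ) * ll ^ k ≤ ∑ n ∈ Ioc a b, wt false n * ∏ i, lamI (f i n) := by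
      rw [← nsmul_eq_mul]
      refine le_trans (card_nsmul_le_sum _ (fun n => wt false n * ∏ i, lamI (f i n)) _ ?_) ?_
      · intro n hn
        unfold PT at hn
        rw [mem_filter] at hn
        obtain ⟨hnI, hp, hv⟩ := hn
        have hw : wt false n = 1 := by simp [wt]
        rw [hw, one_mul]
        calc ll ^ k = ∏ _i : Fin k, ll := by rw [prod_const, card_univ, Fintype.card_fin]
          _ ≤ _ := prod_le_prod (fun _ _ => hll) (fun i _ => hf n hnI i (hv i))
      · apply sum_le_sum_of_subset_of_nonneg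
        · intro n hn
          unfold PT at hn
          rw [mem_filter] at hn
          exact hn.1
        · intro n _ _
          exact mul_nonneg (wt_nonneg false n) (prod_nonneg fun i _ => lamI_nonneg _)
    have h2 : (0 : ℝ) ≤ y * ll ^ k := mul_nonneg (Nat.cast_nonneg _) (pow_nonneg hll k)
    linarith

end Pool.Agent.H561.PG
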