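import Pool.Agent.H561.PG.C1

set_option autoImplicit false

/-! From sums weighted by von Mangoldt's function to the number of the primes in windows, integers or primes as arguments. -/

namespace Pool.Agent.H561.PG

open Finset
open Pool.Agent.H373R2.T7
open Pool.Agent.W93.GB
open Pool.Agent.H561.GN (BP)

variable {k : ℕ}

/-- **From weights to counts.** -/
theorem cnt_ofT (s : Bool) (k W : ℕ) (θ ε : ℝ) (hθ : 0 < θ) (hθ1 : θ ≤ 1) (hε : 0 < ε) (hε1 : ε ≤ 1) : ∃ X₀ : ℕ, ∀ X : ℕ, X₀ ≤ X →
    ∀ (f : Fin k → ℕ → ℤ) (S : ℝ), 1 / Real.log X ≤ S → ∀ u v : ℝ, 0 ≤ u → (X : ℝ) ^ θ ≤ v → v ≤ X →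
    v / Real.log X ^ W ≤ v - u → ∀ P : ℕ, ⌊v⌋₊ ≤ P → (P : ℝ) ≤ 4 * v →
    (∀ i, ∀ n ∈ Icc 1 P, (X : ℝ) / Real.log X ^ 2 ≤ f i n ∧ (f i n : ℝ) ≤ X * Real.log X ^ W) →
    (∀ y ≤ P, |RT s f y - S * y| ≤ P / Real.log X ^ (W + k + 6)) →
    ((BP f P).card : ℝ) ≤ P / Real.log X ^ (W + k + 7) →
    |((PT s f ⌊u⌋₊ ⌊v⌋₊).card : ℝ) - S * (v - u) / (lb s v * Real.log X ^ k)| ≤
      ε * (S * (v - u) / (lb s v * Real.log X ^ k)) := by
  obtain ⟨τ, hτ⟩ : ∃ τ : ℝ, τ = ε / (8 * (k + 1)) := ⟨_, rfl⟩
  have hk1 : (0 : ℝ) < (k : ℝ) + 1 := by positivity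
  have hτ0 : 0 < τ := by rw [hτ]; positivity
  have hτk : (k + 1) * τ = ε / 8 := by rw [hτ]; field_simp
  have hτ1 : τ ≤ 1 / 8 := by
    have : τ ≤ (k + 1) * τ := by
      have : (0 : ℝ) ≤ k := Nat.cast_nonneg k
      nlinarith
    linarith
  obtain ⟨n1, h1⟩ := ev_L' (100 / ε + 100)
  obtain ⟨n2, h2⟩ := GN.ev_ll ((W + k + 12) / (θ * τ))
  obtain ⟨n3, h3⟩ := Filter.eventually_atTop.1 (Pool.Agent.helper24_UT.Sil2.ev_pow (2 * (k + W + 12)) θ 64 hθ)
  refine ⟨n1 + n2 + n3 + 3, fun X hX f S hS u v hu hv hvX hvu P hP hP4 hval hR hBP => ?_⟩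
  have hL := h1 X (by omega)
  have hLL := h2 X (by omega)
  have hXL := h3 X (by omega)
  have hX1 : (1 : ℝ) ≤ X := by exact_mod_cast (by omega : 1 ≤ X)
  have hX0 : (0 : ℝ) < X := by linarith
  have hlogX5 : Real.log ((X : ℝ) ^ θ) = θ * Real.log X := by
    rw [Real.log_rpow hX0]
  have hlogv5 : Real.log ((X : ℝ) ^ θ) ≤ Real.log v := Real.log_le_log (by positivity) hv
  rw [hlogX5] at hlogv5
  have hlogvX : Real.log v ≤ Real.log X := by
    apply Real.log_le_log _ hvX
    exact lt_of_lt_of_le (by positivity) hv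
  -- the values
  have hvalue : ∀ i, ∀ n ∈ Icc 1 P, Real.log X - 2 * Real.log (Real.log X) ≤ Real.log (f i n) ∧
      Real.log (f i n) ≤ Real.log X + W * Real.log (Real.log X) := by
    intro i n hn
    obtain ⟨g1, g2⟩ := hval i n hn
    have hL0 : 0 < Real.log X := by
      have : 0 < 100 / ε := by positivity
      linarith
    have g3 : 0 < (X : ℝ) / Real.log X ^ 2 := by positivity
    constructor
    · have := Real.log_le_log g3 g1
      rw [Real.log_div hX0.ne' (by positivity), Real.log_pow] at this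
      exact_mod_cast this
    · have := Real.log_le_log (lt_of_lt_of_le g3 g1) g2
      rw [Real.log_mul hX0.ne' (by positivity), Real.log_pow] at this
      exact this
  have hPX : (P : ℝ) ≤ 4 * X := by linarith
  have hlogP : Real.log P ≤ Real.log X + 2 := by
    rcases Nat.eq_zero_or_pos P with h0 | h0
    · rw [h0]
      simp only [Nat.cast_zero, Real.log_zero]
      have := Real.log_nonneg hX1
      linarith
    · have := Real.log_le_log (by exact_mod_cast h0 : (0 : ℝ) < P) hPX
      rw [Real.log_mul (by norm_num) hX0.ne'] at this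
      have h4 : Real.log 4 ≤ 2 := by
        have : Real.log 4 = 2 * Real.log 2 := by
          rw [show (4 : ℝ) = 2 ^ 2 by norm_num, Real.log_pow]
          norm_num
        have := Real.log_two_lt_d9
        linarith
      linarith
  have hLbig : 1 ≤ Real.log X := by
    have : 0 < 100 / ε := by positivity
    linarith
  have hθL : 0 < θ * Real.log X := by
    apply mul_pos hθ
    linarith
  have hℓa : 0 < lb s v ∧ lb s v ≤ Real.log X := by
    cases s with
    | true =>
      simp only [lb, if_true]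
      exact ⟨by linarith, hlogvX⟩
    | false =>
      simp only [lb, Bool.false_eq_true, if_false]
      exact ⟨one_pos, hLbig⟩
  obtain ⟨L, hLd⟩ : ∃ L, L = Real.log (X : ℝ) := ⟨_, rfl⟩
  obtain ⟨ℓ, hℓ⟩ : ∃ ℓ, ℓ = lb s v := ⟨_, rfl⟩
  obtain ⟨lm, hlm⟩ : ∃ lm, lm = Real.log L := ⟨_, rfl⟩
  obtain ⟨h, hh⟩ : ∃ h, h = v - u := ⟨_, rfl⟩
  rw [← hLd] at hL hLL hXL hlogv5 hlogvX hvalue hvu hR hBP hlogP hS hℓa hθL
  rw [← hℓ] at hℓa
  rw [← hlm] at hLL hvalue
  rw [← hh] at hvu
  rw [← hLd, ← hℓ, ← hh]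
  have hcε : 0 < 100 / ε := by positivity
  have hL100 : 100 ≤ L := by linarith
  have hL1 : 1 ≤ L := by linarith
  have hL0 : 0 < L := by linarith
  obtain ⟨hℓ0, hℓL⟩ := hℓa
  have hlm0 : 0 ≤ lm := by rw [hlm]; exact Real.log_nonneg hL1
  have hv0 : 0 < v := lt_of_lt_of_le (by positivity) hv
  have hLk0 : 0 < L ^ k := by positivity
  have hvL : 64 * L ^ (2 * (k + W + 12)) ≤ v := hXL.trans hv
  have hh0 : 0 < h := lt_of_lt_of_le (by positivity) hvu
  have hvh : v ≤ h * L ^ W := by rwa [div_le_iff₀ (by positivity)] at hvu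
  have hS0 : 0 < S := lt_of_lt_of_le (by positivity) hS
  have hSh : 0 < S * h := by positivity
  -- consequences of the size of L
  have hLε : 100 ≤ ε * L := by
    have e1 : 100 / ε ≤ L := by linarith
    rw [div_le_iff₀ hε] at e1
    linarith
  have hSL : 1 ≤ S * L := by
    rw [div_le_iff₀ hL0] at hS
    exact hS
  have hkey : ∀ c : ℝ, 0 ≤ c → c ≤ 100 → c * h / L ^ 2 ≤ (c / 100) * ε * (S * h) := by
    intro c hc hc100
    rw [div_le_iff₀ (by positivity)]
    have e1 : 1 ≤ ε * L / 100 := by linarith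
    have e2 : 1 ≤ (ε * L / 100) * (S * L) := by
      calc (1 : ℝ) = 1 * 1 := by ring
        _ ≤ _ := mul_le_mul e1 hSL (by norm_num) (by linarith)
    calc c * h = (c * h) * 1 := by ring
      _ ≤ (c * h) * ((ε * L / 100) * (S * L)) := mul_le_mul_of_nonneg_left e2 (by positivity)
      _ = c / 100 * ε * (S * h) * L ^ 2 := by ring
  have hτL : (W + k + 12) * lm ≤ τ * (θ * L) := by
    rw [div_mul_eq_mul_div, div_le_iff₀ (by positivity)] at hLL
    linarith
  -- the integers
  obtain ⟨a, ha⟩ : ∃ a, a = ⌊u⌋₊ := ⟨_, rfl⟩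
  obtain ⟨b, hb⟩ : ∃ b, b = ⌊v⌋₊ := ⟨_, rfl⟩
  rw [← ha, ← hb]
  rw [← hb] at hP
  have ha1 : (a : ℝ) ≤ u := by rw [ha]; exact Nat.floor_le hu
  have ha2 : u < a + 1 := by rw [ha]; exact Nat.lt_floor_add_one _
  have hb1 : (b : ℝ) ≤ v := by rw [hb]; exact Nat.floor_le hv0.le
  have hb2 : v < b + 1 := by rw [hb]; exact Nat.lt_floor_add_one _
  have hab : a ≤ b := by
    rw [ha, hb]
    apply Nat.floor_le_floor
    linarith
  have hv2 : 2 ≤ v := by
    have : 1 ≤ L ^ (2 * (k + W + 12)) := one_le_pow₀ hL1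
    linarith
  have hb0 : 1 ≤ b := by
    have : (0 : ℝ) < b := by linarith
    exact_mod_cast this
  have hlogb : lb s b ≤ ℓ := by
    rw [hℓ]
    cases s with
    | true =>
      simp only [lb, if_true]
      exact Real.log_le_log (by exact_mod_cast hb0) hb1
    | false => simp [lb]
  -- the weighted number
  obtain ⟨D, hD⟩ : ∃ D, D = RT s f b - RT s f a := ⟨_, rfl⟩
  have hPe : (P : ℝ) / L ^ (W + k + 6) ≤ 4 * (h / L ^ (k + 6)) := by
    calc (P : ℝ) / L ^ (W + k + 6) ≤ (4 * (h * L ^ W)) / L ^ (W + k + 6) := by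
          have : (P : ℝ) ≤ 4 * (h * L ^ W) := by linarith
          gcongr
      _ = 4 * (h / L ^ (k + 6)) := by
          rw [show W + k + 6 = W + (k + 6) by ring, pow_add L W]
          field_simp
  have hh_big : L ≤ h := by
    have e1 : L * L ^ W ≤ v := by
      refine le_trans ?_ hvL
      calc L * L ^ W = L ^ (W + 1) := by ring
        _ ≤ L ^ (2 * (k + W + 12)) := pow_le_pow_right₀ hL1 (by omega)
        _ ≤ _ := by
            have : 0 < L ^ (2 * (k + W + 12)) := by positivity
            linarith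
    exact le_of_mul_le_mul_right (e1.trans hvh) (by positivity)
  have hLk4 : L ^ 2 ≤ L ^ (k + 6) := pow_le_pow_right₀ hL1 (by omega)
  have hDS : |D - S * h| ≤ ε / 8 * (S * h) := by
    have e1 := hR b hP
    have e2 := hR a (hab.trans hP)
    have e3 : |S * (((b : ℝ) - a) - h)| ≤ S := by
      rw [abs_mul, abs_of_pos hS0]
      have : |((b : ℝ) - a) - h| ≤ 1 := by
        rw [abs_le, hh]
        constructor <;> linarith
      calc S * |((b : ℝ) - a) - h| ≤ S * 1 := mul_le_mul_of_nonneg_left this hS0.le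
        _ = S := mul_one S
    have e4 : D - S * h = (RT s f b - S * b) - (RT s f a - S * a) + S * (((b : ℝ) - a) - h) := by rw [hD]; ring
    rw [e4]
    have e5 := abs_add_le ((RT s f b - S * b) - (RT s f a - S * a)) (S * (((b : ℝ) - a) - h))
    have e6 := abs_sub (RT s f b - S * b) (RT s f a - S * a)
    have e7 : S ≤ S * h / L := by
      rw [le_div_iff₀ hL0]
      exact mul_le_mul_of_nonneg_left hh_big hS0.le
    have e8 : h / L ^ (k + 6) ≤ h / L ^ 2 := div_le_div_of_nonneg_left hh0.le (by positivity) hLk4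
    have e9 := hkey 8 (by norm_num) (by norm_num)
    have e10 : S * h / L ≤ (1 / 100) * ε * (S * h) := by
      rw [div_le_iff₀ hL0]
      have : 1 ≤ ε * L / 100 := by
        linarith
      calc S * h = S * h * 1 := by ring
        _ ≤ S * h * (ε * L / 100) := mul_le_mul_of_nonneg_left this hSh.le
        _ = _ := by ring
    have e11 : 8 * (h / L ^ 2) = 8 * h / L ^ 2 := by ring
    have hεS : 0 < ε * (S * h) := by positivity
    linarith
  rw [abs_le] at hDS
  -- the main term
  obtain ⟨M, hM⟩ : ∃ M, M = S * h / (ℓ * L ^ k) := ⟨_, rfl⟩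
  rw [← hM]
  have hden : 0 < ℓ * L ^ k := by positivity
  have hMeq : M * (ℓ * L ^ k) = S * h := by
    rw [hM]
    field_simp
  have hM0 : 0 < M := by rw [hM]; positivity
  -- the lower bound
  have hlow : (1 - ε) * M ≤ ((PT s f a b).card : ℝ) := by
    obtain ⟨Lm, hLm⟩ : ∃ Lm, Lm = L + W * lm := ⟨_, rfl⟩
    have hLm0 : 0 ≤ Lm := by rw [hLm]; positivity
    have g1 := lowT s f a b P hab hP hb0 Lm hLm0 (by
      intro n hn i
      have hn' := mem_Ioc.1 hn
      have hnI : n ∈ Icc 1 P := by rw [mem_Icc]; omega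
      unfold lamI
      split_ifs with h5
      · refine ArithmeticFunction.vonMangoldt_le_log.trans ?_
        have h6 : (((f i n).toNat : ℕ) : ℝ) = (f i n : ℝ) := by
          have := Int.toNat_of_nonneg (show 0 ≤ f i n by omega)
          exact_mod_cast this
        rw [h6, hLm]
        exact (hvalue i n hnI).2
      · exact hLm0)
    rw [← hD] at g1
    have g2 : (1 - τ) ^ k * Lm ^ k ≤ L ^ k := by
      rw [← mul_pow]
      apply pow_le_pow_left₀ (by
        apply mul_nonneg (by linarith) hLm0)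
      rw [hLm]
      have h7 : W * lm ≤ τ * L := by
        have h8 : (W : ℝ) * lm ≤ (W + k + 12) * lm := by
          apply mul_le_mul_of_nonneg_right _ hlm0
          have : (0 : ℝ) ≤ k := Nat.cast_nonneg k
          linarith
        have h9 : τ * (θ * L) ≤ τ * L := by
          apply mul_le_mul_of_nonneg_left _ hτ0.le
          exact mul_le_of_le_one_left hL0.le hθ1
        linarith
      have h10 : 0 ≤ τ * (W * lm) := by positivity
      have h11 : (1 - τ) * (L + W * lm) = L + (W * lm - τ * L) - τ * (W * lm) := by ring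
      rw [h11]
      linarith
    have g3 : 1 - ε / 8 ≤ (1 - τ) ^ k := by
      have := one_add_mul_le_pow (show (-2 : ℝ) ≤ -τ by linarith) k
      have h7 : (k : ℝ) * τ ≤ (k + 1) * τ := by
        apply mul_le_mul_of_nonneg_right _ hτ0.le
        linarith
      have h8 : 1 + (k : ℝ) * (-τ) ≤ (1 - τ) ^ k := by
        have e : (1 : ℝ) - τ = 1 + -τ := by ring
        rw [e]
        exact this
      linarith
    have hρ0 : 0 ≤ (1 - τ) ^ k := pow_nonneg (by linarith) k
    have hBP0 : (0 : ℝ) ≤ (BP f P).card := Nat.cast_nonneg _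
    have hPS0 : (0 : ℝ) ≤ (PT s f a b).card := Nat.cast_nonneg _
    -- multiply by (1 - τ) ^ k
    have g4 : (1 - τ) ^ k * D ≤ (((PT s f a b).card : ℝ) + (BP f P).card) * (ℓ * L ^ k) + 2 * √(P : ℝ) * Real.log P * L ^ k := by
      have h7 := mul_le_mul_of_nonneg_left g1 hρ0
      refine h7.trans ?_
      have hlogP0 : 0 ≤ Real.log P := Real.log_natCast_nonneg P
      have hlb0 : 0 ≤ lb s b := by
        cases s with
        | true =>
          simp only [lb, if_true]
          exact Real.log_natCast_nonneg b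
        | false => simp [lb]
      calc (1 - τ) ^ k * ((((PT s f a b).card : ℝ) + (BP f P).card) * (lb s b * Lm ^ k) + 2 * √(P : ℝ) * Real.log P * Lm ^ k)
          = (((PT s f a b).card : ℝ) + (BP f P).card) * (lb s b * ((1 - τ) ^ k * Lm ^ k)) +
            2 * √(P : ℝ) * Real.log P * ((1 - τ) ^ k * Lm ^ k) := by ring
        _ ≤ (((PT s f a b).card : ℝ) + (BP f P).card) * (ℓ * L ^ k) + 2 * √(P : ℝ) * Real.log P * L ^ k := by
            gcongr
    have g5 : ((BP f P).card : ℝ) * (ℓ * L ^ k) ≤ 4 * h / L ^ 2 := by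
      calc ((BP f P).card : ℝ) * (ℓ * L ^ k) ≤ (P / L ^ (W + k + 7)) * (L * L ^ k) := by gcongr
        _ ≤ ((4 * (h * L ^ W)) / L ^ (W + k + 7)) * (L * L ^ k) := by
            have : (P : ℝ) ≤ 4 * (h * L ^ W) := by linarith
            gcongr
        _ = 4 * h / L ^ 6 := by
            rw [show W + k + 7 = W + (k + 1 + 6) by ring, pow_add L W, pow_add L (k + 1) 6, pow_succ L k]
            field_simp
        _ ≤ 4 * h / L ^ 2 := by
            apply div_le_div_of_nonneg_left (by positivity) (by positivity)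
            exact pow_le_pow_right₀ hL1 (by norm_num)
    have g6 : 2 * √(P : ℝ) * Real.log P * L ^ k ≤ h / L ^ 2 := by
      have h7 : √(P : ℝ) ≤ 2 * √v := by
        apply Real.sqrt_le_iff.2
        refine ⟨by positivity, ?_⟩
        rw [mul_pow, Real.sq_sqrt hv0.le]
        linarith
      have h8 : 8 * L ^ (k + W + 12) ≤ √v := by
        apply Real.le_sqrt_of_sq_le
        refine le_trans (le_of_eq ?_) hvL
        rw [mul_pow, ← pow_mul]
        ring
      have h9 : √v * √v = v := Real.mul_self_sqrt hv0.le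
      have h10 : Real.log P ≤ 2 * L := by linarith
      rw [le_div_iff₀ (by positivity)]
      have h11 : 8 * √v * L ^ (k + 3) * L ^ W ≤ h * L ^ W := by
        calc 8 * √v * L ^ (k + 3) * L ^ W = (8 * L ^ (k + W + 3)) * √v := by
              rw [show k + W + 3 = (k + 3) + W by ring, pow_add L (k + 3) W]
              ring
          _ ≤ (8 * L ^ (k + W + 12)) * √v := by
              have : L ^ (k + W + 3) ≤ L ^ (k + W + 12) := pow_le_pow_right₀ hL1 (by omega)
              gcongr
          _ ≤ √v * √v := by gcongr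
          _ = v := h9
          _ ≤ h * L ^ W := hvh
      have h12 : 8 * √v * L ^ (k + 3) ≤ h := le_of_mul_le_mul_right h11 (by positivity)
      have hlogP0 : 0 ≤ Real.log P := Real.log_natCast_nonneg P
      calc 2 * √(P : ℝ) * Real.log P * L ^ k * L ^ 2 ≤ 2 * (2 * √v) * (2 * L) * L ^ k * L ^ 2 := by gcongr
        _ = 8 * √v * L ^ (k + 3) := by ring
        _ ≤ h := h12
    have g7 := hkey 4 (by norm_num) (by norm_num)
    have g8 := hkey 1 (by norm_num) (by norm_num)
    rw [one_mul] at g8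
    have g9 : (1 - ε / 8) * ((1 - ε / 8) * (S * h)) ≤ (1 - τ) ^ k * D := by
      apply mul_le_mul g3 _ _ hρ0
      · linarith [hDS.1]
      · have : 0 ≤ 1 - ε / 8 := by linarith
        positivity
    have hεS : 0 < ε * (S * h) := by positivity
    have g10 : (1 - ε) * (S * h) ≤ ((PT s f a b).card : ℝ) * (ℓ * L ^ k) := by
      have h7 : (1 - ε / 4) * (S * h) ≤ (1 - ε / 8) * ((1 - ε / 8) * (S * h)) := by
        have h8 : 0 ≤ ε ^ 2 / 64 * (S * h) := by positivity
        have h9 : (1 - ε / 8) * ((1 - ε / 8) * (S * h)) = (1 - ε / 4) * (S * h) + ε ^ 2 / 64 * (S * h) := by ring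
        rw [h9]
        linarith
      rw [add_mul] at g4
      have h10 : (1 - ε) * (S * h) = (1 - ε / 4) * (S * h) - 3 / 4 * (ε * (S * h)) := by ring
      rw [h10]
      have h11 : 4 / 100 * ε * (S * h) = 4 / 100 * (ε * (S * h)) := by ring
      have h12 : 1 / 100 * ε * (S * h) = 1 / 100 * (ε * (S * h)) := by ring
      rw [h11] at g7
      rw [h12] at g8
      linarith
    rw [← hMeq] at g10
    have g11 : (1 - ε) * M * (ℓ * L ^ k) ≤ ((PT s f a b).card : ℝ) * (ℓ * L ^ k) := by linarith
    exact le_of_mul_le_mul_right g11 hden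
  -- the upper bound
  have hupp : ((PT s f a b).card : ℝ) ≤ (1 + ε) * M := by
    obtain ⟨y, hy⟩ : ∃ y, y = ⌊v / L ^ (W + k + 5)⌋₊ := ⟨_, rfl⟩
    have hvW : 16 ≤ v / L ^ (W + k + 5) := by
      rw [le_div_iff₀ (by positivity)]
      calc 16 * L ^ (W + k + 5) ≤ 64 * L ^ (2 * (k + W + 12)) := by
            have : L ^ (W + k + 5) ≤ L ^ (2 * (k + W + 12)) := pow_le_pow_right₀ hL1 (by omega)
            have h7 : 0 < L ^ (2 * (k + W + 12)) := by positivity
            linarith
        _ ≤ v := hvL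
    have hy1 : (y : ℝ) ≤ v / L ^ (W + k + 5) := by rw [hy]; exact Nat.floor_le (by positivity)
    have hy2 : v / L ^ (W + k + 5) < y + 1 := by rw [hy]; exact Nat.lt_floor_add_one _
    have hyn : 1 ≤ y := by
      have : (0 : ℝ) < y := by linarith
      exact_mod_cast this
    have hyy : v / L ^ (W + k + 6) ≤ y := by
      have f1 : v / L ^ (W + k + 6) = (v / L ^ (W + k + 5)) / L := by
        rw [show W + k + 6 = (W + k + 5) + 1 by ring, pow_succ]
        field_simp
      have f2 : (v / L ^ (W + k + 5)) / L ≤ (v / L ^ (W + k + 5)) / 2 :=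
        div_le_div_of_nonneg_left (by positivity) (by norm_num) (by linarith)
      rw [f1]
      linarith
    have hlogy : (1 - τ) * ℓ ≤ lb s y := by
      rw [hℓ]
      cases s with
      | true =>
        simp only [lb, if_true]
        have f1 : Real.log (v / L ^ (W + k + 6)) ≤ Real.log y := Real.log_le_log (by positivity) hyy
        rw [Real.log_div hv0.ne' (by positivity), Real.log_pow, ← hlm] at f1
        push_cast at f1
        have f2 : ((W : ℝ) + k + 6) * lm ≤ (W + k + 12) * lm := by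
          apply mul_le_mul_of_nonneg_right _ hlm0
          linarith
        have f3 : τ * (θ * L) ≤ τ * Real.log v := mul_le_mul_of_nonneg_left hlogv5 hτ0.le
        linarith
      | false =>
        simp only [lb, Bool.false_eq_true, if_false]
        linarith
    obtain ⟨ll, hll⟩ : ∃ ll, ll = L - 2 * lm := ⟨_, rfl⟩
    have hllL : (1 - τ) * L ≤ ll := by
      rw [hll]
      have f2 : 2 * lm ≤ (W + k + 12) * lm := by
        apply mul_le_mul_of_nonneg_right _ hlm0
        have h7 : (0 : ℝ) ≤ W := Nat.cast_nonneg W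
        have h8 : (0 : ℝ) ≤ k := Nat.cast_nonneg k
        linarith
      have f3 : τ * (θ * L) ≤ τ * L := by
        apply mul_le_mul_of_nonneg_left _ hτ0.le
        exact mul_le_of_le_one_left hL0.le hθ1
      linarith
    have hτL0 : 0 < (1 - τ) * L := by
      apply mul_pos (by linarith) hL0
    have hll0 : 0 < ll := lt_of_lt_of_le hτL0 hllL
    have hlogy0 : 0 < lb s y := lt_of_lt_of_le (mul_pos (by linarith) hℓ0) hlogy
    have g1 := uppT s f a b y hab hyn ll hll0.le (by
      intro n hn i hp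
      have hn' := mem_Ioc.1 hn
      have hnI : n ∈ Icc 1 P := by rw [mem_Icc]; omega
      have h5 : 1 ≤ f i n := by
        have := hp.one_le
        omega
      unfold lamI
      rw [if_pos h5, ArithmeticFunction.vonMangoldt_apply_prime hp]
      have h6 : (((f i n).toNat : ℕ) : ℝ) = (f i n : ℝ) := by
        have := Int.toNat_of_nonneg (show 0 ≤ f i n by omega)
        exact_mod_cast this
      rw [h6, hll]
      exact (hvalue i n hnI).1)
    rw [← hD] at g1
    have g2 : (1 - ε / 8) * (ℓ * L ^ k) ≤ lb s y * ll ^ k := by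
      have h7 : (1 - τ) ^ (k + 1) * (ℓ * L ^ k) ≤ lb s y * ll ^ k := by
        calc (1 - τ) ^ (k + 1) * (ℓ * L ^ k) = ((1 - τ) * ℓ) * ((1 - τ) * L) ^ k := by
              rw [mul_pow, pow_succ]
              ring
          _ ≤ _ := by
              gcongr
      have h8 := one_add_mul_le_pow (show (-2 : ℝ) ≤ -τ by linarith) (k + 1)
      have h9 : 1 - ε / 8 ≤ (1 - τ) ^ (k + 1) := by
        have e : (1 : ℝ) - τ = 1 + -τ := by ring
        rw [e]
        refine le_trans ?_ h8
        push_cast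
        linarith
      exact (mul_le_mul_of_nonneg_right h9 hden.le).trans h7
    obtain ⟨E, hE⟩ : ∃ E, E = lb s y * ll ^ k := ⟨_, rfl⟩
    rw [← hE] at g1 g2
    have hε8 : 0 < 1 - ε / 8 := by linarith
    have hE0 : 0 < E := lt_of_lt_of_le (by positivity) g2
    have g3 : ((PT s f a b).card : ℝ) ≤ y + D / E := by
      have : ((PT s f a b).card : ℝ) * E ≤ (y + D / E) * E := by
        rw [add_mul, div_mul_cancel₀ _ hE0.ne']
        exact g1
      exact le_of_mul_le_mul_right this hE0
    have g4 : D / E ≤ (1 + ε / 2) * M := by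
      rw [div_le_iff₀ hE0]
      have h7 : D ≤ (1 + ε / 8) * (S * h) := by linarith [hDS.2]
      have h8 : (1 + ε / 8) ≤ (1 + ε / 2) * (1 - ε / 8) := by
        have h9 : (1 + ε / 2) * (1 - ε / 8) = 1 + 3 * ε / 8 - ε * ε / 16 := by ring
        have h10 : ε * ε ≤ 1 * ε := mul_le_mul_of_nonneg_right hε1 hε.le
        rw [h9]
        linarith
      calc D ≤ (1 + ε / 8) * (S * h) := h7
        _ ≤ ((1 + ε / 2) * (1 - ε / 8)) * (S * h) := mul_le_mul_of_nonneg_right h8 hSh.le
        _ = (1 + ε / 2) * M * ((1 - ε / 8) * (ℓ * L ^ k)) := by rw [← hMeq]; ring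
        _ ≤ _ := mul_le_mul_of_nonneg_left g2 (by positivity)
    have g5 : (y : ℝ) ≤ ε / 2 * M := by
      have h7 : (y : ℝ) * (ℓ * L ^ k) ≤ ε / 2 * (S * h) := by
        calc (y : ℝ) * (ℓ * L ^ k) ≤ (v / L ^ (W + k + 5)) * (L * L ^ k) := by gcongr
          _ ≤ ((h * L ^ W) / L ^ (W + k + 5)) * (L * L ^ k) := by gcongr
          _ = h / L ^ 4 := by
              rw [show W + k + 5 = W + (k + 1 + 4) by ring, pow_add L W, pow_add L (k + 1) 4, pow_succ L k]
              field_simp
          _ ≤ h / L ^ 2 := by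
              apply div_le_div_of_nonneg_left hh0.le (by positivity)
              exact pow_le_pow_right₀ hL1 (by norm_num)
          _ = 1 * h / L ^ 2 := by ring
          _ ≤ 1 / 100 * ε * (S * h) := hkey 1 (by norm_num) (by norm_num)
          _ ≤ _ := by
              have h13 : 0 < ε * (S * h) := by positivity
              have h14 : 1 / 100 * ε * (S * h) = 1 / 100 * (ε * (S * h)) := by ring
              have h15 : ε / 2 * (S * h) = 1 / 2 * (ε * (S * h)) := by ring
              rw [h14, h15]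
              linarith
      rw [← hMeq] at h7
      have h8 : (y : ℝ) * (ℓ * L ^ k) ≤ (ε / 2 * M) * (ℓ * L ^ k) := by linarith
      exact le_of_mul_le_mul_right h8 hden
    linarith
  rw [abs_le]
  constructor
  · linarith
  · linarith

end Pool.Agent.H561.PG
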