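import Pool.Agent.H561.PG.C2

set_option autoImplicit false

/-! All windows, for almost all members of a family, with integers or primes as arguments. -/

namespace Pool.Agent.H561.PG

open Finset
open Pool.Agent.H373R2.T7
open Pool.Agent.H561.GN (BP)

variable {k : ℕ}

/-- the formula for the number of the primes in all windows -/
def GdT (s : Bool) (r : ℕ) (X D W : ℕ) (θ ε : ℝ) (f : Fin k → ℕ → ℤ) (S : ℝ) : Prop :=
  ∀ u v : ℝ, 0 ≤ u → (X : ℝ) ^ θ ≤ v → (4 * v) ^ r * Real.log X ^ D ≤ X → v / Real.log X ^ W ≤ v - u →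
    |((PT s f ⌊u⌋₊ ⌊v⌋₊).card : ℝ) - S * (v - u) / (lb s v * Real.log X ^ k)| ≤
      ε * (S * (v - u) / (lb s v * Real.log X ^ k))

open Classical in
theorem fam_ofT (s : Bool) (r k W A D : ℕ) (hr : 1 ≤ r) (θ ε : ℝ) (hθ : 0 < θ) (hθ1 : θ ≤ 1) (hε : 0 < ε) (hε1 : ε ≤ 1) :
    ∃ X₀ : ℕ, ∀ X : ℕ, X₀ ≤ X → ∀ (ι : Type) (Ω : Finset ι) (f : ι → Fin k → ℕ → ℤ) (S : ι → ℝ) (Y : ℝ), 0 ≤ Y →
    (∀ ω ∈ Ω, 1 / Real.log X ≤ S ω) →
    (∀ ω ∈ Ω, ∀ i, ∀ n : ℕ, 1 ≤ n → (n : ℝ) ^ r * Real.log X ^ D ≤ X →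
      (X : ℝ) / Real.log X ^ 2 ≤ f ω i n ∧ (f ω i n : ℝ) ≤ X * Real.log X ^ W) →
    (∀ j : ℕ, (X : ℝ) ^ θ ≤ ((2 ^ j : ℕ) : ℝ) → ((2 ^ j : ℕ) : ℝ) ^ r * Real.log X ^ D ≤ X →
      ((Ω.filter (fun ω => ∃ y : ℕ, y ≤ 2 ^ j ∧ ((2 ^ j : ℕ) : ℝ) / Real.log X ^ (W + k + 6) < |RT s (f ω) y - S ω * y|)).card : ℝ) ≤
        Y / Real.log X ^ (A + 2) ∧
      ((Ω.filter (fun ω => ((2 ^ j : ℕ) : ℝ) / Real.log X ^ (W + k + 7) < ((BP (f ω) (2 ^ j)).card : ℝ))).card : ℝ) ≤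
        Y / Real.log X ^ (A + 2)) →
    ((Ω.filter (fun ω => ¬ GdT s r X D W θ ε (f ω) (S ω))).card : ℝ) ≤ Y / Real.log X ^ A := by
  obtain ⟨n1, h1⟩ := cnt_ofT s k W θ ε hθ hθ1 hε hε1
  obtain ⟨n2, h2⟩ := ev_L' 100
  refine ⟨n1 + n2 + 2, fun X hX ι Ω f S Y hY hS hval hAB => ?_⟩
  have hcnt := h1 X (by omega)
  have hL := h2 X (by omega)
  have hnl := natlog_le X (by omega)
  have hX1 : (1 : ℝ) ≤ X := by exact_mod_cast (by omega : 1 ≤ X)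
  have hX0 : (0 : ℝ) < X := by linarith
  have hGd : ∀ ω, ¬ GdT s r X D W θ ε (f ω) (S ω) → ∃ u v : ℝ, 0 ≤ u ∧ (X : ℝ) ^ θ ≤ v ∧ (4 * v) ^ r * Real.log X ^ D ≤ X ∧
      v / Real.log X ^ W ≤ v - u ∧ ¬ |((PT s (f ω) ⌊u⌋₊ ⌊v⌋₊).card : ℝ) - S ω * (v - u) / (lb s v * Real.log X ^ k)| ≤
      ε * (S ω * (v - u) / (lb s v * Real.log X ^ k)) := by
    intro ω hω
    unfold GdT at hω
    push Not at hω
    obtain ⟨u, v, g1, g2, g3, g4, g5⟩ := hω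
    exact ⟨u, v, g1, g2, g3, g4, not_le.2 g5⟩
  obtain ⟨L, hLd⟩ : ∃ L, L = Real.log (X : ℝ) := ⟨_, rfl⟩
  rw [← hLd] at hcnt hL hnl hval hAB hGd hS ⊢
  have hL1 : 1 ≤ L := by linarith
  have hL0 : 0 < L := by linarith
  obtain ⟨Bad, hBad⟩ : ∃ Bad : ℕ → Finset ι, Bad = fun j =>
    (Ω.filter (fun ω => ∃ y : ℕ, y ≤ 2 ^ j ∧ ((2 ^ j : ℕ) : ℝ) / L ^ (W + k + 6) < |RT s (f ω) y - S ω * y|)) ∪
    (Ω.filter (fun ω => ((2 ^ j : ℕ) : ℝ) / L ^ (W + k + 7) < ((BP (f ω) (2 ^ j)).card : ℝ))) := ⟨_, rfl⟩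
  obtain ⟨J, hJ⟩ : ∃ J : Finset ℕ, J = (range (Nat.log 2 X + 1)).filter (fun j =>
    (X : ℝ) ^ θ ≤ ((2 ^ j : ℕ) : ℝ) ∧ ((2 ^ j : ℕ) : ℝ) ^ r * L ^ D ≤ X) := ⟨_, rfl⟩
  have hsub : Ω.filter (fun ω => ¬ GdT s r X D W θ ε (f ω) (S ω)) ⊆ J.biUnion Bad := by
    intro ω hω
    rw [mem_filter] at hω
    obtain ⟨hωΩ, hng⟩ := hω
    obtain ⟨u, v, hu, hv, hvD, hvu, hne⟩ := hGd ω hng
    by_contra hcon
    apply hne
    have hXθ : (1 : ℝ) ≤ (X : ℝ) ^ θ := Real.one_le_rpow hX1 (by linarith)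
    have hv1 : 1 ≤ v := hXθ.trans hv
    have hv0 : 0 < v := by linarith
    -- the scale
    obtain ⟨j, hj⟩ : ∃ j, j = Nat.clog 2 ⌈v⌉₊ := ⟨_, rfl⟩
    have hc1 : ⌈v⌉₊ ≤ 2 ^ j := by rw [hj]; exact Nat.le_pow_clog (by norm_num) _
    have hvP : v ≤ ((2 ^ j : ℕ) : ℝ) := (Nat.le_ceil v).trans (by exact_mod_cast hc1)
    have hP4 : ((2 ^ j : ℕ) : ℝ) ≤ 4 * v := by
      rcases Nat.eq_zero_or_pos j with h0 | h0
      · rw [h0]
        push_cast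
        linarith
      · have hne1 : 1 < ⌈v⌉₊ := by
          by_contra hc
          have : Nat.clog 2 ⌈v⌉₊ = 0 := Nat.clog_of_right_le_one (by omega) 2
          omega
        have e1 : 2 ^ (j - 1) < ⌈v⌉₊ := by
          rw [hj]
          exact Nat.pow_pred_clog_lt_self (by norm_num) (by omega)
        have e2 : (2 : ℕ) ^ j = 2 * 2 ^ (j - 1) := by
          rw [← pow_succ']
          congr 1
          omega
        have e3 : ((2 ^ (j - 1) : ℕ) : ℝ) ≤ ⌈v⌉₊ := by exact_mod_cast e1.le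
        have e4 := (Nat.ceil_lt_add_one hv0.le).le
        rw [e2]
        push_cast at e3 ⊢
        linarith
    have hc2 : (X : ℝ) ^ θ ≤ ((2 ^ j : ℕ) : ℝ) := hv.trans hvP
    have hc3 : ((2 ^ j : ℕ) : ℝ) ^ r * L ^ D ≤ X := by
      refine le_trans ?_ hvD
      exact mul_le_mul_of_nonneg_right (pow_le_pow_left₀ (Nat.cast_nonneg _) hP4 r) (by positivity)
    have h2j1 : (1 : ℝ) ≤ ((2 ^ j : ℕ) : ℝ) := by
      have : 1 ≤ 2 ^ j := Nat.one_le_two_pow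
      exact_mod_cast this
    have hc4 : ((2 ^ j : ℕ) : ℝ) ≤ X := by
      refine (le_self_pow₀ h2j1 (by omega : r ≠ 0)).trans ?_
      refine le_trans ?_ hc3
      exact le_mul_of_one_le_right (pow_nonneg (Nat.cast_nonneg _) r) (one_le_pow₀ hL1)
    have hjJ : j ∈ J := by
      rw [hJ, mem_filter, mem_range]
      refine ⟨?_, hc2, hc3⟩
      have : 2 ^ j ≤ X := by exact_mod_cast hc4
      have := Nat.le_log_of_pow_le (by norm_num : 1 < 2) this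
      omega
    have hnot : ω ∉ Bad j := fun hc => hcon (mem_biUnion.2 ⟨j, hjJ, hc⟩)
    rw [hBad] at hnot
    simp only [mem_union, mem_filter, not_or, not_and, not_exists, not_lt] at hnot
    obtain ⟨g1, g2⟩ := hnot
    apply hcnt (f ω) (S ω) (hS ω hωΩ) u v hu _ _ hvu (2 ^ j)
    · exact_mod_cast (Nat.floor_le hv0.le).trans hvP
    · exact hP4
    · intro i n hn
      rw [mem_Icc] at hn
      apply hval ω hωΩ i n hn.1
      refine le_trans ?_ hc3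
      apply mul_le_mul_of_nonneg_right _ (by positivity)
      apply pow_le_pow_left₀ (Nat.cast_nonneg _)
      exact_mod_cast hn.2
    · intro y hy
      exact g1 hωΩ y hy
    · exact g2 hωΩ
    · exact hv
    · exact hvP.trans hc4
  have hcard : ∀ j ∈ J, ((Bad j).card : ℝ) ≤ 2 * (Y / L ^ (A + 2)) := by
    intro j hj
    rw [hJ, mem_filter] at hj
    obtain ⟨e1, e2⟩ := hAB j hj.2.1 hj.2.2
    rw [hBad]
    simp only
    calc _ ≤ ((((Ω.filter (fun ω => ∃ y : ℕ, y ≤ 2 ^ j ∧ ((2 ^ j : ℕ) : ℝ) / L ^ (W + k + 6) < |RT s (f ω) y - S ω * y|)).card +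
          (Ω.filter (fun ω => ((2 ^ j : ℕ) : ℝ) / L ^ (W + k + 7) < ((BP (f ω) (2 ^ j)).card : ℝ))).card : ℕ)) : ℝ) := by
          exact_mod_cast card_union_le _ _
      _ ≤ _ := by
          push_cast at e1 e2 ⊢
          linarith
  calc ((Ω.filter (fun ω => ¬ GdT s r X D W θ ε (f ω) (S ω))).card : ℝ) ≤ ((J.biUnion Bad).card : ℝ) := by
        exact_mod_cast card_le_card hsub
    _ ≤ ∑ j ∈ J, ((Bad j).card : ℝ) := by exact_mod_cast card_biUnion_le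
    _ ≤ ∑ j ∈ J, 2 * (Y / L ^ (A + 2)) := sum_le_sum hcard
    _ = J.card * (2 * (Y / L ^ (A + 2))) := by rw [sum_const, nsmul_eq_mul]
    _ ≤ (3 * L) * (2 * (Y / L ^ (A + 2))) := by
        apply mul_le_mul_of_nonneg_right _ (by positivity)
        have : J.card ≤ Nat.log 2 X + 1 := by
          rw [hJ]
          refine (card_filter_le _ _).trans ?_
          rw [card_range]
        have : (J.card : ℝ) ≤ (Nat.log 2 X : ℝ) + 1 := by exact_mod_cast this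
        linarith
    _ = (6 / L) * (Y / L ^ A) := by
        rw [pow_add L A 2]
        field_simp
        ring
    _ ≤ 1 * (Y / L ^ A) := by
        apply mul_le_mul_of_nonneg_right _ (by positivity)
        rw [div_le_one hL0]
        linarith
    _ = _ := one_mul _

end Pool.Agent.H561.PG
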