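import Pool.Agent.H561.PG.C3
import Pool.Graph.R_seed8.H373R2.T7.SysCount
import Pool.Graph.R_seed8.H373R2.T7.Fund
import Pool.Agent.H561.GN.G6

set_option autoImplicit false

/-! The main term for one form with periodic conditions, at the integers or at the primes. -/

namespace Pool.Agent.H561.PG

open Finset
open Pool.Agent.H373R2.T7

/-- the local density -/
noncomputable def loc (s : Bool) (Q : ℕ → ℕ → Prop) (p : ℕ) : ℝ :=
  if s then (rhoA Q p : ℝ) / (p - 1 : ℝ) else (nuB Q p : ℝ) / p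

/-- the truncated singular series -/
noncomputable def St (s : Bool) (z : ℕ) (Q : ℕ → ℕ → Prop) : ℝ := (Vz z)⁻¹ * ∏ p ∈ pz z, (1 - loc s Q p)

lemma rhoA_le' (Q : ℕ → ℕ → Prop) (p : ℕ) (hp : 1 ≤ p) : rhoA Q p ≤ p - 1 := by
  classical
  unfold rhoA
  have : (range p).filter (fun r => ¬ p ∣ r ∧ Q p r) ⊆ (range p).erase 0 := by
    intro r hr
    rw [mem_filter] at hr
    rw [mem_erase]
    refine ⟨fun h => hr.2.1 ?_, hr.1⟩
    rw [h]
    exact dvd_zero p
  refine (card_le_card this).trans ?_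
  rw [card_erase_of_mem (mem_range.2 hp), card_range]

lemma loc_mem (s : Bool) (Q : ℕ → ℕ → Prop) (p : ℕ) (hp : p.Prime) : 0 ≤ loc s Q p ∧ loc s Q p ≤ 1 := by
  have hp2 : (2 : ℝ) ≤ p := by exact_mod_cast hp.two_le
  unfold loc
  split_ifs
  · have h1 := rhoA_le' Q p hp.one_le
    have h2 : (rhoA Q p : ℝ) + 1 ≤ p := by
      have : rhoA Q p + 1 ≤ p := by
        have := hp.one_le
        omega
      exact_mod_cast this
    constructor
    · exact div_nonneg (Nat.cast_nonneg _) (by linarith)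
    · rw [div_le_one (by linarith)]
      linarith
  · have h1 : (nuB Q p : ℝ) ≤ p := by exact_mod_cast nuB_le Q p
    constructor
    · positivity
    · rw [div_le_one (by linarith)]
      exact h1

lemma prod_mem (s : Bool) (Q : ℕ → ℕ → Prop) (z : ℕ) :
    0 ≤ ∏ p ∈ pz z, (1 - loc s Q p) ∧ ∏ p ∈ pz z, (1 - loc s Q p) ≤ 1 := by
  have h : ∀ p ∈ pz z, 0 ≤ 1 - loc s Q p ∧ 1 - loc s Q p ≤ 1 := by
    intro p hp
    have := loc_mem s Q p (mem_pz.1 hp).2
    constructor <;> linarith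
  exact ⟨prod_nonneg fun p hp => (h p hp).1, prod_le_one (fun p hp => (h p hp).1) fun p hp => (h p hp).2⟩

lemma St_mem (s : Bool) (Q : ℕ → ℕ → Prop) (z : ℕ) : 0 ≤ St s z Q ∧ St s z Q ≤ (Vz z)⁻¹ := by
  have hV := Vz_pos z
  obtain ⟨h1, h2⟩ := prod_mem s Q z
  unfold St
  exact ⟨mul_nonneg (by positivity) h1, mul_le_of_le_one_right (by positivity) h2⟩

open Classical in
/-- the sum over an interval free of the conditions -/
lemma cnt_base (s : Bool) (c E U : ℕ) (hc : 1 ≤ c) : ∃ N0 : ℕ, ∀ N : ℕ, N0 ≤ N → ∀ z : ℕ, 1 ≤ z → (z : ℝ) ≤ Real.log N ^ E →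
    ∀ Q : ℕ → ℕ → Prop, PerB Q c → |∑ n ∈ Icc 1 N, wt s n * (if ∀ p ∈ pz z, ¬ Q p n then 1 else 0) -
      N * ∏ p ∈ pz z, (1 - loc s Q p)| ≤ N / Real.log N ^ U := by
  classical
  cases s with
  | true =>
    obtain ⟨N0, h⟩ := sys_main c E U hc
    refine ⟨N0, fun N hN z hz hzE Q hQ => ?_⟩
    have := h N hN z hz hzE Q hQ.toA
    refine le_trans (le_of_eq ?_) this
    congr 2
    · rw [sum_filter]
      apply sum_congr rfl
      intro n _
      by_cases h1 : ∀ p ∈ pz z, ¬ Q p n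
      · simp only [wt, if_true, if_pos h1, mul_one]
      · simp only [wt, if_true, if_neg h1, mul_zero]
  | false =>
    obtain ⟨N0, h⟩ := sys_count c E U hc
    refine ⟨N0, fun N hN z hz hzE Q hQ => ?_⟩
    have := h N hN z hz hzE Q hQ
    refine le_trans (le_of_eq ?_) this
    congr 2
    · rw [card_filter]
      push_cast
      apply sum_congr rfl
      intro n _
      simp only [wt, Bool.false_eq_true, if_false, one_mul]

/-- **The main term.** -/
theorem mainQ (s : Bool) (c E U : ℕ) (hc : 1 ≤ c) (θ : ℝ) (hθ : 0 < θ) : ∃ X₀ : ℕ, ∀ X : ℕ, X₀ ≤ X → ∀ z : ℕ, 1 ≤ z →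
    (z : ℝ) ≤ Real.log X ^ E → ∀ P : ℕ, (X : ℝ) ^ θ ≤ P → P ≤ X → ∀ y : ℕ, y ≤ P → ∀ Q : ℕ → ℕ → Prop, PerB Q c →
    ∀ g : ℕ → ℤ, (∀ n ∈ Icc 1 y, 1 ≤ g n) → (∀ n ∈ Icc 1 y, ∀ p : ℕ, p.Prime → (Q p n ↔ (p : ℤ) ∣ g n)) →
    |∑ n ∈ Icc 1 y, wt s n * lamzI z (g n) - St s z Q * y| ≤ P / Real.log X ^ U := by
  classical
  obtain ⟨n0, h0⟩ := cnt_base s c (E + 1) (U + 2) hc
  obtain ⟨n1, h1⟩ := ev_L' ((2 / θ) ^ (E + 1) + (2 / θ) ^ (U + 2) + 10)
  obtain ⟨n2, h2⟩ := Vz_inv_small E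
  obtain ⟨n3, h3⟩ := Filter.eventually_atTop.1 (Pool.Agent.helper24_UT.Sil2.ev_pow (2 + U) (θ / 2) 2 (by positivity))
  obtain ⟨n4, h4⟩ : ∃ n4 : ℕ, ∀ X : ℕ, n4 ≤ X → (n0 : ℝ) ≤ (X : ℝ) ^ (θ / 2) := by
    have := (tendsto_rpow_atTop (show 0 < θ / 2 by positivity)).comp (tendsto_natCast_atTop_atTop (R := ℝ))
    exact Filter.eventually_atTop.1 (this.eventually_ge_atTop (n0 : ℝ))
  refine ⟨n1 + n2 + n3 + n4 + 3, fun X hX z hz1 hz2 P hP hPX y hy Q hQ g hg hgQ => ?_⟩
  have hL := h1 X (by omega)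
  have hV := h2 X (by omega) z hz1 hz2
  have a3 := h3 X (by omega)
  have a4 := h4 X (by omega)
  have hX1 : (1 : ℝ) ≤ X := by exact_mod_cast (by omega : 1 ≤ X)
  have hX0 : (0 : ℝ) < X := by linarith
  have hlog10 : Real.log ((X : ℝ) ^ (θ / 2)) = θ / 2 * Real.log X := by
    rw [Real.log_rpow hX0]
  have hvm : ∀ n ∈ Icc 1 y, wt s n ≤ Real.log X + 1 := by
    intro n hn
    rw [mem_Icc] at hn
    have hl0 : 0 ≤ Real.log X := Real.log_nonneg hX1
    unfold wt
    split_ifs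
    · have : (ArithmeticFunction.vonMangoldt n : ℝ) ≤ Real.log X := by
        refine ArithmeticFunction.vonMangoldt_le_log.trans ?_
        exact Real.log_le_log (by exact_mod_cast hn.1) (by exact_mod_cast (hn.2.trans hy).trans hPX)
      linarith
    · linarith
  obtain ⟨L, hLd⟩ : ∃ L, L = Real.log (X : ℝ) := ⟨_, rfl⟩
  rw [← hLd] at hL hV a3 hz2 hlog10 hvm ⊢
  have p1 : (0 : ℝ) < (2 / θ) ^ (E + 1) := by positivity
  have p2 : (0 : ℝ) < (2 / θ) ^ (U + 2) := by positivity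
  have hL1 : 1 ≤ L := by linarith
  have hL0 : 0 < L := by linarith
  have hs : 0 < (X : ℝ) ^ (θ / 2) := by positivity
  have hP10 : (X : ℝ) ^ (θ / 2) * (X : ℝ) ^ (θ / 2) ≤ P := by
    rw [← Real.rpow_add hX0]
    refine le_trans (le_of_eq ?_) hP
    congr 1
    ring
  have hP0 : (0 : ℝ) < P := lt_of_lt_of_le (by positivity) hP10
  obtain ⟨hs0, hs1⟩ := St_mem s Q z
  have hVp : 0 < (Vz z)⁻¹ := inv_pos.2 (Vz_pos z)
  have hyP : (y : ℝ) ≤ P := by exact_mod_cast hy
  rcases le_or_gt ((X : ℝ) ^ (θ / 2)) y with hc | hc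
  · have hy0 : (0 : ℝ) < y := lt_of_lt_of_le hs hc
    have hly : θ / 2 * L ≤ Real.log y := by
      rw [← hlog10]
      exact Real.log_le_log hs hc
    have hθL : 0 < θ / 2 * L := by positivity
    have hly0 : 0 < Real.log y := by linarith
    have hyn : n0 ≤ y := by exact_mod_cast a4.trans hc
    have hpow : ∀ m : ℕ, (2 / θ) ^ (m + 1) ≤ L → L ^ m ≤ (θ / 2 * L) ^ (m + 1) := by
      intro m hm
      rw [mul_pow, pow_succ L m]
      have e1 : (2 / θ) ^ (m + 1) * (θ / 2) ^ (m + 1) = 1 := by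
        rw [← mul_pow]
        have : 2 / θ * (θ / 2) = 1 := by field_simp
        rw [this, one_pow]
      have e2 : 1 ≤ (θ / 2) ^ (m + 1) * L := by
        rw [← e1, mul_comm]
        exact mul_le_mul_of_nonneg_left hm (by positivity)
      calc L ^ m = L ^ m * 1 := by ring
        _ ≤ L ^ m * ((θ / 2) ^ (m + 1) * L) := mul_le_mul_of_nonneg_left e2 (by positivity)
        _ = _ := by ring
    have hzy : (z : ℝ) ≤ Real.log y ^ (E + 1) := by
      refine hz2.trans ((hpow E (by linarith)).trans ?_)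
      exact pow_le_pow_left₀ hθL.le hly _
    have gg := h0 y hyn z hz1 hzy Q hQ
    have hsum : ∑ n ∈ Icc 1 y, wt s n * lamzI z (g n) =
        (Vz z)⁻¹ * ∑ n ∈ Icc 1 y, wt s n * (if ∀ p ∈ pz z, ¬ Q p n then 1 else 0) := by
      rw [mul_sum]
      apply sum_congr rfl
      intro n hn
      have e1 : lamzI z (g n) = (Vz z)⁻¹ * (if ∀ p ∈ pz z, ¬ Q p n then 1 else 0) := by
        unfold lamzI lamz
        rw [if_pos (hg n hn)]
        have e2 : (∀ p ∈ pz z, ¬ p ∣ (g n).toNat) ↔ (∀ p ∈ pz z, ¬ Q p n) := by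
          apply forall_congr'
          intro p
          apply forall_congr'
          intro hp
          rw [hgQ n hn p (mem_pz.1 hp).2]
          have e3 : ((g n).toNat : ℤ) = g n := Int.toNat_of_nonneg (by have := hg n hn; omega)
          rw [← Int.natCast_dvd_natCast, e3]
        by_cases h5 : ∀ p ∈ pz z, ¬ Q p n
        · rw [if_pos h5, if_pos (e2.2 h5), mul_one]
        · rw [if_neg h5, if_neg (fun h6 => h5 (e2.1 h6)), mul_zero]
      rw [e1]
      ring
    rw [hsum]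
    have e : (Vz z)⁻¹ * ∑ n ∈ Icc 1 y, wt s n * (if ∀ p ∈ pz z, ¬ Q p n then 1 else 0) - St s z Q * y =
        (Vz z)⁻¹ * (∑ n ∈ Icc 1 y, wt s n * (if ∀ p ∈ pz z, ¬ Q p n then 1 else 0) - y * ∏ p ∈ pz z, (1 - loc s Q p)) := by
      unfold St
      ring
    rw [e, abs_mul, abs_of_pos hVp]
    calc (Vz z)⁻¹ * |∑ n ∈ Icc 1 y, wt s n * (if ∀ p ∈ pz z, ¬ Q p n then 1 else 0) - y * ∏ p ∈ pz z, (1 - loc s Q p)| ≤
          L * (P / L ^ (U + 1)) := by
          apply mul_le_mul hV _ (abs_nonneg _) hL0.le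
          refine gg.trans ?_
          rw [div_le_div_iff₀ (by positivity) (by positivity)]
          have e1 : L ^ (U + 1) ≤ Real.log y ^ (U + 2) := by
            refine (hpow (U + 1) (by linarith)).trans ?_
            exact pow_le_pow_left₀ hθL.le hly _
          exact mul_le_mul hyP e1 (by positivity) hP0.le
      _ = P / L ^ U := by
          rw [pow_succ]
          field_simp
  · -- short sums
    have g1 : |∑ n ∈ Icc 1 y, wt s n * lamzI z (g n)| ≤ y * ((L + 1) * L) := by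
      rw [abs_of_nonneg (sum_nonneg fun n _ => mul_nonneg (wt_nonneg s n) (GN.lamzI_nn z _))]
      have : ∀ n ∈ Icc 1 y, wt s n * lamzI z (g n) ≤ (L + 1) * L := by
        intro n hn
        apply mul_le_mul (hvm n hn) ((GN.lamzI_le z _).trans hV) (GN.lamzI_nn z _) (by linarith)
      refine (sum_le_card_nsmul _ _ _ this).trans (le_of_eq ?_)
      rw [Nat.card_Icc, nsmul_eq_mul, Nat.add_sub_cancel]
    have hy0 : (0 : ℝ) ≤ y := Nat.cast_nonneg _
    have g2 : |St s z Q * y| ≤ y * L := by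
      rw [abs_of_nonneg (mul_nonneg hs0 hy0), mul_comm]
      exact mul_le_mul_of_nonneg_left (hs1.trans hV) hy0
    have g3 : y * ((L + 1) * L) + y * L ≤ P / L ^ U := by
      rw [le_div_iff₀ (by positivity)]
      calc (y * ((L + 1) * L) + y * L) * L ^ U ≤ y * (2 * L ^ (2 + U)) := by
            have : (L + 1) * L + L ≤ 2 * L ^ 2 := by nlinarith
            calc (y * ((L + 1) * L) + y * L) * L ^ U = y * (((L + 1) * L + L) * L ^ U) := by ring
              _ ≤ y * ((2 * L ^ 2) * L ^ U) := by gcongr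
              _ = _ := by ring
        _ ≤ (X : ℝ) ^ (θ / 2) * (X : ℝ) ^ (θ / 2) := mul_le_mul hc.le a3 (by positivity) hs.le
        _ ≤ P := hP10
    refine (abs_sub _ _).trans ?_
    linarith

end Pool.Agent.H561.PG
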