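import Pool.Agent.H561.PG.C4

set_option autoImplicit false

/-! Bounds for the truncated singular series; the conditions of a polynomial. -/

namespace Pool.Agent.H561.PG

open Finset Polynomial
open Pool.Agent.H373R2.T7

/-- the lower bound for the product -/
lemma St_low (s : Bool) (c : ℕ) (Q : ℕ → ℕ → Prop) (hQ : PerB Q c) (z : ℕ) (hloc : ∀ p ∈ pz z, loc s Q p < 1) :
    (1 / ((4 * c + 2 : ℕ) : ℝ)) ^ (4 * c + 2) * Vz z ^ (4 * c) ≤ St s z Q := by
  have hV := Vz_pos z
  have hV1 := Vz_le_one z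
  obtain ⟨p0, hp0⟩ : ∃ p0 : ℕ, p0 = 4 * c + 2 := ⟨_, rfl⟩
  rw [← hp0]
  have hp0r : (1 : ℝ) ≤ p0 := by
    rw [hp0]
    push_cast
    have : (0 : ℝ) ≤ c := Nat.cast_nonneg c
    linarith
  have h1 : ∀ p ∈ pz z, (if p ≤ p0 then 1 / (p0 : ℝ) else 1) * (1 - 1 / (p : ℝ)) ^ (4 * c) ≤ 1 - loc s Q p := by
    intro p hp
    have hpp := (mem_pz.1 hp).2
    have hp2 : (2 : ℝ) ≤ p := by exact_mod_cast hpp.two_le
    have hp0' : (0 : ℝ) < p := by linarith
    have hi1 : 1 / (p : ℝ) ≤ 1 := by
      rw [div_le_one hp0']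
      linarith
    have h3 : (1 - 1 / (p : ℝ)) ^ (4 * c) ≤ 1 := pow_le_one₀ (by linarith) (by
      have : 0 < 1 / (p : ℝ) := by positivity
      linarith)
    have h3' : 0 ≤ (1 - 1 / (p : ℝ)) ^ (4 * c) := pow_nonneg (by linarith) _
    have hl := hloc p hp
    split_ifs with h4
    · have h5 : 1 / (p0 : ℝ) ≤ 1 / p := one_div_le_one_div_of_le hp0' (by exact_mod_cast h4)
      have h6 : 1 / (p : ℝ) ≤ 1 - loc s Q p := by
        unfold loc at hl ⊢
        split_ifs at hl ⊢ with hs
        · rw [div_lt_one (by linarith)] at hl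
          have h7 : (rhoA Q p : ℝ) + 1 ≤ (p : ℝ) - 1 := by
            have h8 : ((rhoA Q p : ℕ) : ℝ) < ((p - 1 : ℕ) : ℝ) := by
              rw [Nat.cast_sub hpp.one_le, Nat.cast_one]
              exact hl
            have h9 : rhoA Q p + 1 ≤ p - 1 := by exact_mod_cast h8
            have h10 : ((rhoA Q p + 1 : ℕ) : ℝ) ≤ ((p - 1 : ℕ) : ℝ) := by exact_mod_cast h9
            rw [Nat.cast_sub hpp.one_le, Nat.cast_one] at h10
            exact_mod_cast h10
          rw [le_sub_iff_add_le, ← sub_nonneg]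
          have e : 1 - (1 / (p : ℝ) + (rhoA Q p : ℝ) / (p - 1)) =
              (p * ((p : ℝ) - 1) - (p - 1) - rhoA Q p * p) / (p * (p - 1)) := by
            have : (p : ℝ) - 1 ≠ 0 := by
              have : (0 : ℝ) < p - 1 := by linarith
              exact this.ne'
            field_simp
            ring
          rw [e]
          apply div_nonneg
          · nlinarith
          · have : (0 : ℝ) < p - 1 := by linarith
            positivity
        · rw [div_lt_one hp0'] at hl
          have h7 : (nuB Q p : ℝ) + 1 ≤ p := by exact_mod_cast hl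
          rw [le_sub_iff_add_le, ← add_div, div_le_one hp0']
          linarith
      calc 1 / (p0 : ℝ) * (1 - 1 / (p : ℝ)) ^ (4 * c) ≤ 1 / p * 1 := by gcongr
        _ ≤ _ := by rw [mul_one]; exact h6
    · rw [one_mul]
      have h5 : p0 < p := not_le.1 h4
      have h6 : (4 * (c : ℝ) + 2) < p := by
        have : ((4 * c + 2 : ℕ) : ℝ) < p := by
          rw [← hp0]
          exact_mod_cast h5
        push_cast at this
        exact this
      have hc0 : (0 : ℝ) ≤ c := Nat.cast_nonneg c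
      have h7 : loc s Q p ≤ 2 * c / p := by
        unfold loc
        split_ifs
        · have h8 : (rhoA Q p : ℝ) ≤ c := by exact_mod_cast hQ.toA.few p hpp
          calc (rhoA Q p : ℝ) / (p - 1) ≤ c / (p - 1) := by
                apply div_le_div_of_nonneg_right h8
                linarith
            _ ≤ 2 * c / p := by
                rw [div_le_div_iff₀ (by linarith) hp0']
                nlinarith
        · have h8 : (nuB Q p : ℝ) ≤ c := by exact_mod_cast hQ.few p hpp
          apply div_le_div_of_nonneg_right _ hp0'.le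
          linarith
      have h8 : (1 - 1 / (p : ℝ)) ^ (4 * c) * (1 + 4 * c / p) ≤ 1 := by
        have h9 : 1 + 4 * c / p ≤ (1 + 1 / (p : ℝ)) ^ (4 * c) := by
          have := one_add_mul_le_pow (show (-2 : ℝ) ≤ 1 / p by
            have : 0 < 1 / (p : ℝ) := by positivity
            linarith) (4 * c)
          refine le_trans (le_of_eq ?_) this
          push_cast
          ring
        calc (1 - 1 / (p : ℝ)) ^ (4 * c) * (1 + 4 * c / p) ≤ (1 - 1 / (p : ℝ)) ^ (4 * c) * (1 + 1 / (p : ℝ)) ^ (4 * c) :=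
              mul_le_mul_of_nonneg_left h9 h3'
          _ = (1 - (1 / (p : ℝ)) ^ 2) ^ (4 * c) := by
              rw [← mul_pow]
              congr 1
              ring
          _ ≤ 1 := by
              apply pow_le_one₀
              · have : (1 / (p : ℝ)) ^ 2 ≤ 1 := pow_le_one₀ (by positivity) hi1
                linarith
              · have : 0 ≤ (1 / (p : ℝ)) ^ 2 := by positivity
                linarith
      have h10 : (1 : ℝ) ≤ (1 - 2 * (c : ℝ) / p) * (1 + 4 * c / p) := by
        have e : (1 - 2 * c / (p : ℝ)) * (1 + 4 * c / p) - 1 = (2 * c / p) * (1 - 4 * c / p) := by ring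
        have h11 : 4 * c / (p : ℝ) ≤ 1 := by
          rw [div_le_one hp0']
          linarith
        have h12 : 0 ≤ (2 * c / (p : ℝ)) * (1 - 4 * c / p) := mul_nonneg (by positivity) (by linarith)
        linarith
      have h13 : 0 < 1 + 4 * c / (p : ℝ) := by positivity
      have h14 : (1 - 1 / (p : ℝ)) ^ (4 * c) * (1 + 4 * c / p) ≤ (1 - 2 * (c : ℝ) / p) * (1 + 4 * c / p) := h8.trans h10
      have h15 := le_of_mul_le_mul_right h14 h13
      linarith
  have hκ : 0 < 1 / (p0 : ℝ) := by positivity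
  have hκ1 : 1 / (p0 : ℝ) ≤ 1 := by
    rw [div_le_one (by linarith)]
    exact hp0r
  have h2 : (1 / (p0 : ℝ)) ^ p0 * Vz z ^ (4 * c) ≤ ∏ p ∈ pz z, (1 - loc s Q p) := by
    calc (1 / (p0 : ℝ)) ^ p0 * Vz z ^ (4 * c) ≤
          (∏ p ∈ pz z, (if p ≤ p0 then 1 / (p0 : ℝ) else 1)) * Vz z ^ (4 * c) := by
          apply mul_le_mul_of_nonneg_right _ (by positivity)
          rw [← prod_filter, prod_const]
          apply pow_le_pow_of_le_one hκ.le hκ1
          have hsub : (pz z).filter (fun p : ℕ => p ≤ p0) ⊆ Icc 1 p0 := by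
            intro p hp
            rw [mem_filter, mem_pz] at hp
            rw [mem_Icc]
            exact ⟨hp.1.2.one_le, hp.2⟩
          have := card_le_card hsub
          rwa [Nat.card_Icc, Nat.add_sub_cancel] at this
      _ = ∏ p ∈ pz z, ((if p ≤ p0 then 1 / (p0 : ℝ) else 1) * (1 - 1 / (p : ℝ)) ^ (4 * c)) := by
          unfold Vz
          rw [prod_mul_distrib, prod_pow]
      _ ≤ _ := by
          apply prod_le_prod
          · intro p hp
            have hp2 : (2 : ℝ) ≤ p := by exact_mod_cast (mem_pz.1 hp).2.two_le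
            have h3 : 1 / (p : ℝ) ≤ 1 := by
              rw [div_le_one (by linarith)]
              linarith
            have h4 : 0 ≤ (1 - 1 / (p : ℝ)) ^ (4 * c) := pow_nonneg (by linarith) _
            split_ifs
            · positivity
            · rw [one_mul]
              exact h4
          · exact h1
  unfold St
  have h3 : 1 ≤ (Vz z)⁻¹ := by
    rw [one_le_inv₀ hV]
    exact hV1
  have h4 := (prod_mem s Q z).1
  calc (1 / (p0 : ℝ)) ^ p0 * Vz z ^ (4 * c) ≤ 1 * ∏ p ∈ pz z, (1 - loc s Q p) := by rw [one_mul]; exact h2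
    _ ≤ _ := mul_le_mul_of_nonneg_right h3 h4

/-- the truncated singular series is not small -/
theorem St_ev (c E : ℕ) (η : ℝ) (hη : 0 < η) : ∃ X₀ : ℕ, ∀ X : ℕ, X₀ ≤ X → ∀ z : ℕ, 1 ≤ z → (z : ℝ) ≤ Real.log X ^ E →
    ∀ (s : Bool) (Q : ℕ → ℕ → Prop), PerB Q c → (∀ p ∈ pz z, loc s Q p < 1) → 1 / Real.log X ^ η ≤ St s z Q := by
  obtain ⟨C, N0, hC⟩ := Vz_low
  obtain ⟨κ, hκ⟩ : ∃ κ : ℝ, κ = (1 / ((4 * c + 2 : ℕ) : ℝ)) ^ (4 * c + 2) := ⟨_, rfl⟩
  have hκ0 : 0 < κ := by rw [hκ]; positivity
  obtain ⟨y0, hy0⟩ : ∃ y0 : ℕ, y0 = N0 + 3 := ⟨_, rfl⟩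
  obtain ⟨κ', hκ'⟩ : ∃ κ' : ℝ, κ' = κ * (1 / (y0 : ℝ)) ^ (4 * c) := ⟨_, rfl⟩
  have hy00 : (0 : ℝ) < y0 := by
    rw [hy0]
    positivity
  have hκ'0 : 0 < κ' := by rw [hκ']; positivity
  have hlim : Filter.Tendsto (fun N : ℕ => Real.log (N : ℝ)) Filter.atTop Filter.atTop :=
    Real.tendsto_log_atTop.comp (tendsto_natCast_atTop_atTop (R := ℝ))
  have hev : ∀ᶠ N : ℕ in Filter.atTop, (1 / κ) * (((E : ℝ) + 1) * Real.log (Real.log N)) ^ (C * (4 * c)) ≤ Real.log N ^ η := by
    have h1 : (fun x : ℝ => Real.log x ^ (C * (4 * c))) =o[Filter.atTop] (fun x : ℝ => x ^ η) := by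
      have := isLittleO_log_rpow_rpow_atTop (C * (4 * c) : ℕ) hη
      refine this.congr' ?_ Filter.EventuallyEq.rfl
      filter_upwards with x
      rw [Real.rpow_natCast]
    have h2 := h1.bound (show (0 : ℝ) < κ / ((E : ℝ) + 1) ^ (C * (4 * c)) by positivity)
    have h3 := hlim.eventually h2
    filter_upwards [h3, hlim.eventually_ge_atTop 1] with N h5 h6
    have h7 : 0 ≤ Real.log (Real.log N) := Real.log_nonneg h6
    rw [Real.norm_of_nonneg (by positivity), Real.norm_of_nonneg (by positivity)] at h5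
    calc (1 / κ) * (((E : ℝ) + 1) * Real.log (Real.log N)) ^ (C * (4 * c)) =
          (1 / κ) * ((E : ℝ) + 1) ^ (C * (4 * c)) * Real.log (Real.log N) ^ (C * (4 * c)) := by
          rw [mul_pow]
          ring
      _ ≤ (1 / κ) * ((E : ℝ) + 1) ^ (C * (4 * c)) * (κ / ((E : ℝ) + 1) ^ (C * (4 * c)) * Real.log N ^ η) := by
          apply mul_le_mul_of_nonneg_left h5 (by positivity)
      _ = _ := by
          field_simp
  have hev2 : ∀ᶠ N : ℕ in Filter.atTop, 1 / κ' ≤ Real.log N ^ η := by
    have := (tendsto_rpow_atTop hη).comp hlim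
    exact this.eventually_ge_atTop (1 / κ')
  obtain ⟨n0, h0⟩ := Filter.eventually_atTop.1 (hev.and (hev2.and (hlim.eventually_ge_atTop 3)))
  refine ⟨n0, fun X hX z hz hzE s Q hQ hloc => ?_⟩
  obtain ⟨g1, g2, g3⟩ := h0 X hX
  have h1 := St_low s c Q hQ z hloc
  rw [← hκ] at h1
  have hL0 : 0 < Real.log X := by linarith
  have hLη : 0 < Real.log X ^ η := by positivity
  have hV := Vz_pos z
  refine le_trans ?_ h1
  rcases lt_or_ge z y0 with h2 | h2
  · -- small z
    have h3 : 1 / (y0 : ℝ) ≤ Vz z := by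
      refine le_trans ?_ (Vz_ge z hz)
      exact one_div_le_one_div_of_le (by exact_mod_cast hz) (by exact_mod_cast h2.le)
    calc 1 / Real.log X ^ η ≤ κ' := by
          rw [div_le_iff₀ hLη]
          rw [div_le_iff₀ hκ'0] at g2
          linarith
      _ = κ * (1 / (y0 : ℝ)) ^ (4 * c) := hκ'
      _ ≤ _ := by gcongr
  · have h3 := hC z (by omega)
    have hz3 : (3 : ℝ) ≤ z := by exact_mod_cast (by omega : 3 ≤ z)
    have hlz : 1 ≤ Real.log z := by
      rw [Real.le_log_iff_exp_le (by linarith)]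
      have := Real.exp_one_lt_d9
      linarith
    have hlz2 : Real.log z ≤ ((E : ℝ) + 1) * Real.log (Real.log X) := by
      have e1 : Real.log z ≤ Real.log (Real.log X ^ E) := Real.log_le_log (by linarith) hzE
      rw [Real.log_pow] at e1
      have e2 : 0 ≤ Real.log (Real.log X) := Real.log_nonneg (by linarith)
      nlinarith
    have h4 : 1 / (((E : ℝ) + 1) * Real.log (Real.log X)) ^ C ≤ Vz z := by
      refine le_trans ?_ h3
      apply one_div_le_one_div_of_le (by positivity)
      exact pow_le_pow_left₀ (by linarith) hlz2 C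
    have h5 : 0 < ((E : ℝ) + 1) * Real.log (Real.log X) := by linarith
    calc 1 / Real.log X ^ η ≤ κ * (1 / (((E : ℝ) + 1) * Real.log (Real.log X)) ^ C) ^ (4 * c) := by
          rw [div_pow, one_pow, ← pow_mul, mul_one_div, div_le_div_iff₀ hLη (by positivity), one_mul]
          rw [div_mul_eq_mul_div, one_mul, div_le_iff₀ hκ0] at g1
          linarith
      _ ≤ _ := by gcongr

end Pool.Agent.H561.PG
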