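import Pool.Agent.H561.PG.C5

set_option autoImplicit false

/-! The conditions of a polynomial; the exceptional set at one scale. -/

namespace Pool.Agent.H561.PG

open Finset Polynomial
open Pool.Agent.H373R2.T7

/-- divisibility of the value -/
def QP (F : ℤ[X]) (p n : ℕ) : Prop := (p : ℤ) ∣ gv F n

lemma gv_mod (F : ℤ[X]) (p n : ℕ) : (p : ℤ) ∣ gv F n - gv F (n % p) := by
  unfold gv
  have h1 : ((n : ℤ) - ((n % p : ℕ) : ℤ)) ∣ F.eval (n : ℤ) - F.eval ((n % p : ℕ) : ℤ) := Polynomial.sub_dvd_eval_sub _ _ F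
  refine dvd_trans ?_ h1
  rw [Int.natCast_mod]
  exact Int.dvd_self_sub_emod

lemma QP_per (F : ℤ[X]) (p n : ℕ) : QP F p n ↔ QP F p (n % p) := by
  unfold QP
  have h := gv_mod F p n
  constructor
  · intro h1
    have := dvd_sub h1 h
    rw [sub_sub_cancel] at this
    exact this
  · intro h1
    have := dvd_add h h1
    rw [sub_add_cancel] at this
    exact this

theorem QP_perB (F : ℤ[X]) (r : ℕ) (hdeg : F.natDegree ≤ r) (hlead : F.coeff r ≠ 0) : PerB (QP F) (r + (F.coeff r).natAbs) := by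
  classical
  refine ⟨QP_per F, fun p hp => ?_⟩
  by_cases hd : (p : ℤ) ∣ F.coeff r
  · have h1 : p ≤ (F.coeff r).natAbs := by
      apply Nat.le_of_dvd (Int.natAbs_pos.2 hlead)
      have := Int.natAbs_dvd_natAbs.2 hd
      rwa [Int.natAbs_natCast] at this
    exact (nuB_le _ p).trans (h1.trans (Nat.le_add_left _ _))
  · have : Fact p.Prime := ⟨hp⟩
    obtain ⟨f, hf⟩ : ∃ f, f = F.map (Int.castRingHom (ZMod p)) := ⟨_, rfl⟩
    have hfc : f.coeff r ≠ 0 := by
      rw [hf, coeff_map, eq_intCast]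
      intro h
      exact hd ((ZMod.intCast_zmod_eq_zero_iff_dvd _ _).1 h)
    have hf0 : f ≠ 0 := by
      intro h
      rw [h, coeff_zero] at hfc
      exact hfc rfl
    have h1 : nuB (QP F) p ≤ f.roots.toFinset.card := by
      unfold nuB
      apply card_le_card_of_injOn (fun t : ℕ => (t : ZMod p))
      · intro t ht
        have ht' := mem_filter.1 (mem_coe.1 ht)
        rw [mem_coe, Multiset.mem_toFinset, mem_roots hf0, IsRoot, hf]
        have h2 : (QP F) p t := ht'.2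
        unfold QP gv at h2
        rw [← ZMod.intCast_zmod_eq_zero_iff_dvd] at h2
        have h3 := Polynomial.eval_intCast_map (Int.castRingHom (ZMod p)) F (t : ℤ)
        rw [eq_intCast] at h3
        simp only [Int.cast_natCast] at h3
        rw [h3]
        exact h2
      · intro t ht t' ht' htt
        have h2 := mem_range.1 (mem_filter.1 (mem_coe.1 ht)).1
        have h3 := mem_range.1 (mem_filter.1 (mem_coe.1 ht')).1
        have h4 := congrArg ZMod.val htt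
        simp only at h4
        rwa [ZMod.val_natCast_of_lt h2, ZMod.val_natCast_of_lt h3] at h4
    calc nuB (QP F) p ≤ f.roots.toFinset.card := h1
      _ ≤ Multiset.card f.roots := Multiset.toFinset_card_le _
      _ ≤ f.natDegree := card_roots' f
      _ ≤ F.natDegree := by rw [hf]; exact natDegree_map_le
      _ ≤ r := hdeg
      _ ≤ _ := Nat.le_add_right _ _

variable {k : ℕ}

open Classical in
/-- **The exceptional set at one scale.** -/
theorem exc_ofT (s : Bool) (V A c : ℕ) : ∃ X₀ : ℕ, ∀ X : ℕ, X₀ ≤ X → ∀ (ι : Type) (Ω : Finset ι) (f : ι → Fin k → ℕ → ℤ) (S : ι → ℝ)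
    (M : ι → ℕ → ℝ) (Y : ℝ) (P : ℕ), 0 ≤ Y → Real.log X ^ (V + c + 4) ≤ P → (∀ ω ∈ Ω, 0 ≤ S ω ∧ S ω ≤ Real.log X ^ c) →
    (∀ ω ∈ Ω, ∀ y ≤ P, |M ω y - S ω * y| ≤ P / Real.log X ^ (V + 1)) →
    (∀ y ≤ P, ∑ ω ∈ Ω, (RT s (f ω) y - M ω y) ^ 2 ≤ Y * (P : ℝ) ^ 2 / Real.log X ^ (A + 3 * V + c + 9)) →
    ((Ω.filter (fun ω => ∃ y : ℕ, y ≤ P ∧ (P : ℝ) / Real.log X ^ V < |RT s (f ω) y - S ω * y|)).card : ℝ) ≤ Y / Real.log X ^ A := by
  obtain ⟨n1, h1⟩ := ev_L' 100
  refine ⟨n1 + 3, fun X hX ι Ω f S M Y P hY hP hS hM hQ => ?_⟩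
  have hL := h1 X (by omega)
  obtain ⟨L, hLd⟩ : ∃ L, L = Real.log (X : ℝ) := ⟨_, rfl⟩
  rw [← hLd] at hL hP hS hM hQ ⊢
  have hL1 : 1 ≤ L := by linarith
  have hL0 : 0 < L := by linarith
  have hP0 : (0 : ℝ) < P := lt_of_lt_of_le (by positivity) hP
  obtain ⟨T, hT⟩ : ∃ T, T = ⌈L ^ (V + c + 2)⌉₊ := ⟨_, rfl⟩
  have hT1 : L ^ (V + c + 2) ≤ T := by rw [hT]; exact Nat.le_ceil _
  have hT3 : (1 : ℝ) ≤ L ^ (V + c + 2) := one_le_pow₀ hL1
  have hT2 : (T : ℝ) ≤ 2 * L ^ (V + c + 2) := by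
    have e1 := (Nat.ceil_lt_add_one (show 0 ≤ L ^ (V + c + 2) by positivity)).le
    rw [← hT] at e1
    linarith
  have hT0 : (0 : ℝ) < T := by linarith
  have hTn : 1 ≤ T := by exact_mod_cast hT0
  have hκ : (0 : ℝ) < P / L ^ (V + 1) := by positivity
  have hg := GN.grid_exc Ω P T hTn (fun ω y => RT s (f ω) y) M S (P / L ^ (V + 1)) (P / L ^ (V + 1)) (L ^ c)
    (Y * (P : ℝ) ^ 2 / L ^ (A + 3 * V + c + 9)) hκ (fun ω _ y y' h => RT_mono s (f ω) y y' h) hS hM hQ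
  have hsub : Ω.filter (fun ω => ∃ y : ℕ, y ≤ P ∧ (P : ℝ) / L ^ V < |RT s (f ω) y - S ω * y|) ⊆
      Ω.filter (fun ω => ∃ y : ℕ, y ≤ P ∧ P / L ^ (V + 1) + P / L ^ (V + 1) + L ^ c * ((P : ℝ) / T + 1) < |RT s (f ω) y - S ω * y|) := by
    intro ω hω
    rw [mem_filter] at hω ⊢
    obtain ⟨h1, y, hy, hyb⟩ := hω
    refine ⟨h1, y, hy, lt_of_le_of_lt ?_ hyb⟩
    have e1 : L ^ c * ((P : ℝ) / T) ≤ P / L ^ (V + 1) := by
      calc L ^ c * ((P : ℝ) / T) ≤ L ^ c * ((P : ℝ) / L ^ (V + c + 2)) := by gcongr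
        _ = P / L ^ (V + 2) := by
            rw [show V + c + 2 = (V + 2) + c by ring, pow_add L (V + 2) c]
            field_simp
        _ ≤ P / L ^ (V + 1) := by
            apply div_le_div_of_nonneg_left hP0.le (by positivity)
            exact pow_le_pow_right₀ hL1 (by omega)
    have e2 : L ^ c * 1 ≤ P / L ^ (V + 1) := by
      rw [mul_one, le_div_iff₀ (by positivity), ← pow_add]
      refine le_trans ?_ hP
      exact pow_le_pow_right₀ hL1 (by omega)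
    have e3 : (P : ℝ) / L ^ V = L * (P / L ^ (V + 1)) := by
      rw [pow_succ]
      field_simp
    rw [e3, mul_add]
    nlinarith
  have hcard : ((Ω.filter (fun ω => ∃ y : ℕ, y ≤ P ∧ (P : ℝ) / L ^ V < |RT s (f ω) y - S ω * y|)).card : ℝ) ≤
      ((T : ℝ) + 1) * ((Y * (P : ℝ) ^ 2 / L ^ (A + 3 * V + c + 9)) / (P / L ^ (V + 1)) ^ 2) := by
    refine le_trans ?_ hg
    exact_mod_cast card_le_card hsub
  refine hcard.trans ?_
  calc ((T : ℝ) + 1) * ((Y * (P : ℝ) ^ 2 / L ^ (A + 3 * V + c + 9)) / (P / L ^ (V + 1)) ^ 2)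
      ≤ (3 * L ^ (V + c + 2)) * ((Y * (P : ℝ) ^ 2 / L ^ (A + 3 * V + c + 9)) / (P / L ^ (V + 1)) ^ 2) := by
        apply mul_le_mul_of_nonneg_right _ (by positivity)
        linarith
    _ = (3 / L ^ 5) * (Y / L ^ A) := by
        field_simp
        ring
    _ ≤ 1 * (Y / L ^ A) := by
        apply mul_le_mul_of_nonneg_right _ (by positivity)
        rw [div_le_one (by positivity)]
        have : L ≤ L ^ 5 := le_self_pow₀ hL1 (by norm_num)
        linarith
    _ = _ := one_mul _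

end Pool.Agent.H561.PG
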