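import Pool.Agent.H561.PG.C6

set_option autoImplicit false

/-! All windows, for almost all `N`, for the forms `N + G(n)` and `N - G(n)`. -/

namespace Pool.Agent.H561.PG

open Finset Polynomial
open Pool.Agent.H373R2.T7
open Pool.Agent.W93.GB
open Pool.Agent.H561.GN (BP)
open Pool.Agent.helper24_UT (Ed)

/-- the polynomial `N ± G` -/
noncomputable def GF (σ : ℤ) (G : ℤ[X]) (N : ℕ) : ℤ[X] := C (N : ℤ) + C σ * G

lemma gv_GF (σ : ℤ) (G : ℤ[X]) (N n : ℕ) : gv (GF σ G N) n = N + σ * gv G n := by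
  unfold gv GF
  rw [eval_add, eval_C, eval_mul, eval_C]

/-- the system -/
noncomputable def fG (σ : ℤ) (G : ℤ[X]) (N : ℕ) : Fin 1 → ℕ → ℤ := fun _ n => gv (GF σ G N) n

lemma GF_perB (σ : ℤ) (hσ : σ = 1 ∨ σ = -1) (G : ℤ[X]) (r : ℕ) (hr : 1 ≤ r) (hdeg : G.natDegree ≤ r) (hlead : 0 < G.coeff r)
    (N : ℕ) : PerB (QP (GF σ G N)) (r + (G.coeff r).natAbs) := by
  have h1 : (GF σ G N).coeff r = σ * G.coeff r := by
    unfold GF
    rw [coeff_add, coeff_C_mul, coeff_C, if_neg (by omega), zero_add]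
  have h2 : (GF σ G N).natDegree ≤ r := by
    unfold GF
    refine (natDegree_add_le _ _).trans ?_
    rw [natDegree_C]
    refine max_le (Nat.zero_le _) ((natDegree_C_mul_le _ _).trans hdeg)
  have h3 : (GF σ G N).coeff r ≠ 0 := by
    rw [h1]
    rcases hσ with h | h
    · rw [h]
      omega
    · rw [h]
      omega
  have h4 := QP_perB (GF σ G N) r h2 h3
  have h5 : ((GF σ G N).coeff r).natAbs = (G.coeff r).natAbs := by
    rw [h1]
    rcases hσ with h | h
    · rw [h, one_mul]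
    · rw [h, neg_one_mul, Int.natAbs_neg]
  rwa [h5] at h4

open Classical in
/-- the number of `N` with many prime powers among the values -/
lemma pp_exc (σ : ℤ) (hσ : σ = 1 ∨ σ = -1) (G : ℤ[X]) (X P : ℕ) (hP : 1 ≤ P) (hX : 1 ≤ X) (Ω : Finset ℕ)
    (hΩ : ∀ N ∈ Ω, ∀ n ∈ Icc 1 P, 1 ≤ gv (GF σ G N) n ∧ gv (GF σ G N) n ≤ 2 * X) (κ : ℝ) (hκ : 0 < κ) :
    ((Ω.filter (fun N => κ < ((BP (fG σ G N) P).card : ℝ))).card : ℝ) ≤ P * (4 * √((2 * X : ℕ) : ℝ) * Real.log (2 * X : ℕ)) / κ := by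
  rw [le_div_iff₀ hκ]
  have h1 : ((Ω.filter (fun N => κ < ((BP (fG σ G N) P).card : ℝ))).card : ℝ) * κ ≤
      ∑ N ∈ Ω, ((BP (fG σ G N) P).card : ℝ) := by
    rw [← nsmul_eq_mul]
    refine le_trans (card_nsmul_le_sum _ (fun N => ((BP (fG σ G N) P).card : ℝ)) _ ?_) ?_
    · intro N hN
      exact (mem_filter.1 hN).2.le
    · apply sum_le_sum_of_subset_of_nonneg (filter_subset _ _)
      intro N _ _
      positivity
  refine h1.trans ?_
  have h2 : ∀ N : ℕ, ((BP (fG σ G N) P).card : ℝ) = ∑ n ∈ Icc 1 P, (if lamI (gv (GF σ G N) n) ≠ lamP (gv (GF σ G N) n) then (1 : ℝ) else 0) := by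
    intro N
    unfold BP
    rw [card_filter]
    push_cast
    apply sum_congr rfl
    intro n _
    have : (∃ i : Fin 1, lamI (fG σ G N i n) ≠ lamP (fG σ G N i n)) ↔ lamI (gv (GF σ G N) n) ≠ lamP (gv (GF σ G N) n) := by
      constructor
      · rintro ⟨i, hi⟩
        exact hi
      · intro h
        exact ⟨0, h⟩
    by_cases hc : lamI (gv (GF σ G N) n) ≠ lamP (gv (GF σ G N) n)
    · rw [if_pos hc, if_pos (this.2 hc)]
    · rw [if_neg hc, if_neg (fun h => hc (this.1 h))]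
  rw [sum_congr rfl fun N _ => h2 N, sum_comm]
  have h3 : ∀ n ∈ Icc 1 P, ∑ N ∈ Ω, (if lamI (gv (GF σ G N) n) ≠ lamP (gv (GF σ G N) n) then (1 : ℝ) else 0) ≤
      4 * √((2 * X : ℕ) : ℝ) * Real.log (2 * X : ℕ) := by
    intro n hn
    rw [← sum_filter, sum_const, nsmul_eq_mul, mul_one]
    refine le_trans ?_ (GN.card_pp (2 * X) (by omega))
    have : (Ω.filter (fun N => lamI (gv (GF σ G N) n) ≠ lamP (gv (GF σ G N) n))).card ≤
        ((Icc 1 (2 * X)).filter (fun b : ℕ => lamI (b : ℤ) ≠ lamP (b : ℤ))).card := by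
      apply card_le_card_of_injOn (fun N => (gv (GF σ G N) n).toNat)
      · intro N hN
        have hN' := mem_filter.1 (mem_coe.1 hN)
        obtain ⟨g1, g2⟩ := hΩ N hN'.1 n hn
        have e : (((gv (GF σ G N) n).toNat : ℕ) : ℤ) = gv (GF σ G N) n := Int.toNat_of_nonneg (by omega)
        rw [mem_coe, mem_filter, mem_Icc]
        beta_reduce
        refine ⟨⟨by omega, by omega⟩, ?_⟩
        rw [e]
        exact hN'.2
      · intro N hN N' hN' h
        have g1 := (hΩ N (mem_filter.1 (mem_coe.1 hN)).1 n hn).1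
        have g2 := (hΩ N' (mem_filter.1 (mem_coe.1 hN')).1 n hn).1
        simp only at h
        rw [gv_GF] at g1 g2 h
        rw [gv_GF] at h
        omega
    exact_mod_cast this
  refine (sum_le_sum h3).trans (le_of_eq ?_)
  rw [sum_const, nsmul_eq_mul, Nat.card_Icc, Nat.add_sub_cancel]

open Classical in
/-- **All windows, for almost all `N`.** -/
theorem famP (s : Bool) (G : ℤ[X]) (r : ℕ) (hr : 1 ≤ r) (hdeg : G.natDegree ≤ r) (hlead : 0 < G.coeff r)
    (hpos : ∀ t : ℕ, 1 ≤ t → 1 ≤ gv G t) (W A : ℕ) (hW : 1 ≤ W) (δ ε : ℝ) (hδ : 0 < δ) (hδ1 : δ ≤ 1 / 8) (hε : 0 < ε) (hε1 : ε ≤ 1) :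
    ∃ E₀ D : ℕ, 1 ≤ D ∧ ∀ E₁ : ℕ, ∃ X₀ : ℕ, ∀ X : ℕ, X₀ ≤ X → ∀ z : ℕ, Real.log X ^ E₀ ≤ z → (z : ℝ) ≤ Real.log X ^ E₁ →
    ∀ σ : ℤ, (σ = 1 ∨ σ = -1) →
    (((Icc 1 X).filter (fun N : ℕ => (X : ℝ) / Real.log X ≤ N ∧ (∀ p ∈ pz z, loc s (QP (GF σ G N)) p < 1) ∧
      ¬ GdT s r X D W (1 / (4 * r) + δ) ε (fG σ G N) (St s z (QP (GF σ G N))))).card : ℝ) ≤ X / Real.log X ^ A := by
  obtain ⟨cG, hcG, hval⟩ := val_le G r hdeg
  obtain ⟨θ, hθd⟩ : ∃ θ : ℝ, θ = 1 / (4 * r) + δ := ⟨_, rfl⟩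
  have hr0 : (1 : ℝ) ≤ r := by exact_mod_cast hr
  have hθ : 0 < θ := by rw [hθd]; positivity
  have hθ1 : θ ≤ 1 := by
    rw [hθd]
    have : 1 / (4 * (r : ℝ)) ≤ 1 / 4 := one_div_le_one_div_of_le (by norm_num) (by linarith)
    linarith
  obtain ⟨e, hed⟩ : ∃ e : ℕ, e = ⌈4 / δ⌉₊ + 5 := ⟨_, rfl⟩
  have he5 : 5 ≤ e := by omega
  have he4 : 4 / (e : ℝ) ≤ δ := by
    have h1 : 4 / δ ≤ e := by
      refine (Nat.le_ceil _).trans ?_
      rw [hed]
      push_cast
      linarith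
    have h2 : (0 : ℝ) < e := by exact_mod_cast (by omega : 0 < e)
    rw [div_le_iff₀ hδ] at h1
    rw [div_le_iff₀ h2]
    linarith
  obtain ⟨V, hV⟩ : ∃ V, V = W + 1 + 6 := ⟨_, rfl⟩
  obtain ⟨E₀, D0, hD0, hms⟩ := ms_poly s G r hr hdeg hlead hpos e ((A + 2) + 3 * V + 1 + 9) he5
  obtain ⟨D, hD⟩ : ∃ D, D = D0 + 2 := ⟨_, rfl⟩
  refine ⟨E₀, D, by omega, fun E₁ => ?_⟩
  obtain ⟨n1, h1⟩ := hms E₁
  obtain ⟨n2, h2⟩ := fam_ofT s r 1 W A D hr θ ε hθ hθ1 hε hε1
  obtain ⟨n3, h3⟩ := exc_ofT (k := 1) s V (A + 2) 1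
  obtain ⟨c, hc⟩ : ∃ c, c = r + (G.coeff r).natAbs := ⟨_, rfl⟩
  obtain ⟨n4, h4⟩ := mainQ s c E₁ (V + 1) (by omega) θ hθ
  obtain ⟨n5, h5⟩ := Vz_inv_small E₁
  obtain ⟨n6, h6⟩ := St_ev c E₁ 1 one_pos
  obtain ⟨n7, h7⟩ := ev_L' (2 * cG + 10)
  obtain ⟨n8, h8⟩ := Filter.eventually_atTop.1 (Pool.Agent.helper24_UT.Sil2.ev_pow (V + 1 + 4) θ 1 hθ)
  obtain ⟨n9, h9⟩ := Filter.eventually_atTop.1 (Pool.Agent.helper24_UT.Sil2.ev_pow (W + 1 + 7 + A + 2 + 1) (1 / 2) 12 (by norm_num))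
  refine ⟨n1 + n2 + n3 + n4 + n5 + n6 + n7 + n8 + n9 + 3, fun X hX z hz1 hz2 σ hσ => ?_⟩
  have k1 := h1 X (by omega) z hz1 hz2
  have k2 := h2 X (by omega)
  have k3 := h3 X (by omega)
  have k7 := h7 X (by omega)
  have k8 := h8 X (by omega)
  have k9 := h9 X (by omega)
  have hX1 : (1 : ℝ) ≤ X := by exact_mod_cast (by omega : 1 ≤ X)
  have hX0 : (0 : ℝ) < X := by linarith
  have hcG0 : (1 : ℝ) ≤ cG := by exact_mod_cast hcG
  have hL0 : 0 < Real.log X := by linarith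
  have hz1' : 1 ≤ z := by
    have : (0 : ℝ) < z := lt_of_lt_of_le (by positivity) hz1
    exact_mod_cast this
  have k4 := h4 X (by omega) z hz1' hz2
  have k5 := h5 X (by omega) z hz1' hz2
  have k6 := h6 X (by omega) z hz1' hz2
  have hlog2 : Real.log (2 * X : ℕ) ≤ 2 * Real.log X := by
    push_cast
    rw [Real.log_mul (by norm_num) hX0.ne']
    have := Real.log_two_lt_d9
    linarith
  rw [← hθd]
  obtain ⟨L, hLd⟩ : ∃ L, L = Real.log (X : ℝ) := ⟨_, rfl⟩
  rw [← hLd] at hz1 hz2 k1 k3 k4 k5 k6 k7 k8 k9 hL0 hlog2 ⊢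
  have hL1 : 1 ≤ L := by linarith
  rw [Real.rpow_one] at k6
  -- the size of the values
  have hsize : ∀ N : ℕ, N ∈ Icc 1 X → X / L ≤ N → ∀ n : ℕ, 1 ≤ n → (n : ℝ) ^ r * L ^ D ≤ X →
      X / (2 * L) ≤ (gv (GF σ G N) n : ℝ) ∧ (gv (GF σ G N) n : ℝ) ≤ 2 * X := by
    intro N hN hNL n hn hnD
    rw [mem_Icc] at hN
    have hNX : (N : ℝ) ≤ X := by exact_mod_cast hN.2
    have e1 : |(gv G n : ℝ)| ≤ X / (2 * L) := by
      have e2 : |(gv G n : ℝ)| ≤ cG * (n : ℝ) ^ r := by exact_mod_cast hval n hn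
      refine e2.trans ?_
      rw [le_div_iff₀ (by positivity)]
      calc (cG : ℝ) * (n : ℝ) ^ r * (2 * L) = (n : ℝ) ^ r * ((2 * cG) * L) := by ring
        _ ≤ (n : ℝ) ^ r * (L * L) := by
            apply mul_le_mul_of_nonneg_left _ (by positivity)
            apply mul_le_mul_of_nonneg_right _ hL0.le
            linarith
        _ = (n : ℝ) ^ r * L ^ 2 := by ring
        _ ≤ (n : ℝ) ^ r * L ^ D := by
            apply mul_le_mul_of_nonneg_left _ (by positivity)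
            exact pow_le_pow_right₀ hL1 (by omega)
        _ ≤ X := hnD
    have e3 : (gv (GF σ G N) n : ℝ) = N + σ * gv G n := by
      rw [gv_GF]
      push_cast
      ring
    have e4 : X / L = 2 * (X / (2 * L)) := by
      field_simp
    have e5 : |(σ : ℝ) * gv G n| ≤ X / (2 * L) := by
      rcases hσ with h | h
      · rw [h]
        simpa using e1
      · rw [h]
        simpa using e1
    have e6 : X / (2 * L) ≤ X := by
      apply div_le_self hX0.le
      linarith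
    rw [abs_le] at e5
    rw [e3]
    constructor
    · linarith [e5.1]
    · linarith [e5.2]
  have hXL0 : (0 : ℝ) < X / (2 * L) := by positivity
  obtain ⟨Ω, hΩ⟩ : ∃ Ω : Finset ℕ, Ω = (Icc 1 X).filter (fun N : ℕ => (X : ℝ) / L ≤ N ∧ (∀ p ∈ pz z, loc s (QP (GF σ G N)) p < 1)) := ⟨_, rfl⟩
  have hΩm : ∀ N ∈ Ω, N ∈ Icc 1 X ∧ (X : ℝ) / L ≤ N ∧ (∀ p ∈ pz z, loc s (QP (GF σ G N)) p < 1) := by
    intro N hN
    rw [hΩ, mem_filter] at hN
    exact hN
  have hper : ∀ N, PerB (QP (GF σ G N)) c := fun N => by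
    rw [hc]
    exact GF_perB σ hσ G r hr hdeg hlead N
  have hfin := k2 ℕ Ω (fG σ G) (fun N => St s z (QP (GF σ G N))) X hX0.le
  rw [← hLd] at hfin
  have hgoal := hfin ?_ ?_ ?_
  · refine le_trans (le_of_eq ?_) hgoal
    rw [hΩ, filter_filter]
    congr 2
    apply filter_congr
    intro N _
    tauto
  · intro N hN
    obtain ⟨_, _, g3⟩ := hΩm N hN
    exact k6 s _ (hper N) g3
  · intro N hN i n hn hnD
    obtain ⟨g1, g2, g3⟩ := hΩm N hN
    obtain ⟨e1, e2⟩ := hsize N g1 g2 n hn hnD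
    unfold fG
    constructor
    · refine le_trans ?_ e1
      apply div_le_div_of_nonneg_left hX0.le (by positivity)
      nlinarith
    · refine e2.trans ?_
      rw [mul_comm]
      apply mul_le_mul_of_nonneg_left _ hX0.le
      have : L ≤ L ^ W := le_self_pow₀ hL1 (by omega)
      linarith
  · intro j hj1 hj2
    obtain ⟨P, hP⟩ : ∃ P : ℕ, P = 2 ^ j := ⟨_, rfl⟩
    rw [← hP] at hj1 hj2 ⊢
    have hP1 : (1 : ℝ) ≤ P := le_trans (Real.one_le_rpow hX1 hθ.le) hj1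
    have hP1n : 1 ≤ P := by exact_mod_cast hP1
    have hPr : (P : ℝ) ^ r * L ^ D0 ≤ X := by
      refine le_trans ?_ hj2
      apply mul_le_mul_of_nonneg_left _ (by positivity)
      exact pow_le_pow_right₀ hL1 (by omega)
    have hPX : P ≤ X := by
      have : (P : ℝ) ≤ X := by
        refine (le_self_pow₀ hP1 (by omega : r ≠ 0)).trans (le_trans ?_ hPr)
        exact le_mul_of_one_le_right (by positivity) (one_le_pow₀ hL1)
      exact_mod_cast this
    have hPe : (X : ℝ) ^ (1 / 4 + 4 / e : ℝ) ≤ (P : ℝ) ^ r := by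
      calc (X : ℝ) ^ (1 / 4 + 4 / e : ℝ) ≤ (X : ℝ) ^ (θ * r) := by
            apply Real.rpow_le_rpow_of_exponent_le hX1
            rw [hθd]
            have e1 : (1 / (4 * (r : ℝ)) + δ) * r = 1 / 4 + δ * r := by field_simp
            rw [e1]
            have : δ * 1 ≤ δ * r := mul_le_mul_of_nonneg_left hr0 hδ.le
            linarith
        _ = ((X : ℝ) ^ θ) ^ r := by rw [Real.rpow_mul hX0.le, Real.rpow_natCast]
        _ ≤ _ := pow_le_pow_left₀ (by positivity) hj1 r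
    have hvalP : ∀ N ∈ Ω, ∀ n ∈ Icc 1 P, X / (2 * L) ≤ (gv (GF σ G N) n : ℝ) ∧ (gv (GF σ G N) n : ℝ) ≤ 2 * X := by
      intro N hN n hn
      rw [mem_Icc] at hn
      obtain ⟨g1, g2, _⟩ := hΩm N hN
      apply hsize N g1 g2 n hn.1
      refine le_trans ?_ hj2
      apply mul_le_mul_of_nonneg_right _ (by positivity)
      apply pow_le_pow_left₀ (Nat.cast_nonneg _)
      exact_mod_cast hn.2
    have hvalP' : ∀ N ∈ Ω, ∀ n ∈ Icc 1 P, 1 ≤ gv (GF σ G N) n ∧ gv (GF σ G N) n ≤ 2 * X := by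
      intro N hN n hn
      obtain ⟨g1, g2⟩ := hvalP N hN n hn
      constructor
      · have : (0 : ℝ) < (gv (GF σ G N) n : ℝ) := lt_of_lt_of_le hXL0 g1
        have : (0 : ℤ) < gv (GF σ G N) n := by exact_mod_cast this
        omega
      · exact_mod_cast g2
    constructor
    · have hVe : W + 1 + 6 = V := by omega
      rw [hVe]
      refine k3 ℕ Ω (fG σ G) (fun N => St s z (QP (GF σ G N)))
        (fun N y => ∑ n ∈ Icc 1 y, wt s n * lamzI z (gv (GF σ G N) n)) X P hX0.le ?_ ?_ ?_ ?_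
      · rw [one_mul] at k8
        exact k8.trans hj1
      · intro N _
        obtain ⟨g1, g2⟩ := St_mem s (QP (GF σ G N)) z
        rw [pow_one]
        exact ⟨g1, g2.trans k5⟩
      · intro N hN y hy
        apply k4 P hj1 hPX y hy (QP (GF σ G N)) (hper N)
        · intro n hn
          rw [mem_Icc] at hn
          exact (hvalP' N hN n (mem_Icc.2 ⟨hn.1, hn.2.trans hy⟩)).1
        · intro n _ p _
          exact Iff.rfl
      · intro y hy
        obtain ⟨m1, m2⟩ := k1 P hPe hPr y hy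
        have e1 : ∀ N ∈ Ω, (RT s (fG σ G N) y - ∑ n ∈ Icc 1 y, wt s n * lamzI z (gv (GF σ G N) n)) ^ 2 =
            (∑ n ∈ Icc 1 y, wt s n * Ed z ((N : ℤ) + σ * gv G n)) ^ 2 := by
          intro N _
          congr 1
          unfold RT
          rw [← sum_sub_distrib]
          apply sum_congr rfl
          intro n _
          rw [Fin.prod_univ_one]
          unfold fG Ed
          rw [gv_GF]
          ring
        rw [sum_congr rfl e1]
        rcases hσ with h | h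
        · have e2 : ∀ N ∈ Icc 1 X, (∑ n ∈ Icc 1 y, wt s n * Ed z ((N : ℤ) + σ * gv G n)) ^ 2 =
              (∑ n ∈ Icc 1 y, wt s n * Ed z ((N : ℤ) + gv G n)) ^ 2 := by
            intro N _
            rw [h]
            simp only [one_mul]
          refine le_trans ?_ m2
          rw [← sum_congr rfl e2]
          apply sum_le_sum_of_subset_of_nonneg
          · rw [hΩ]
            exact filter_subset _ _
          · intro N _ _
            positivity
        · have e2 : ∀ N ∈ Icc 1 (2 * X), (∑ n ∈ Icc 1 y, wt s n * Ed z ((N : ℤ) + σ * gv G n)) ^ 2 =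
              (∑ n ∈ Icc 1 y, wt s n * Ed z ((N : ℤ) - gv G n)) ^ 2 := by
            intro N _
            rw [h]
            congr 1
            apply sum_congr rfl
            intro n _
            congr 2
            ring
          refine le_trans ?_ m1
          rw [← sum_congr rfl e2]
          apply sum_le_sum_of_subset_of_nonneg
          · rw [hΩ]
            refine (filter_subset _ _).trans ?_
            exact Icc_subset_Icc_right (by omega)
          · intro N _ _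
            positivity
    · have hκ : (0 : ℝ) < P / L ^ (W + 1 + 7) := by positivity
      have e0 := pp_exc σ hσ G X P hP1n (by omega) Ω hvalP' (P / L ^ (W + 1 + 7)) hκ
      refine e0.trans ?_
      have e1 : (P : ℝ) * (4 * √((2 * X : ℕ) : ℝ) * Real.log (2 * X : ℕ)) / (P / L ^ (W + 1 + 7)) =
          (4 * √((2 * X : ℕ) : ℝ) * Real.log (2 * X : ℕ)) * L ^ (W + 1 + 7) := by
        have : (P : ℝ) ≠ 0 := by linarith
        field_simp
      rw [e1, le_div_iff₀ (by positivity)]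
      have e2 : √((2 * X : ℕ) : ℝ) ≤ 3 / 2 * √(X : ℝ) := by
        apply Real.sqrt_le_iff.2
        refine ⟨by positivity, ?_⟩
        rw [mul_pow, Real.sq_sqrt hX0.le]
        push_cast
        linarith
      have e3 : √(X : ℝ) * √(X : ℝ) = X := Real.mul_self_sqrt hX0.le
      have e4 : 12 * L ^ (W + 1 + 7 + A + 2 + 1) ≤ √(X : ℝ) := by
        rw [Real.sqrt_eq_rpow]
        exact k9
      have hs0 : 0 ≤ √(X : ℝ) := Real.sqrt_nonneg _
      calc 4 * √((2 * X : ℕ) : ℝ) * Real.log (2 * X : ℕ) * L ^ (W + 1 + 7) * L ^ (A + 2)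
          ≤ 4 * (3 / 2 * √(X : ℝ)) * (2 * L) * L ^ (W + 1 + 7) * L ^ (A + 2) := by gcongr
        _ = (12 * L ^ (W + 1 + 7 + A + 2 + 1)) * √(X : ℝ) := by
            rw [show W + 1 + 7 + A + 2 + 1 = (W + 1 + 7) + (A + 2) + 1 by ring, pow_succ L ((W + 1 + 7) + (A + 2)),
              pow_add L (W + 1 + 7) (A + 2)]
            ring
        _ ≤ √(X : ℝ) * √(X : ℝ) := mul_le_mul_of_nonneg_right e4 hs0
        _ = X := e3

end Pool.Agent.H561.PG
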