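import Pool.Agent.H561.CM.A4
import Pool.Agent.H561.Q4.Ch4

set_option autoImplicit false

/-! The circle method in mean square for arbitrary weights whose exponential sum is small away from fractions with small
denominators: sums and differences, windows of length `H ≥ X^{1/4+ε}`. -/

namespace Pool.Agent.H561.PG

open Finset
open Pool.Agent.H561.CM
open Pool.Agent.H807R2.Dav (ee norm_ee ee_add ee_int ee_zero ee_eq)
open Pool.Agent.H373R2.T7 (lamI lamzI lamz Vz pz mem_pz ev_log' ev_L' lamz_nonneg Vz_pos Vz_inv_small)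
open Pool.Agent.helper24_UT (NN Ed)

/-- the weights have a small exponential sum away from fractions with denominators at most `V` -/
def Maj (P H V : ℕ) (b : ℤ → ℝ) (F δ : ℝ) : Prop :=
  (∀ α : ℝ, ‖ht (Ioc 0 (P : ℤ)) (fun n => (b n : ℂ)) α‖ ≤ F) ∧
  ∀ α : ℝ, ‖ht (Ioc 0 (P : ℤ)) (fun n => (b n : ℂ)) α‖ ≤ δ ∨ ∃ q ∈ Icc 1 V, ∃ c : ℤ, |α - (c : ℝ) / q| * (6 * H) ≤ 1

lemma Maj.range {P H V : ℕ} {b : ℤ → ℝ} {F δ : ℝ} (h : Maj P H V b F δ) (hVH : V < 6 * H) (α : ℝ) (h0 : 0 ≤ α) (h1 : α < 1) :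
    ‖ht (Ioc 0 (P : ℤ)) (fun n => (b n : ℂ)) α‖ ≤ δ ∨
      ∃ q ∈ Icc 1 V, ∃ c ∈ range (q + 1), |α - (c : ℝ) / q| * (6 * H) ≤ 1 := by
  rcases h.2 α with h2 | ⟨q, hq, c, hc⟩
  · exact Or.inl h2
  · right
    rw [mem_Icc] at hq
    have hq0 : (0 : ℝ) < q := by exact_mod_cast hq.1
    have hH0 : (0 : ℝ) < 6 * H := by exact_mod_cast (by omega : 0 < 6 * H)
    have hqH : (q : ℝ) < 6 * H := by
      have : q < 6 * H := lt_of_le_of_lt hq.2 hVH
      exact_mod_cast this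
    have h3 : |α * q - c| < 1 := by
      have e2 : α * q - c = (α - (c : ℝ) / q) * q := by
        field_simp
      rw [e2, abs_mul, abs_of_pos hq0]
      have e4 : |α - (c : ℝ) / q| ≤ 1 / (6 * H) := by
        rw [le_div_iff₀ hH0]
        exact hc
      calc |α - (c : ℝ) / q| * q ≤ 1 / (6 * H) * q := mul_le_mul_of_nonneg_right e4 hq0.le
        _ < 1 / (6 * H) * (6 * H) := mul_lt_mul_of_pos_left hqH (by positivity)
        _ = 1 := by rw [one_div, inv_mul_cancel₀ hH0.ne']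
    rw [abs_lt] at h3
    have hc0 : 0 ≤ c := by
      have : (-1 : ℝ) < c := by
        have : 0 ≤ α * q := by positivity
        linarith
      have : (-1 : ℤ) < c := by exact_mod_cast this
      omega
    have hcq : c ≤ q := by
      have h5 : α * q < q := by nlinarith
      have h6 : (c : ℝ) < q + 1 := by linarith
      have : c < (q : ℤ) + 1 := by exact_mod_cast h6
      omega
    refine ⟨q, mem_Icc.2 hq, c.toNat, ?_, ?_⟩
    · rw [mem_range]
      omega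
    · have hcc : ((c.toNat : ℕ) : ℝ) = (c : ℝ) := by
        have : ((c.toNat : ℕ) : ℤ) = c := Int.toNat_of_nonneg hc0
        exact_mod_cast this
      rw [hcc]
      exact hc

/-- reflection -/
lemma Maj.refl {P H V : ℕ} {b : ℤ → ℝ} {F δ : ℝ} (h : Maj P H V b F δ) :
    Maj P H V (fun j => b ((P : ℤ) + 1 - j)) F δ := by
  have key : ∀ α : ℝ, ‖ht (Ioc 0 (P : ℤ)) (fun n => ((b ((P : ℤ) + 1 - n) : ℝ) : ℂ)) α‖ =
      ‖ht (Ioc 0 (P : ℤ)) (fun n => (b n : ℂ)) (-α)‖ := by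
    intro α
    have e1 : ht (Ioc 0 (P : ℤ)) (fun n => ((b ((P : ℤ) + 1 - n) : ℝ) : ℂ)) α =
        ee ((((P : ℤ) + 1 : ℤ) : ℝ) * α) * ht (Ioc 0 (P : ℤ)) (fun n => (b n : ℂ)) (-α) := by
      unfold ht
      rw [mul_sum]
      apply sum_nbij' (fun n : ℤ => (P : ℤ) + 1 - n) (fun n : ℤ => (P : ℤ) + 1 - n)
      · intro n hn; rw [mem_Ioc] at hn ⊢; omega
      · intro n hn; rw [mem_Ioc] at hn ⊢; omega
      · intro n _; ring
      · intro n _; ring
      · intro n _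
        have : ((n : ℤ) : ℝ) * α = (((P : ℤ) + 1 : ℤ) : ℝ) * α + (((P : ℤ) + 1 - n : ℤ) : ℝ) * (-α) := by
          push_cast
          ring
        rw [this, ee_add]
        ring
    rw [e1, norm_mul, norm_ee, one_mul]
  refine ⟨fun α => ?_, fun α => ?_⟩
  · rw [key]
    exact h.1 _
  · rw [key]
    rcases h.2 (-α) with h2 | ⟨q, hq, c, hc⟩
    · exact Or.inl h2
    · right
      refine ⟨q, hq, -c, ?_⟩
      have : α - ((-c : ℤ) : ℝ) / q = -(-α - (c : ℝ) / q) := by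
        push_cast
        ring
      rw [this, abs_neg]
      exact hc

/-- **The mean square.** -/
theorem gen_ms (e A K : ℕ) (he : 5 ≤ e) : ∃ D : ℕ, ∀ E₁ : ℕ, ∃ X₀ : ℕ, ∀ X : ℕ, X₀ ≤ X → ∀ z : ℕ,
    Real.log X ^ (K + 2) ≤ z → (z : ℝ) ≤ Real.log X ^ E₁ → ∀ P H V : ℕ, (X : ℝ) ^ (1 / 4 + 3 / e : ℝ) ≤ H →
    H * Real.log X ^ D ≤ X → H ≤ P → P ≤ X → 1 ≤ V → (V : ℝ) ≤ Real.log X ^ K → ∀ (b : ℤ → ℝ) (F δ : ℝ), 0 ≤ δ →
    Maj P H V b F δ →
    ∑ N ∈ Icc 1 (2 * X), (∑ j ∈ Ioc 0 (P : ℤ), b j * Ed z ((N : ℤ) - j)) ^ 2 ≤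
      X * (δ ^ 2 * Real.log X ^ 3 + F ^ 2 / Real.log X ^ A) ∧
    ∑ N ∈ Icc 1 X, (∑ j ∈ Ioc 0 (P : ℤ), b j * Ed z ((N : ℤ) + j)) ^ 2 ≤
      X * (δ ^ 2 * Real.log X ^ 3 + F ^ 2 / Real.log X ^ A) := by
  classical
  obtain ⟨A', hA'⟩ : ∃ A', A' = A + 3 * K + 1 := ⟨_, rfl⟩
  refine ⟨A' + 3, fun E₁ => ?_⟩
  have he0 : (0 : ℝ) < e := by
    have : 0 < e := by omega
    exact_mod_cast this
  obtain ⟨X1, hSI⟩ := Pool.Agent.H561.Q4.t_SI4 e A' (K + 1) he E₁
  obtain ⟨X2, hV2⟩ := Vz_inv_small E₁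
  obtain ⟨X3, h3⟩ := ev_L' (256 + 2 ^ (K + 1))
  obtain ⟨X5, h5⟩ := Filter.eventually_atTop.1 (Pool.Agent.helper24_UT.Sil2.ev_pow 0 (1 / e) 2 (by positivity))
  obtain ⟨X6, h6⟩ := Filter.eventually_atTop.1 (Pool.Agent.helper24_UT.Sil2.ev_pow K (1 / 4) 1 (by norm_num))
  refine ⟨X1 + X2 + X3 + X5 + X6 + 16, fun X hX z hz1 hz2 P H V hH1 hH2 hHP hPX hV1 hVK b F δ hδ hM => ?_⟩
  have hL := h3 X (by omega)
  have c5 := h5 X (by omega)
  have c6 := h6 X (by omega)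
  rw [pow_zero, mul_one] at c5
  rw [one_mul] at c6
  have hX16 : (16 : ℝ) ≤ X := by exact_mod_cast (by omega : 16 ≤ X)
  have hX0 : (0 : ℝ) < X := by linarith
  have hp2 : (0 : ℝ) < 2 ^ (K + 1) := by positivity
  have hVz := hV2 X (by omega) z (by
    have : (0 : ℝ) < z := by
      refine lt_of_lt_of_le ?_ hz1
      have : 0 < Real.log X := by linarith
      positivity
    exact_mod_cast this) (hz2)
  obtain ⟨L, hLd⟩ : ∃ L, L = Real.log (X : ℝ) := ⟨_, rfl⟩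
  obtain ⟨L2, hL2d⟩ : ∃ L2, L2 = Real.log ((2 * X : ℕ) : ℝ) := ⟨_, rfl⟩
  have hLL1 : L ≤ L2 := by
    rw [hLd, hL2d]
    apply Real.log_le_log (by linarith)
    push_cast
    linarith
  have hLL2 : L2 ≤ 2 * L := by
    rw [hLd, hL2d]
    push_cast
    rw [Real.log_mul (by norm_num) (by linarith)]
    have : Real.log 2 ≤ Real.log X := Real.log_le_log (by norm_num) (by linarith)
    linarith
  have hLpos : 0 < L := by
    rw [hLd]
    linarith
  have hSI2 := hSI (2 * X) (by omega) z (by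
    rw [← hL2d]
    rw [← hLd] at hz1 hL
    calc L2 ^ (K + 1) ≤ (2 * L) ^ (K + 1) := pow_le_pow_left₀ (by linarith) hLL2 _
      _ = 2 ^ (K + 1) * L ^ (K + 1) := mul_pow _ _ _
      _ ≤ L * L ^ (K + 1) := mul_le_mul_of_nonneg_right (by linarith) (by positivity)
      _ = L ^ (K + 2) := by ring
      _ ≤ z := hz1) (by
    rw [← hL2d]
    rw [← hLd] at hz2
    exact hz2.trans (pow_le_pow_left₀ hLpos.le hLL1 _))
  have hws := fun H q (hHX : H ≤ 2 * X) (hV' : (Vz z)⁻¹ ≤ Real.log ((2 * X : ℕ) : ℝ)) (hX' : 0 ≤ Real.log ((2 * X : ℕ) : ℝ)) =>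
    win_sum (2 * X) H q z hHX hV' hX'
  rw [← hLd] at hL c6 hVz hz1 hz2 hH2 hVK ⊢
  rw [← hL2d] at hSI2 hws
  have hL1 : 1 ≤ L := by linarith
  have hL0 : 0 < L := by linarith
  have hX1 : (1 : ℝ) ≤ X := by linarith
  have hXe : (0 : ℝ) < (X : ℝ) ^ (1 / e : ℝ) := by positivity
  have hPe2 : (X : ℝ) ^ (1 / 4 + 2 / e : ℝ) * (X : ℝ) ^ (1 / e : ℝ) = (X : ℝ) ^ (1 / 4 + 3 / e : ℝ) := by
    rw [← Real.rpow_add hX0]
    congr 1
    ring
  have hHr1 : (1 : ℝ) ≤ H := by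
    refine le_trans ?_ hH1
    exact Real.one_le_rpow hX1 (by positivity)
  have hH0 : (0 : ℝ) < H := by linarith
  have hHpos : 1 ≤ H := by exact_mod_cast hHr1
  have hHX : H ≤ X := hHP.trans hPX
  have hVH : V < 6 * H := by
    have : (V : ℝ) < 6 * H := by
      calc (V : ℝ) ≤ L ^ K := hVK
        _ ≤ (X : ℝ) ^ (1 / 4 : ℝ) := c6
        _ ≤ (X : ℝ) ^ (1 / 4 + 3 / e : ℝ) := Real.rpow_le_rpow_of_exponent_le hX1 (by
            have : (0 : ℝ) ≤ 3 / e := by positivity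
            linarith)
        _ ≤ H := hH1
        _ < 6 * H := by linarith
    exact_mod_cast this
  have hWd : ((2 * X : ℕ) : ℝ) ^ (1 / 4 + 2 / e : ℝ) ≤ H := by
    push_cast
    rw [Real.mul_rpow (by norm_num) hX0.le]
    have e0 : (2 : ℝ) ^ (1 / 4 + 2 / e : ℝ) ≤ 2 := by
      calc (2 : ℝ) ^ (1 / 4 + 2 / e : ℝ) ≤ (2 : ℝ) ^ (1 : ℝ) := by
            apply Real.rpow_le_rpow_of_exponent_le (by norm_num)
            have : (5 : ℝ) ≤ e := by exact_mod_cast he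
            have : 2 / (e : ℝ) ≤ 2 / 5 := div_le_div_of_nonneg_left (by norm_num) (by norm_num) this
            linarith
        _ = 2 := Real.rpow_one 2
    calc (2 : ℝ) ^ (1 / 4 + 2 / e : ℝ) * (X : ℝ) ^ (1 / 4 + 2 / e : ℝ) ≤
          (X : ℝ) ^ (1 / e : ℝ) * (X : ℝ) ^ (1 / 4 + 2 / e : ℝ) := mul_le_mul_of_nonneg_right (e0.trans c5) (by positivity)
      _ = (X : ℝ) ^ (1 / 4 + 3 / e : ℝ) := by rw [mul_comm, hPe2]
      _ ≤ H := hH1
  have hDb : ∀ q ∈ Icc 1 V, ∑ t ∈ Icc (0 : ℤ) ((2 * X : ℕ) + H), NN (aa z (2 * X)) (t - H) H q ≤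
      4 * (X * (H : ℝ) ^ 2 / L ^ A') := by
    intro q hq
    rw [mem_Icc] at hq
    have hqV : (q : ℝ) ≤ L2 ^ (K + 1) := by
      have : (q : ℝ) ≤ V := by exact_mod_cast hq.2
      calc (q : ℝ) ≤ L ^ K := this.trans hVK
        _ ≤ L ^ (K + 1) := pow_le_pow_right₀ hL1 (by omega)
        _ ≤ L2 ^ (K + 1) := pow_le_pow_left₀ hL0.le hLL1 _
    refine (hws H q (by omega) (hVz.trans hLL1) (hL0.le.trans hLL1)).trans ?_
    have e1 := hSI2 q hq.1 hqV H hWd (by omega)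
    have e1' : ((2 * X : ℕ) : ℝ) * (H : ℝ) ^ 2 / L2 ^ A' ≤ 2 * (X * (H : ℝ) ^ 2 / L ^ A') := by
      push_cast
      calc 2 * (X : ℝ) * H ^ 2 / L2 ^ A' ≤ 2 * X * H ^ 2 / L ^ A' := by
            apply div_le_div_of_nonneg_left (by positivity) (by positivity)
            exact pow_le_pow_left₀ hL0.le hLL1 _
        _ = _ := by ring
    have hL20 : 0 ≤ L2 := hL0.le.trans hLL1
    have e2 : (2 * (H : ℝ) + 1) * (H * (2 * L2)) ^ 2 ≤ X * (H : ℝ) ^ 2 / L ^ A' := by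
      rw [le_div_iff₀ (by positivity)]
      calc (2 * (H : ℝ) + 1) * (H * (2 * L2)) ^ 2 * L ^ A' ≤ (3 * H) * (H * (2 * (2 * L))) ^ 2 * L ^ A' := by
            gcongr
            linarith
        _ = 48 * (H * (L ^ 2 * L ^ A')) * H ^ 2 := by ring
        _ ≤ L * (H * (L ^ 2 * L ^ A')) * H ^ 2 := by
            have : (48 : ℝ) ≤ L := by linarith
            gcongr
        _ = (H * L ^ (A' + 3)) * H ^ 2 := by ring
        _ ≤ X * H ^ 2 := by gcongr
    have e3 : 0 ≤ X * (H : ℝ) ^ 2 / L ^ A' := by positivity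
    linarith
  -- the second term
  have hterm : ∀ S2 : ℝ, S2 ≤ 2 * X * (4 * L) ^ 2 →
      δ ^ 2 * S2 + F ^ 2 * (4 / (H : ℝ) ^ 2 * ((V : ℝ) * V * (V + 1)) * (4 * (X * (H : ℝ) ^ 2 / L ^ A'))) ≤
      X * (δ ^ 2 * L ^ 3 + F ^ 2 / L ^ A) := by
    intro S2 hS2
    have t1 : δ ^ 2 * S2 ≤ X * (δ ^ 2 * L ^ 3) := by
      calc δ ^ 2 * S2 ≤ δ ^ 2 * (2 * X * (4 * L) ^ 2) := mul_le_mul_of_nonneg_left hS2 (sq_nonneg _)
        _ = X * (δ ^ 2 * (32 * L ^ 2)) := by ring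
        _ ≤ X * (δ ^ 2 * (L * L ^ 2)) := by
            have : (32 : ℝ) ≤ L := by linarith
            gcongr
        _ = X * (δ ^ 2 * L ^ 3) := by ring
    have hV3 : (V : ℝ) * V * (V + 1) ≤ 2 * L ^ (3 * K) := by
      have hV1r : (1 : ℝ) ≤ V := by exact_mod_cast hV1
      calc (V : ℝ) * V * (V + 1) ≤ V * V * (V + V) := by gcongr
        _ = 2 * (V : ℝ) ^ 3 := by ring
        _ ≤ 2 * (L ^ K) ^ 3 := by gcongr
        _ = 2 * L ^ (3 * K) := by rw [← pow_mul, mul_comm K 3]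
    have t2 : F ^ 2 * (4 / (H : ℝ) ^ 2 * ((V : ℝ) * V * (V + 1)) * (4 * (X * (H : ℝ) ^ 2 / L ^ A'))) ≤
        X * (F ^ 2 / L ^ A) := by
      calc F ^ 2 * (4 / (H : ℝ) ^ 2 * ((V : ℝ) * V * (V + 1)) * (4 * (X * (H : ℝ) ^ 2 / L ^ A')))
          ≤ F ^ 2 * (4 / (H : ℝ) ^ 2 * (2 * L ^ (3 * K)) * (4 * (X * (H : ℝ) ^ 2 / L ^ A'))) := by gcongr
        _ = X * (F ^ 2 / L ^ A) * (32 / L) := by
            rw [hA']
            field_simp
            ring
        _ ≤ X * (F ^ 2 / L ^ A) * 1 := by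
            apply mul_le_mul_of_nonneg_left _ (by positivity)
            rw [div_le_one hL0]
            linarith
        _ = _ := mul_one _
    linarith
  have hsum2 : ∑ n ∈ Ioc 0 ((2 * X : ℕ) : ℤ), aa z (2 * X) n ^ 2 ≤ 2 * X * (4 * L) ^ 2 := by
    have e1 : ∀ n ∈ Ioc 0 ((2 * X : ℕ) : ℤ), aa z (2 * X) n ^ 2 ≤ (4 * L) ^ 2 := by
      intro n _
      rw [← sq_abs]
      apply pow_le_pow_left₀ (abs_nonneg _)
      have := aa_bound (2 * X) z n (by rw [← hL2d]; exact hVz.trans hLL1) (by rw [← hL2d]; exact hL0.le.trans hLL1)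
      rw [← hL2d] at this
      linarith
    refine (sum_le_card_nsmul _ _ _ e1).trans (le_of_eq ?_)
    rw [Int.card_Ioc, nsmul_eq_mul, sub_zero, Int.toNat_natCast]
    push_cast
    ring
  constructor
  · have hmain := circ (2 * X) P H V hHpos hHP b (aa z (2 * X)) (aa_supp z (2 * X)) δ F
      (4 * (X * (H : ℝ) ^ 2 / L ^ A')) hM.1 (fun α h0 h1 => hM.range hVH α h0 h1) hDb
    refine le_trans ?_ (hmain.trans (hterm _ hsum2))
    have e1 : ∑ N ∈ Icc 1 (2 * X), (∑ j ∈ Ioc 0 (P : ℤ), b j * Ed z ((N : ℤ) - j)) ^ 2 =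
        ∑ t ∈ Icc (1 : ℤ) ((2 * X : ℕ) : ℤ), (∑ j ∈ Ioc 0 (P : ℤ), b j * aa z (2 * X) (t - j)) ^ 2 := by
      apply sum_nbij' (fun N : ℕ => (N : ℤ)) (fun t : ℤ => t.toNat)
      · intro N hN; rw [mem_Icc] at hN ⊢; push_cast; omega
      · intro t ht; rw [mem_Icc] at ht ⊢; push_cast at ht; omega
      · intro N _; simp
      · intro t ht; rw [mem_Icc] at ht; exact Int.toNat_of_nonneg (by omega)
      · intro N hN
        rw [mem_Icc] at hN
        congr 1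
        apply sum_congr rfl
        intro j hj
        rw [mem_Ioc] at hj
        unfold aa
        rw [if_pos (by push_cast; omega)]
    rw [e1]
    apply sum_le_sum_of_subset_of_nonneg
    · intro t ht
      rw [mem_Icc] at ht ⊢
      push_cast at ht ⊢
      omega
    · intro t _ _
      positivity
  · have hR := hM.refl
    have hmain := circ (2 * X) P H V hHpos hHP (fun j => b ((P : ℤ) + 1 - j)) (aa z (2 * X)) (aa_supp z (2 * X)) δ F
      (4 * (X * (H : ℝ) ^ 2 / L ^ A')) hR.1 (fun α h0 h1 => hR.range hVH α h0 h1) hDb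
    refine le_trans ?_ (hmain.trans (hterm _ hsum2))
    have e1 : ∑ N ∈ Icc 1 X, (∑ j ∈ Ioc 0 (P : ℤ), b j * Ed z ((N : ℤ) + j)) ^ 2 =
        ∑ t ∈ Icc ((P : ℤ) + 2) (X + P + 1), (∑ j ∈ Ioc 0 (P : ℤ), b ((P : ℤ) + 1 - j) * aa z (2 * X) (t - j)) ^ 2 := by
      apply sum_nbij' (fun N : ℕ => (N : ℤ) + P + 1) (fun t : ℤ => (t - P - 1).toNat)
      · intro N hN; rw [mem_Icc] at hN ⊢; omega
      · intro t ht; rw [mem_Icc] at ht ⊢; omega
      · intro N _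
        have : (N : ℤ) + P + 1 - P - 1 = N := by ring
        simp only [this, Int.toNat_natCast]
      · intro t ht
        rw [mem_Icc] at ht
        have : ((t - P - 1).toNat : ℤ) = t - P - 1 := Int.toNat_of_nonneg (by omega)
        simp only [this]
        ring
      · intro N hN
        rw [mem_Icc] at hN
        congr 1
        apply sum_nbij' (fun j : ℤ => (P : ℤ) + 1 - j) (fun j : ℤ => (P : ℤ) + 1 - j)
        · intro j hj; rw [mem_Ioc] at hj ⊢; omega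
        · intro j hj; rw [mem_Ioc] at hj ⊢; omega
        · intro j _; ring
        · intro j _; ring
        · intro j hj
          rw [mem_Ioc] at hj
          have e2 : (P : ℤ) + 1 - ((P : ℤ) + 1 - j) = j := by ring
          have e3 : (N : ℤ) + P + 1 - ((P : ℤ) + 1 - j) = N + j := by ring
          rw [e2, e3]
          unfold aa
          rw [if_pos (by push_cast; omega)]
    rw [e1]
    apply sum_le_sum_of_subset_of_nonneg
    · intro t ht
      rw [mem_Icc] at ht ⊢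
      push_cast
      omega
    · intro t _ _
      positivity

end Pool.Agent.H561.PG
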