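import Pool.Agent.H561.PG.P1
import Pool.Graph.R_pool_sql_team_ae5b0c61.H49.FD2

set_option autoImplicit false

/-! Weights supported on the values of a polynomial. -/

namespace Pool.Agent.H561.PG

open Finset
open Pool.Agent.H561.CM
open Pool.Agent.H807R2.Dav (ee norm_ee ee_add ee_int ee_zero ee_eq)
open Pool.Agent.H49.FD (Dg nr weyl vin)

/-- the push forward of weights -/
noncomputable def psh (g : ℕ → ℤ) (w : ℕ → ℝ) (y : ℕ) (j : ℤ) : ℝ := ∑ t ∈ Icc 1 y, if g t = j then w t else 0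

lemma psh_gen {R : Type*} [CommRing R] (c : ℝ →+* R) (g : ℕ → ℤ) (w : ℕ → ℝ) (y P : ℕ) (F : ℤ → R)
    (h : ∀ t ∈ Icc 1 y, 1 ≤ g t ∧ g t ≤ P) :
    ∑ j ∈ Ioc 0 (P : ℤ), c (psh g w y j) * F j = ∑ t ∈ Icc 1 y, c (w t) * F (g t) := by
  unfold psh
  simp only [map_sum, sum_mul]
  rw [sum_comm]
  apply sum_congr rfl
  intro t ht
  rw [sum_eq_single (g t)]
  · rw [if_pos rfl]
  · intro j _ hj
    rw [if_neg (Ne.symm hj), map_zero, zero_mul]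
  · intro hn
    exfalso
    apply hn
    rw [mem_Ioc]
    have := h t ht
    omega

lemma psh_real (g : ℕ → ℤ) (w : ℕ → ℝ) (y P : ℕ) (F : ℤ → ℝ) (h : ∀ t ∈ Icc 1 y, 1 ≤ g t ∧ g t ≤ P) :
    ∑ j ∈ Ioc 0 (P : ℤ), psh g w y j * F j = ∑ t ∈ Icc 1 y, w t * F (g t) :=
  psh_gen (RingHom.id ℝ) g w y P F h

lemma psh_ht (g : ℕ → ℤ) (w : ℕ → ℝ) (y P : ℕ) (h : ∀ t ∈ Icc 1 y, 1 ≤ g t ∧ g t ≤ P) (α : ℝ) :
    ht (Ioc 0 (P : ℤ)) (fun n => (psh g w y n : ℂ)) α = ∑ t ∈ Icc 1 y, (w t : ℂ) * ee ((g t : ℝ) * α) := by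
  unfold ht
  exact psh_gen Complex.ofRealHom g w y P (fun j => ee ((j : ℝ) * α)) h

end Pool.Agent.H561.PG
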