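import Pool.Agent.H561.PG.P2

set_option autoImplicit false

/-! The two alternatives for polynomial exponential sums over the integers and over the primes. -/

namespace Pool.Agent.H561.PG

open Finset Polynomial
open Pool.Agent.H561.CM
open Pool.Agent.H807R2.Dav (ee norm_ee ee_add ee_int ee_zero ee_eq)
open Pool.Agent.H49.FD (Dg nr weyl vin)
open Pool.Agent.H373R2.T7 (ev_log' ev_L')

lemma e_eq (x : ℝ) : Pool.Agent.H49.MD.e x = ee x := by
  rw [Pool.Agent.H807R2.Dav.ee_eq']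
  rfl

/-- the value as a function of the argument -/
noncomputable def gv (G : ℤ[X]) (t : ℕ) : ℤ := G.eval (t : ℤ)

lemma sum_shift {R : Type*} [AddCommMonoid R] (f : ℕ → R) (y : ℕ) : ∑ t ∈ Icc 1 y, f t = ∑ n ∈ range y, f (n + 1) := by
  apply sum_nbij' (fun t => t - 1) (fun n => n + 1)
  · intro t ht; rw [mem_Icc] at ht; rw [mem_range]; omega
  · intro n hn; rw [mem_range] at hn; rw [mem_Icc]; omega
  · intro t ht; rw [mem_Icc] at ht; omega
  · intro n _; omega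
  · intro t ht
    rw [mem_Icc] at ht
    congr 1
    omega

lemma poly_Dg (G : ℤ[X]) (k : ℕ) (hdeg : G.natDegree ≤ k) (α : ℝ) :
    Dg k ((k.factorial : ℝ) * (α * (G.coeff k : ℝ))) (fun n => α * ((gv G n : ℤ) : ℝ)) := by
  have h := Dg.poly k (C α * G.map (Int.castRingHom ℝ)) (by
    refine (natDegree_C_mul_le _ _).trans ?_
    exact (natDegree_map_le).trans hdeg)
  have e1 : (C α * G.map (Int.castRingHom ℝ)).coeff k = α * (G.coeff k : ℝ) := by
    rw [coeff_C_mul, coeff_map]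
    rfl
  rw [e1] at h
  convert h using 2 with n
  rw [eval_mul, eval_C]
  congr 1
  unfold gv
  have := Polynomial.eval_intCast_map (Int.castRingHom ℝ) G (n : ℤ)
  simp only [Int.cast_natCast] at this
  rw [this]
  rfl

lemma poly_Dg1 (G : ℤ[X]) (k : ℕ) (hdeg : G.natDegree ≤ k) (α : ℝ) :
    Dg k ((k.factorial : ℝ) * (α * (G.coeff k : ℝ))) (fun n => α * ((gv G (n + 1) : ℤ) : ℝ)) := by
  have h := Dg.comp 1 1 (poly_Dg G k hdeg α)
  rw [Nat.cast_one, one_pow, one_mul] at h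
  simpa only [one_mul] using h

/-- a good approximation of a multiple -/
lemma appr {G : ℤ[X]} {k : ℕ} (hlead : 0 < G.coeff k) {α : ℝ} {q : ℕ} (hq : 0 < q) {B : ℝ}
    (h : nr ((q : ℝ) * ((k.factorial : ℝ) * (α * (G.coeff k : ℝ)))) ≤ B) :
    ∃ c : ℤ, |α - (c : ℝ) / ((q * (k.factorial * (G.coeff k).toNat) : ℕ) : ℝ)| ≤ B := by
  obtain ⟨a, ha⟩ : ∃ a : ℕ, a = (G.coeff k).toNat := ⟨_, rfl⟩
  have ha1 : ((a : ℕ) : ℤ) = G.coeff k := by rw [ha]; exact Int.toNat_of_nonneg hlead.le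
  have ha2 : (G.coeff k : ℝ) = a := by exact_mod_cast ha1.symm
  have ha0 : 0 < a := by omega
  rw [← ha]
  rw [ha2] at h
  obtain ⟨c, hc⟩ : ∃ c, c = round ((q : ℝ) * ((k.factorial : ℝ) * (α * (a : ℝ)))) := ⟨_, rfl⟩
  refine ⟨c, ?_⟩
  unfold nr at h
  rw [← hc] at h
  have hQ : 1 ≤ q * (k.factorial * a) := Nat.mul_pos hq (Nat.mul_pos (Nat.factorial_pos k) ha0)
  have hQ1 : (1 : ℝ) ≤ ((q * (k.factorial * a) : ℕ) : ℝ) := by exact_mod_cast hQ
  have hQ0 : (0 : ℝ) < ((q * (k.factorial * a) : ℕ) : ℝ) := by linarith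
  have e1 : α - (c : ℝ) / ((q * (k.factorial * a) : ℕ) : ℝ) =
      ((q : ℝ) * ((k.factorial : ℝ) * (α * (a : ℝ))) - c) / ((q * (k.factorial * a) : ℕ) : ℝ) := by
    rw [sub_div]
    congr 1
    rw [eq_div_iff hQ0.ne']
    push_cast
    ring
  rw [e1, abs_div, abs_of_pos hQ0]
  exact (div_le_self (abs_nonneg _) hQ1).trans h

/-- **Integers.** -/
theorem maj_int (G : ℤ[X]) (k : ℕ) (hk : 1 ≤ k) (hdeg : G.natDegree ≤ k) (hlead : 0 < G.coeff k) (A₁ : ℕ) (hA₁ : 1 ≤ A₁)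
    (θ : ℝ) (hθ : 0 < θ) : ∃ K X₀ : ℕ, ∀ X : ℕ, X₀ ≤ X → ∀ M : ℕ, (X : ℝ) ^ θ ≤ M → M ≤ X → ∀ y : ℕ, y ≤ M → ∀ P : ℕ,
    (∀ t ∈ Icc 1 y, 1 ≤ gv G t ∧ gv G t ≤ P) → ∀ H : ℕ, (H : ℝ) * Real.log X ^ K ≤ (M : ℝ) ^ k →
    Maj P H ⌊Real.log X ^ K⌋₊ (psh (gv G) (fun _ => 1) y) M (M / Real.log X ^ A₁) := by
  obtain ⟨d, rfl⟩ : ∃ d, k = d + 1 := ⟨k - 1, by omega⟩
  obtain ⟨C, hC⟩ := weyl d
  obtain ⟨a, ha⟩ : ∃ a : ℕ, a = (G.coeff (d + 1)).toNat := ⟨_, rfl⟩
  obtain ⟨n1, h1⟩ := ev_L' (6 * ((d + 1).factorial * a) + 6)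
  obtain ⟨n2, h2⟩ := Filter.eventually_atTop.1 (Pool.Agent.helper24_UT.Sil2.ev_pow (A₁ * C) θ 1 hθ)
  refine ⟨A₁ * C + 1, n1 + n2 + 1, fun X hX M hM1 hM2 y hy P hP H hH => ?_⟩
  have hL := h1 X (by omega)
  have a2 := h2 X (by omega)
  rw [one_mul] at a2
  obtain ⟨L, hLd⟩ : ∃ L, L = Real.log (X : ℝ) := ⟨_, rfl⟩
  rw [← hLd] at hL a2 hH ⊢
  have hfa : (0 : ℝ) ≤ (d + 1).factorial * a := by positivity
  have hL6 : 6 ≤ L := by linarith
  have hL1 : 1 ≤ L := by linarith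
  have hL0 : 0 < L := by linarith
  have hy0 : (y : ℝ) ≤ M := by exact_mod_cast hy
  have hgb : ∀ α : ℝ, ht (Ioc 0 (P : ℤ)) (fun n => (psh (gv G) (fun _ => 1) y n : ℂ)) α =
      ∑ n ∈ range y, Pool.Agent.H49.MD.e (α * ((gv G (n + 1) : ℤ) : ℝ)) := by
    intro α
    rw [psh_ht (gv G) (fun _ => 1) y P hP α]
    rw [sum_shift]
    apply sum_congr rfl
    intro n _
    rw [e_eq, Complex.ofReal_one, one_mul, mul_comm]
  constructor
  · intro α
    rw [hgb]
    refine (norm_sum_le _ _).trans ?_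
    have : ∀ n ∈ range y, ‖Pool.Agent.H49.MD.e (α * ((gv G (n + 1) : ℤ) : ℝ))‖ ≤ 1 := by
      intro n _
      rw [e_eq, norm_ee]
    refine (sum_le_card_nsmul _ _ _ this).trans ?_
    rw [card_range, nsmul_eq_mul, mul_one]
    exact hy0
  · intro α
    rw [hgb]
    by_cases hbig : (M : ℝ) / L ^ A₁ ≤ ‖∑ n ∈ range y, Pool.Agent.H49.MD.e (α * ((gv G (n + 1) : ℤ) : ℝ))‖
    · right
      have hD2 : (2 : ℝ) ≤ L ^ A₁ := by
        calc (2 : ℝ) ≤ L := by linarith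
          _ ≤ L ^ A₁ := le_self_pow₀ hL1 (by omega)
      have hDM : (L ^ A₁) ^ C ≤ M := by
        rw [← pow_mul]
        exact a2.trans hM1
      obtain ⟨q, hq0, hq1, hq2⟩ := hC (L ^ A₁) hD2 M y hDM hy _ _ (poly_Dg1 G (d + 1) hdeg α) hbig
      obtain ⟨c, hc⟩ := appr hlead hq0 hq2
      rw [← ha] at hc
      refine ⟨q * ((d + 1).factorial * a), ?_, c, ?_⟩
      · rw [mem_Icc]
        constructor
        · have : 0 < a := by
            rw [ha]
            exact Int.lt_toNat.2 (by simpa using hlead)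
          have := Nat.mul_pos hq0 (Nat.mul_pos (Nat.factorial_pos (d + 1)) this)
          omega
        · apply Nat.le_floor
          push_cast
          calc (q : ℝ) * ((d + 1).factorial * a) ≤ (L ^ A₁) ^ C * L := by
                apply mul_le_mul hq1 _ hfa (by positivity)
                linarith
            _ = L ^ (A₁ * C + 1) := by rw [← pow_mul, pow_succ]
      · have hM0 : (0 : ℝ) < (M : ℝ) ^ (d + 1) := by
          have : (0 : ℝ) < M := lt_of_lt_of_le (by positivity) hDM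
          positivity
        calc |α - (c : ℝ) / ((q * ((d + 1).factorial * a) : ℕ) : ℝ)| * (6 * H) ≤ (L ^ A₁) ^ C / (M : ℝ) ^ (d + 1) * (6 * H) :=
              mul_le_mul_of_nonneg_right hc (by positivity)
          _ = (H * (6 * (L ^ A₁) ^ C)) / (M : ℝ) ^ (d + 1) := by ring
          _ ≤ (H * L ^ (A₁ * C + 1)) / (M : ℝ) ^ (d + 1) := by
              apply div_le_div_of_nonneg_right _ hM0.le
              apply mul_le_mul_of_nonneg_left _ (Nat.cast_nonneg _)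
              rw [← pow_mul, pow_succ, mul_comm]
              exact mul_le_mul_of_nonneg_left hL6 (by positivity)
          _ ≤ 1 := by
              rw [div_le_one hM0]
              exact hH
    · left
      exact (not_le.1 hbig).le

end Pool.Agent.H561.PG
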