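import Pool.Agent.H561.PG.P3

set_option autoImplicit false

/-! The two alternatives for polynomial exponential sums over the primes. -/

namespace Pool.Agent.H561.PG

open Finset Polynomial
open Pool.Agent.H561.CM
open Pool.Agent.H807R2.Dav (ee norm_ee ee_add ee_int ee_zero ee_eq)
open Pool.Agent.H49.FD (Dg nr weyl vin)
open Pool.Agent.H373R2.T7 (ev_log' ev_L')

/-- **Primes.** -/
theorem maj_prime (G : ℤ[X]) (k : ℕ) (hk : 1 ≤ k) (hdeg : G.natDegree ≤ k) (hlead : 0 < G.coeff k) (A₁ : ℕ)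
    (θ : ℝ) (hθ : 0 < θ) : ∃ K X₀ : ℕ, ∀ X : ℕ, X₀ ≤ X → ∀ M : ℕ, (X : ℝ) ^ θ ≤ M → M ≤ X → ∀ y : ℕ, y ≤ M → ∀ P : ℕ,
    (∀ t ∈ Icc 1 y, 1 ≤ gv G t ∧ gv G t ≤ P) → ∀ H : ℕ, (H : ℝ) * Real.log X ^ K ≤ (M : ℝ) ^ k →
    Maj P H ⌊Real.log X ^ K⌋₊ (psh (gv G) (fun n => ArithmeticFunction.vonMangoldt n) y) (M * Real.log X)
      (M / Real.log X ^ A₁) := by
  obtain ⟨d, rfl⟩ : ∃ d, k = d + 1 := ⟨k - 1, by omega⟩
  obtain ⟨E, hE⟩ := vin d
  obtain ⟨a, ha⟩ : ∃ a : ℕ, a = (G.coeff (d + 1)).toNat := ⟨_, rfl⟩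
  obtain ⟨A₂, hA₂⟩ : ∃ A₂, A₂ = 2 * A₁ + 8 := ⟨_, rfl⟩
  obtain ⟨R₀, hR₀⟩ : ∃ R₀, R₀ = A₂ * E + 1 := ⟨_, rfl⟩
  obtain ⟨Z₀, hZ₀⟩ : ∃ Z₀, Z₀ = R₀ + (2 * R₀ + 1) * (d + 1) + 1 := ⟨_, rfl⟩
  obtain ⟨K, hK⟩ : ∃ K, K = Z₀ + (A₁ + 1) * (d + 1) + 1 := ⟨_, rfl⟩
  obtain ⟨n1, h1⟩ := ev_L' (6 * ((d + 1).factorial * a) + (d + 1).factorial + 100)
  obtain ⟨n2, h2⟩ := Filter.eventually_atTop.1 (Pool.Agent.helper24_UT.Sil2.ev_pow (3 * R₀ + 2 * A₁ + 3) θ 1 hθ)
  refine ⟨K, n1 + n2 + 3, fun X hX M hM1 hM2 y hy P hP H hH => ?_⟩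
  have hL := h1 X (by omega)
  have a2 := h2 X (by omega)
  rw [one_mul] at a2
  have hX3 : (3 : ℝ) ≤ X := by exact_mod_cast (by omega : 3 ≤ X)
  have hvm : ∀ n ∈ Icc 1 y, (ArithmeticFunction.vonMangoldt n : ℝ) ≤ Real.log X := by
    intro n hn
    rw [mem_Icc] at hn
    refine ArithmeticFunction.vonMangoldt_le_log.trans ?_
    exact Real.log_le_log (by exact_mod_cast hn.1) (by exact_mod_cast (hn.2.trans hy).trans hM2)
  have hlogy : Real.log (y : ℝ) ≤ Real.log X := by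
    rcases Nat.eq_zero_or_pos y with h0 | h0
    · rw [h0, Nat.cast_zero, Real.log_zero]
      exact Real.log_nonneg (by linarith)
    · exact Real.log_le_log (by exact_mod_cast h0) (by exact_mod_cast hy.trans hM2)
  obtain ⟨L, hLd⟩ : ∃ L, L = Real.log (X : ℝ) := ⟨_, rfl⟩
  rw [← hLd] at hL a2 hH hvm hlogy ⊢
  have hfa : (0 : ℝ) ≤ (d + 1).factorial * a := by positivity
  have hfd : (1 : ℝ) ≤ (d + 1).factorial := by exact_mod_cast Nat.one_le_iff_ne_zero.2 (Nat.factorial_ne_zero _)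
  have hL100 : 100 ≤ L := by linarith
  have hL6 : 6 ≤ L := by linarith
  have hL1 : 1 ≤ L := by linarith
  have hL0 : 0 < L := by linarith
  have hy0 : (y : ℝ) ≤ M := by exact_mod_cast hy
  have hy00 : (0 : ℝ) ≤ y := Nat.cast_nonneg _
  have hMbig : L ^ (3 * R₀ + 2 * A₁ + 3) ≤ M := a2.trans hM1
  have hM0 : (0 : ℝ) < M := lt_of_lt_of_le (by positivity) hMbig
  have hgb : ∀ α : ℝ, ht (Ioc 0 (P : ℤ)) (fun n => (psh (gv G) (fun n => ArithmeticFunction.vonMangoldt n) y n : ℂ)) α =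
      ∑ n ∈ Ioc 0 y, (ArithmeticFunction.vonMangoldt n : ℂ) * Pool.Agent.H49.MD.e (α * ((gv G n : ℤ) : ℝ)) := by
    intro α
    rw [psh_ht (gv G) (fun n => ArithmeticFunction.vonMangoldt n) y P hP α]
    have : Icc 1 y = Ioc 0 y := by
      ext n
      rw [mem_Icc, mem_Ioc]
      omega
    rw [this]
    apply sum_congr rfl
    intro n _
    rw [e_eq, mul_comm α]
  have htriv : ∀ α : ℝ, ‖∑ n ∈ Ioc 0 y, (ArithmeticFunction.vonMangoldt n : ℂ) * Pool.Agent.H49.MD.e (α * ((gv G n : ℤ) : ℝ))‖ ≤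
      y * L := by
    intro α
    refine (norm_sum_le _ _).trans ?_
    have : ∀ n ∈ Ioc 0 y, ‖(ArithmeticFunction.vonMangoldt n : ℂ) * Pool.Agent.H49.MD.e (α * ((gv G n : ℤ) : ℝ))‖ ≤ L := by
      intro n hn
      rw [mem_Ioc] at hn
      rw [norm_mul, e_eq, norm_ee, mul_one, Complex.norm_real, Real.norm_eq_abs,
        abs_of_nonneg ArithmeticFunction.vonMangoldt_nonneg]
      exact hvm n (mem_Icc.2 ⟨by omega, hn.2⟩)
    refine (sum_le_card_nsmul _ _ _ this).trans (le_of_eq ?_)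
    rw [Nat.card_Ioc, nsmul_eq_mul, Nat.sub_zero]
  constructor
  · intro α
    rw [hgb]
    exact (htriv α).trans (mul_le_mul_of_nonneg_right hy0 hL0.le)
  · intro α
    rw [hgb]
    rcases le_or_gt (y : ℝ) (M / L ^ (A₁ + 1)) with hsm | hbig
    · left
      refine (htriv α).trans ?_
      calc (y : ℝ) * L ≤ M / L ^ (A₁ + 1) * L := mul_le_mul_of_nonneg_right hsm hL0.le
        _ = M / L ^ A₁ := by
            rw [pow_succ]
            field_simp
    -- the parameters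
    obtain ⟨D, hD⟩ : ∃ D, D = L ^ A₂ := ⟨_, rfl⟩
    obtain ⟨R, hR⟩ : ∃ R, R = ⌈D ^ E⌉₊ := ⟨_, rfl⟩
    have hD0 : 0 < D := by rw [hD]; positivity
    have hD2 : 2 ≤ D := by
      rw [hD]
      calc (2 : ℝ) ≤ L := by linarith
        _ ≤ L ^ A₂ := le_self_pow₀ hL1 (by omega)
    have hRr1 : D ^ E ≤ R := by rw [hR]; exact Nat.le_ceil _
    have hDE : D ^ E = L ^ (A₂ * E) := by rw [hD, ← pow_mul]
    have hRr2 : (R : ℝ) ≤ L ^ R₀ := by
      have e1 := (Nat.ceil_lt_add_one (show 0 ≤ D ^ E by positivity)).le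
      rw [← hR] at e1
      have e2 : 1 ≤ D ^ E := by rw [hDE]; exact one_le_pow₀ hL1
      calc (R : ℝ) ≤ D ^ E + 1 := e1
        _ ≤ L * D ^ E := by nlinarith
        _ = L ^ R₀ := by rw [hDE, hR₀, pow_succ]; ring
    have hR0 : (0 : ℝ) < R := lt_of_lt_of_le (by positivity) hRr1
    have hyL : M / L ^ (A₁ + 1) ≤ y := hbig.le
    have hyM : L ^ (3 * R₀) ≤ y := by
      refine le_trans ?_ hyL
      rw [le_div_iff₀ (by positivity), ← pow_add]
      refine le_trans ?_ hMbig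
      exact pow_le_pow_right₀ hL1 (by omega)
    have hR3 : R ^ 3 ≤ y := by
      have : (R : ℝ) ^ 3 ≤ y := by
        calc (R : ℝ) ^ 3 ≤ (L ^ R₀) ^ 3 := pow_le_pow_left₀ hR0.le hRr2 3
          _ = L ^ (3 * R₀) := by rw [← pow_mul, mul_comm]
          _ ≤ y := hyM
      exact_mod_cast this
    have hy1 : (0 : ℝ) < y := lt_of_lt_of_le (by positivity) hyM
    have hly : 1 ≤ Real.log (y : ℝ) := by
      rw [Real.le_log_iff_exp_le hy1]
      have e1 := Real.exp_one_lt_d9.le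
      have e2 : L ≤ L ^ (3 * R₀) := le_self_pow₀ hL1 (by omega)
      linarith
    obtain ⟨Z, hZ⟩ : ∃ Z : ℝ, Z = (d + 1).factorial * (R * (2 * R ^ 2) ^ (d + 1)) := ⟨_, rfl⟩
    have hZ1 : Z ≤ L ^ Z₀ := by
      rw [hZ]
      calc ((d + 1).factorial : ℝ) * (R * (2 * R ^ 2) ^ (d + 1)) ≤ L * (L ^ R₀ * (L * (L ^ R₀) ^ 2) ^ (d + 1)) := by
            gcongr
            · linarith
            · linarith
        _ = L ^ Z₀ := by
            rw [hZ₀]
            ring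
    by_cases hq : ∀ q : ℕ, 0 < q → (q : ℝ) ≤ Z → Z / (y : ℝ) ^ (d + 1) <
        nr ((q : ℝ) * (((d + 1).factorial : ℝ) * (α * (G.coeff (d + 1) : ℝ))))
    · left
      have hb := hE D hD2 R y hRr1 hR3 hly _ _ Z (poly_Dg G (d + 1) hdeg α) hZ.symm.le hq
      refine hb.trans ?_
      have hly0 : 0 ≤ Real.log (y : ℝ) := by linarith
      have hA0 : 0 < (M : ℝ) / L ^ A₁ := by positivity
      have t1 : 6 * (R : ℝ) ≤ M / L ^ A₁ / 3 := by
        rw [le_div_iff₀ (by norm_num), le_div_iff₀ (by positivity)]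
        calc 6 * (R : ℝ) * 3 * L ^ A₁ = 18 * (R * L ^ A₁) := by ring
          _ ≤ L * (L ^ R₀ * L ^ A₁) := by
              have : (18 : ℝ) ≤ L := by linarith
              gcongr
          _ = L ^ (R₀ + A₁ + 1) := by ring
          _ ≤ L ^ (3 * R₀ + 2 * A₁ + 3) := pow_le_pow_right₀ hL1 (by omega)
          _ ≤ M := hMbig
      have hDinv : (y : ℝ) / D ≤ M / L ^ (2 * A₁ + 8) := by
        rw [hD, hA₂]
        gcongr
      have t2 : 8 * Real.log y ^ 2 * (y / D) ≤ M / L ^ A₁ / 3 := by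
        calc 8 * Real.log y ^ 2 * (y / D) ≤ 8 * L ^ 2 * (M / L ^ (2 * A₁ + 8)) := by gcongr
          _ = (M / L ^ A₁) * (8 / L ^ (A₁ + 6)) := by
              rw [show 2 * A₁ + 8 = A₁ + (A₁ + 6) + 2 by ring, pow_add L (A₁ + (A₁ + 6)) 2, pow_add L A₁ (A₁ + 6)]
              field_simp
          _ ≤ (M / L ^ A₁) * (1 / 3) := by
              apply mul_le_mul_of_nonneg_left _ hA0.le
              rw [div_le_div_iff₀ (by positivity) (by norm_num)]
              have : L ≤ L ^ (A₁ + 6) := le_self_pow₀ hL1 (by omega)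
              linarith
          _ = _ := by ring
      have t3 : √(40 * Real.log y ^ 4 * ((y : ℝ) ^ 2 / D)) ≤ M / L ^ A₁ / 3 := by
        rw [Real.sqrt_le_left (by positivity)]
        calc 40 * Real.log y ^ 4 * ((y : ℝ) ^ 2 / D) ≤ 40 * L ^ 4 * ((M : ℝ) ^ 2 / L ^ (2 * A₁ + 8)) := by
              rw [hD, hA₂]
              gcongr
          _ = (M / L ^ A₁) ^ 2 * (40 / L ^ 4) := by
              rw [show 2 * A₁ + 8 = A₁ + A₁ + 4 + 4 by ring, pow_add L (A₁ + A₁ + 4) 4, pow_add L (A₁ + A₁) 4, pow_add L A₁ A₁]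
              field_simp
          _ ≤ (M / L ^ A₁) ^ 2 * (1 / 9) := by
              apply mul_le_mul_of_nonneg_left _ (by positivity)
              rw [div_le_div_iff₀ (by positivity) (by norm_num)]
              have : L * L ≤ L ^ 4 := by
                calc L * L = L ^ 2 := by ring
                  _ ≤ L ^ 4 := pow_le_pow_right₀ hL1 (by norm_num)
              nlinarith
          _ = _ := by ring
      linarith
    · right
      push Not at hq
      obtain ⟨q, hq0, hq1, hq2⟩ := hq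
      obtain ⟨c, hc⟩ := appr hlead hq0 hq2
      rw [← ha] at hc
      refine ⟨q * ((d + 1).factorial * a), ?_, c, ?_⟩
      · rw [mem_Icc]
        constructor
        · have : 0 < a := by
            rw [ha]
            exact Int.lt_toNat.2 (by simpa using hlead)
          have := Nat.mul_pos hq0 (Nat.mul_pos (Nat.factorial_pos (d + 1)) this)
          omega
        · apply Nat.le_floor
          push_cast
          calc (q : ℝ) * ((d + 1).factorial * a) ≤ L ^ Z₀ * L := by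
                apply mul_le_mul (hq1.trans hZ1) _ hfa (by positivity)
                linarith
            _ = L ^ (Z₀ + 1) := by rw [pow_succ]
            _ ≤ L ^ K := pow_le_pow_right₀ hL1 (by omega)
      · have hMk : (0 : ℝ) < (M : ℝ) ^ (d + 1) := by positivity
        have hyk : (M : ℝ) ^ (d + 1) / L ^ ((A₁ + 1) * (d + 1)) ≤ (y : ℝ) ^ (d + 1) := by
          rw [pow_mul, ← div_pow]
          exact pow_le_pow_left₀ (by positivity) hyL _
        have hZ0 : 0 ≤ Z := by rw [hZ]; positivity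
        have e1 : Z / (y : ℝ) ^ (d + 1) ≤ L ^ Z₀ * L ^ ((A₁ + 1) * (d + 1)) / (M : ℝ) ^ (d + 1) := by
          calc Z / (y : ℝ) ^ (d + 1) ≤ L ^ Z₀ / ((M : ℝ) ^ (d + 1) / L ^ ((A₁ + 1) * (d + 1))) := by gcongr
            _ = _ := by
                field_simp
        calc |α - (c : ℝ) / ((q * ((d + 1).factorial * a) : ℕ) : ℝ)| * (6 * H)
            ≤ (L ^ Z₀ * L ^ ((A₁ + 1) * (d + 1)) / (M : ℝ) ^ (d + 1)) * (6 * H) :=
              mul_le_mul_of_nonneg_right (hc.trans e1) (by positivity)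
          _ = (H * (6 * (L ^ Z₀ * L ^ ((A₁ + 1) * (d + 1))))) / (M : ℝ) ^ (d + 1) := by ring
          _ ≤ (H * L ^ K) / (M : ℝ) ^ (d + 1) := by
              apply div_le_div_of_nonneg_right _ hMk.le
              apply mul_le_mul_of_nonneg_left _ (Nat.cast_nonneg _)
              rw [hK, pow_succ, pow_add, mul_comm]
              exact mul_le_mul_of_nonneg_left hL6 (by positivity)
          _ ≤ 1 := by
              rw [div_le_one hMk]
              exact hH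

end Pool.Agent.H561.PG
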