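import Pool.Agent.H561.PG.P4

set_option autoImplicit false

/-! The mean square for the values of a polynomial at the integers and at the primes. -/

namespace Pool.Agent.H561.PG

open Finset Polynomial
open Pool.Agent.H561.CM
open Pool.Agent.H373R2.T7 (ev_log' ev_L')
open Pool.Agent.helper24_UT (NN Ed)

lemma val_le (G : ℤ[X]) (k : ℕ) (hdeg : G.natDegree ≤ k) : ∃ c : ℕ, 1 ≤ c ∧ ∀ t : ℕ, 1 ≤ t → |gv G t| ≤ c * (t : ℤ) ^ k := by
  refine ⟨1 + ∑ i ∈ range (k + 1), (G.coeff i).natAbs, Nat.le_add_right _ _, fun t ht => ?_⟩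
  unfold gv
  rw [eval_eq_sum_range' (n := k + 1) (by omega)]
  have ht1 : (1 : ℤ) ≤ t := by exact_mod_cast ht
  calc |∑ i ∈ range (k + 1), G.coeff i * (t : ℤ) ^ i| ≤ ∑ i ∈ range (k + 1), |G.coeff i * (t : ℤ) ^ i| := abs_sum_le_sum_abs _ _
    _ ≤ ∑ i ∈ range (k + 1), ((G.coeff i).natAbs : ℤ) * (t : ℤ) ^ k := by
        apply sum_le_sum
        intro i hi
        rw [mem_range] at hi
        rw [abs_mul, Int.natCast_natAbs, abs_pow, abs_of_pos (by linarith : (0 : ℤ) < t)]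
        apply mul_le_mul_of_nonneg_left _ (abs_nonneg _)
        exact pow_le_pow_right₀ ht1 (by omega)
    _ = ((∑ i ∈ range (k + 1), (G.coeff i).natAbs : ℕ) : ℤ) * (t : ℤ) ^ k := by rw [← sum_mul, Nat.cast_sum]
    _ ≤ _ := by
        apply mul_le_mul_of_nonneg_right _ (by positivity)
        push_cast
        linarith

/-- the two kinds of weights -/
noncomputable def wt (τ : Bool) (n : ℕ) : ℝ := if τ then ArithmeticFunction.vonMangoldt n else 1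

lemma wt_nonneg (τ : Bool) (n : ℕ) : 0 ≤ wt τ n := by
  unfold wt
  split_ifs
  · exact ArithmeticFunction.vonMangoldt_nonneg
  · norm_num

theorem maj (τ : Bool) (G : ℤ[X]) (k : ℕ) (hk : 1 ≤ k) (hdeg : G.natDegree ≤ k) (hlead : 0 < G.coeff k) (A₁ : ℕ)
    (hA₁ : 1 ≤ A₁) (θ : ℝ) (hθ : 0 < θ) : ∃ K X₀ : ℕ, ∀ X : ℕ, X₀ ≤ X → ∀ M : ℕ, (X : ℝ) ^ θ ≤ M → M ≤ X → ∀ y : ℕ, y ≤ M →
    ∀ P : ℕ, (∀ t ∈ Icc 1 y, 1 ≤ gv G t ∧ gv G t ≤ P) → ∀ H : ℕ, (H : ℝ) * Real.log X ^ K ≤ (M : ℝ) ^ k →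
    Maj P H ⌊Real.log X ^ K⌋₊ (psh (gv G) (wt τ) y) (M * Real.log X) (M / Real.log X ^ A₁) := by
  cases τ with
  | false =>
    obtain ⟨K, X₀, h⟩ := maj_int G k hk hdeg hlead A₁ hA₁ θ hθ
    obtain ⟨n1, h1⟩ := ev_L' 1
    refine ⟨K, X₀ + n1, fun X hX M hM1 hM2 y hy P hP H hH => ?_⟩
    have hL := h1 X (by omega)
    obtain ⟨g1, g2⟩ := h X (by omega) M hM1 hM2 y hy P hP H hH
    have e : wt false = fun _ => 1 := by
      funext n
      simp [wt]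
    rw [e]
    refine ⟨fun α => (g1 α).trans ?_, g2⟩
    exact le_mul_of_one_le_right (Nat.cast_nonneg _) hL
  | true =>
    obtain ⟨K, X₀, h⟩ := maj_prime G k hk hdeg hlead A₁ θ hθ
    refine ⟨K, X₀, fun X hX M hM1 hM2 y hy P hP H hH => ?_⟩
    have e : wt true = fun n => ArithmeticFunction.vonMangoldt n := by
      funext n
      simp [wt]
    rw [e]
    exact h X hX M hM1 hM2 y hy P hP H hH

/-- **The mean square.** -/
theorem ms_poly (τ : Bool) (G : ℤ[X]) (k : ℕ) (hk : 1 ≤ k) (hdeg : G.natDegree ≤ k) (hlead : 0 < G.coeff k)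
    (hpos : ∀ t : ℕ, 1 ≤ t → 1 ≤ gv G t) (e A : ℕ) (he : 5 ≤ e) : ∃ E₀ D : ℕ, 1 ≤ D ∧ ∀ E₁ : ℕ, ∃ X₀ : ℕ, ∀ X : ℕ, X₀ ≤ X →
    ∀ z : ℕ, Real.log X ^ E₀ ≤ z → (z : ℝ) ≤ Real.log X ^ E₁ → ∀ M : ℕ, (X : ℝ) ^ (1 / 4 + 4 / e : ℝ) ≤ (M : ℝ) ^ k →
    (M : ℝ) ^ k * Real.log X ^ D ≤ X → ∀ y : ℕ, y ≤ M →
    ∑ N ∈ Icc 1 (2 * X), (∑ t ∈ Icc 1 y, wt τ t * Ed z ((N : ℤ) - gv G t)) ^ 2 ≤ X * (M : ℝ) ^ 2 / Real.log X ^ A ∧
    ∑ N ∈ Icc 1 X, (∑ t ∈ Icc 1 y, wt τ t * Ed z ((N : ℤ) + gv G t)) ^ 2 ≤ X * (M : ℝ) ^ 2 / Real.log X ^ A := by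
  obtain ⟨cG, hcG, hval⟩ := val_le G k hdeg
  have hk0 : (0 : ℝ) < k := by exact_mod_cast hk
  obtain ⟨K, X1, h1⟩ := maj τ G k hk hdeg hlead (A + 2) (by omega) (1 / (4 * k)) (by positivity)
  obtain ⟨D, hD⟩ := gen_ms e (A + 3) K he
  refine ⟨K + 2, D + 1, by omega, fun E₁ => ?_⟩
  obtain ⟨X2, h2⟩ := hD E₁
  have he0 : (0 : ℝ) < e := by
    have : 0 < e := by omega
    exact_mod_cast this
  obtain ⟨X3, h3⟩ := ev_L' (cG + 10)
  obtain ⟨X4, h4⟩ := Filter.eventually_atTop.1 (Pool.Agent.helper24_UT.Sil2.ev_pow K (1 / e) 2 (by positivity))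
  refine ⟨X1 + X2 + X3 + X4 + 3, fun X hX z hz1 hz2 M hM1 hM2 y hy => ?_⟩
  have g1 := h1 X (by omega)
  have g2 := h2 X (by omega) z hz1 hz2
  have hL := h3 X (by omega)
  have a4 := h4 X (by omega)
  have hX1 : (1 : ℝ) ≤ X := by exact_mod_cast (by omega : 1 ≤ X)
  have hX0 : (0 : ℝ) < X := by linarith
  obtain ⟨L, hLd⟩ : ∃ L, L = Real.log (X : ℝ) := ⟨_, rfl⟩
  rw [← hLd] at hL a4 hM2 g1 g2 ⊢
  have hcG0 : (0 : ℝ) ≤ cG := Nat.cast_nonneg _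
  have hL1 : 1 ≤ L := by linarith
  have hL0 : 0 < L := by linarith
  have hLK1 : 1 ≤ L ^ K := one_le_pow₀ hL1
  -- the size of M
  have hX14 : (1 : ℝ) ≤ (X : ℝ) ^ (1 / 4 + 4 / e : ℝ) := Real.one_le_rpow hX1 (by positivity)
  have hMk1 : (1 : ℝ) ≤ (M : ℝ) ^ k := hX14.trans hM1
  have hM0 : 1 ≤ M := by
    rcases Nat.eq_zero_or_pos M with h | h
    · exfalso
      rw [h, Nat.cast_zero, zero_pow (by omega)] at hMk1
      linarith
    · exact h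
  have hM1r : (1 : ℝ) ≤ M := by exact_mod_cast hM0
  have hMX : (M : ℝ) ^ k ≤ X := by
    refine le_trans ?_ hM2
    exact le_mul_of_one_le_right (by linarith) (one_le_pow₀ hL1)
  have hMleX : M ≤ X := by
    have : (M : ℝ) ≤ X := (le_self_pow₀ hM1r (by omega)).trans hMX
    exact_mod_cast this
  have hMθ : (X : ℝ) ^ (1 / (4 * k) : ℝ) ≤ M := by
    have e1 : (X : ℝ) ^ (1 / 4 : ℝ) ≤ (M : ℝ) ^ k := by
      refine le_trans ?_ hM1
      apply Real.rpow_le_rpow_of_exponent_le hX1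
      have : (0 : ℝ) ≤ 4 / e := by positivity
      linarith
    calc (X : ℝ) ^ (1 / (4 * k) : ℝ) = ((X : ℝ) ^ (1 / 4 : ℝ)) ^ (1 / k : ℝ) := by
          rw [← Real.rpow_mul hX0.le]
          congr 1
          field_simp
      _ ≤ ((M : ℝ) ^ k) ^ (1 / k : ℝ) := Real.rpow_le_rpow (by positivity) e1 (by positivity)
      _ = M := by
          rw [← Real.rpow_natCast, ← Real.rpow_mul (by linarith), mul_one_div_cancel hk0.ne', Real.rpow_one]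
  -- the parameters
  obtain ⟨P, hP⟩ : ∃ P, P = cG * M ^ k := ⟨_, rfl⟩
  obtain ⟨H, hH⟩ : ∃ H, H = ⌊(M : ℝ) ^ k / L ^ K⌋₊ := ⟨_, rfl⟩
  have hH1 : (H : ℝ) ≤ (M : ℝ) ^ k / L ^ K := by
    rw [hH]
    exact Nat.floor_le (by positivity)
  have hH1' : (H : ℝ) * L ^ K ≤ (M : ℝ) ^ k := by
    rwa [le_div_iff₀ (by positivity)] at hH1
  have hHM : (H : ℝ) ≤ (M : ℝ) ^ k := hH1.trans (div_le_self (by linarith) hLK1)
  have hH2 : (X : ℝ) ^ (1 / 4 + 3 / e : ℝ) ≤ H := by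
    have e1 := Nat.lt_floor_add_one ((M : ℝ) ^ k / L ^ K)
    rw [← hH] at e1
    have e2 : 2 * (X : ℝ) ^ (1 / 4 + 3 / e : ℝ) ≤ (M : ℝ) ^ k / L ^ K := by
      rw [le_div_iff₀ (by positivity)]
      calc 2 * (X : ℝ) ^ (1 / 4 + 3 / e : ℝ) * L ^ K = (2 * L ^ K) * (X : ℝ) ^ (1 / 4 + 3 / e : ℝ) := by ring
        _ ≤ (X : ℝ) ^ (1 / e : ℝ) * (X : ℝ) ^ (1 / 4 + 3 / e : ℝ) := mul_le_mul_of_nonneg_right a4 (by positivity)
        _ = (X : ℝ) ^ (1 / 4 + 4 / e : ℝ) := by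
            rw [← Real.rpow_add hX0]
            congr 1
            ring
        _ ≤ _ := hM1
    have e3 : (1 : ℝ) ≤ (X : ℝ) ^ (1 / 4 + 3 / e : ℝ) := Real.one_le_rpow hX1 (by positivity)
    linarith
  have hHP : H ≤ P := by
    have : (H : ℝ) ≤ P := by
      rw [hP]
      push_cast
      have : (1 : ℝ) ≤ cG := by exact_mod_cast hcG
      nlinarith
    exact_mod_cast this
  have hPX : P ≤ X := by
    have : (P : ℝ) ≤ X := by
      rw [hP]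
      push_cast
      calc (cG : ℝ) * (M : ℝ) ^ k ≤ L ^ (D + 1) * (M : ℝ) ^ k := by
            apply mul_le_mul_of_nonneg_right _ (by linarith)
            calc (cG : ℝ) ≤ L := by linarith
              _ ≤ L ^ (D + 1) := le_self_pow₀ hL1 (by omega)
        _ = (M : ℝ) ^ k * L ^ (D + 1) := mul_comm _ _
        _ ≤ X := hM2
    exact_mod_cast this
  have hHX : (H : ℝ) * L ^ D ≤ X := by
    refine le_trans ?_ hM2
    apply mul_le_mul hHM _ (by positivity) (by linarith)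
    exact pow_le_pow_right₀ hL1 (by omega)
  have hvals : ∀ t ∈ Icc 1 y, 1 ≤ gv G t ∧ gv G t ≤ P := by
    intro t ht
    rw [mem_Icc] at ht
    refine ⟨hpos t ht.1, ?_⟩
    have e1 := (le_abs_self _).trans (hval t ht.1)
    refine e1.trans ?_
    rw [hP]
    push_cast
    apply mul_le_mul_of_nonneg_left _ (by positivity)
    apply pow_le_pow_left₀ (by positivity)
    exact_mod_cast ht.2.trans hy
  have hV1 : 1 ≤ ⌊L ^ K⌋₊ := Nat.le_floor (by rw [Nat.cast_one]; exact hLK1)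
  have hVK : ((⌊L ^ K⌋₊ : ℕ) : ℝ) ≤ L ^ K := Nat.floor_le (by positivity)
  have hmaj := g1 M hMθ hMleX y hy P hvals H hH1'
  obtain ⟨r1, r2⟩ := g2 P H ⌊L ^ K⌋₊ hH2 hHX hHP hPX hV1 hVK (psh (gv G) (wt τ) y) (M * L) (M / L ^ (A + 2))
    (by positivity) hmaj
  have hfin : (X : ℝ) * ((M / L ^ (A + 2)) ^ 2 * L ^ 3 + (M * L) ^ 2 / L ^ (A + 3)) ≤ X * (M : ℝ) ^ 2 / L ^ A := by
    have e1 : ((M : ℝ) / L ^ (A + 2)) ^ 2 * L ^ 3 ≤ (M : ℝ) ^ 2 / L ^ (A + 1) := by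
      have e2 : ((M : ℝ) / L ^ (A + 2)) ^ 2 * L ^ 3 = (M : ℝ) ^ 2 / L ^ (A + 1) * (1 / L ^ A) := by
        rw [div_pow, ← pow_mul, div_mul_eq_mul_div, div_mul_div_comm, mul_one, ← pow_add,
          div_eq_div_iff (by positivity) (by positivity)]
        ring
      rw [e2]
      apply mul_le_of_le_one_right (by positivity)
      rw [div_le_one (by positivity)]
      exact one_le_pow₀ hL1
    have e2 : ((M : ℝ) * L) ^ 2 / L ^ (A + 3) = (M : ℝ) ^ 2 / L ^ (A + 1) := by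
      rw [show A + 3 = (A + 1) + 2 by ring, pow_add L (A + 1) 2, mul_pow]
      have : L ^ (A + 1) ≠ 0 := by positivity
      have : L ^ 2 ≠ 0 := by positivity
      rw [mul_div_mul_right _ _ this]
    have e3 : (M : ℝ) ^ 2 / L ^ (A + 1) + (M : ℝ) ^ 2 / L ^ (A + 1) ≤ (M : ℝ) ^ 2 / L ^ A := by
      have e4 : (M : ℝ) ^ 2 / L ^ (A + 1) = (M : ℝ) ^ 2 / L ^ A * (1 / L) := by
        rw [pow_succ L A, div_mul_div_comm, mul_one]
      rw [e4]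
      have e5 : 1 / L ≤ 1 / 2 := div_le_div_of_nonneg_left (by norm_num) (by norm_num) (by linarith)
      have e6 : 0 ≤ (M : ℝ) ^ 2 / L ^ A := by positivity
      nlinarith
    rw [mul_div_assoc]
    apply mul_le_mul_of_nonneg_left _ hX0.le
    linarith
  constructor
  · refine le_trans (le_of_eq ?_) (r1.trans hfin)
    apply sum_congr rfl
    intro N _
    rw [psh_real (gv G) (wt τ) y P (fun j => Ed z ((N : ℤ) - j)) hvals]
  · refine le_trans (le_of_eq ?_) (r2.trans hfin)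
    apply sum_congr rfl
    intro N _
    rw [psh_real (gv G) (wt τ) y P (fun j => Ed z ((N : ℤ) + j)) hvals]

end Pool.Agent.H561.PG
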