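import Pool.Agent.H561.PG.C8
import Pool.Graph.R_seed8.R460.SC.Fc

set_option autoImplicit false

/-! The full Euler products of quadratic polynomials, at the integers and at the primes. -/

namespace Pool.Agent.H561.PG

open Finset Filter Topology
open Pool.Agent.H373R2.T7
open Pool.Agent.W468.ConjF (SJ PJ)
open Pool.Agent.R460.SB (Sz Sz_prod Sz_bd nu_leg QS QS_per QS_perB)
open Pool.Agent.R460.SC (Sz_split' PJ_lim)

lemma St_Sz (a b c : ℤ) (z : ℕ) : St false z (QS (-a) (-b) c) = Sz (-a) (-b) c z := by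
  unfold St Sz loc
  simp only [Bool.false_eq_true, if_false]

lemma St_prod (s : Bool) (Q : ℕ → ℕ → Prop) (z : ℕ) : St s z Q = ∏ p ∈ pz z, (1 - loc s Q p) / (1 - 1 / (p : ℝ)) := by
  unfold St Vz
  rw [prod_div_distrib, div_eq_mul_inv, mul_comm]

lemma rho_eq (Q : ℕ → ℕ → Prop) (p : ℕ) (hp : p.Prime) [Decidable (Q p 0)] :
    (rhoA Q p : ℝ) = (nuB Q p : ℝ) - (if Q p 0 then 1 else 0) := by
  classical
  unfold rhoA nuB
  have h1 : (range p).filter (fun r => ¬ p ∣ r ∧ Q p r) = ((range p).filter (fun r => Q p r)).erase 0 := by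
    ext r
    rw [mem_filter, mem_erase, mem_filter, mem_range]
    constructor
    · rintro ⟨h1, h2, h3⟩
      refine ⟨fun h => h2 ?_, h1, h3⟩
      rw [h]
      exact dvd_zero p
    · rintro ⟨h1, h2, h3⟩
      refine ⟨h2, fun h => ?_, h3⟩
      have := Nat.le_of_dvd (Nat.pos_of_ne_zero h1) h
      omega
  rw [h1]
  by_cases h : Q p 0
  · rw [if_pos h]
    have h2 : 0 ∈ (range p).filter (fun r => Q p r) := by
      rw [mem_filter, mem_range]
      exact ⟨hp.pos, h⟩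
    have h3 := card_erase_add_one h2
    have : ((((range p).filter (fun r => Q p r)).erase 0).card : ℝ) + 1 = ((range p).filter (fun r => Q p r)).card := by
      exact_mod_cast h3
    linarith
  · rw [if_neg h, erase_eq_of_notMem, sub_zero]
    intro h2
    exact h (mem_filter.1 h2).2

/-- the ratio of the local factors at the primes and at the integers -/
noncomputable def hq (a b c : ℤ) (p : ℕ) : ℝ :=
  ((1 - loc true (QS (-a) (-b) c) p) / (1 - 1 / (p : ℝ))) / ((1 - loc false (QS (-a) (-b) c) p) / (1 - 1 / (p : ℝ)))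

lemma nu_val {a b c : ℤ} {p : ℕ} (hp : p.Prime) (h3 : 3 ≤ p) (hpa : ¬ (p : ℤ) ∣ a) :
    (nuB (QS (-a) (-b) c) p : ℝ) = 1 + (jacobiSym (b ^ 2 - 4 * a * c) p : ℝ) := by
  have h1 := nu_leg (-a) (-b) c hp (by omega) (by rwa [dvd_neg])
  have h2 : 4 * (-a) * c + (-b) ^ 2 = b ^ 2 - 4 * a * c := by ring
  rw [h2] at h1
  exact_mod_cast h1

lemma js_vals (D : ℤ) (p : ℕ) : jacobiSym D p = -1 ∨ jacobiSym D p = 0 ∨ jacobiSym D p = 1 := by
  have := jacobiSym.trichotomy D p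
  tauto

lemma hq_ndvd {a b c : ℤ} {p : ℕ} (hp : p.Prime) (h5 : 5 ≤ p) (hpa : ¬ (p : ℤ) ∣ a) (hpc : ¬ (p : ℤ) ∣ c) :
    1 - 8 / (p : ℝ) ^ 2 ≤ hq a b c p ∧ hq a b c p ≤ 1 := by
  classical
  have hν := nu_val (b := b) (c := c) hp (by omega) hpa
  have hρ := rho_eq (QS (-a) (-b) c) p hp
  have hQ : ¬ QS (-a) (-b) c p 0 := by
    unfold QS
    simpa using hpc
  rw [if_neg hQ, sub_zero] at hρ
  have hp5 : (5 : ℝ) ≤ p := by exact_mod_cast h5
  unfold hq loc
  simp only [if_true, Bool.false_eq_true, if_false]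
  rw [hρ, hν]
  have e0 : (p : ℝ) ≠ 0 := by linarith
  have e1 : (p : ℝ) - 1 ≠ 0 := by
    have : (0 : ℝ) < p - 1 := by linarith
    exact this.ne'
  have e2 : (p : ℝ) - 2 ≠ 0 := by
    have : (0 : ℝ) < p - 2 := by linarith
    exact this.ne'
  have e3 : 1 - 1 / (p : ℝ) ≠ 0 := by
    have : 0 < 1 - 1 / (p : ℝ) := by
      rw [sub_pos, div_lt_one (by linarith)]
      linarith
    exact this.ne'
  rw [div_div_div_cancel_right₀ e3]
  rcases js_vals (b ^ 2 - 4 * a * c) p with h | h | h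
  · rw [h]
    push_cast
    norm_num
    positivity
  · rw [h]
    push_cast
    have e : (1 - (1 + 0) / ((p : ℝ) - 1)) / (1 - (1 + 0) / p) = 1 - 1 / ((p : ℝ) - 1) ^ 2 := by
      have : (1 : ℝ) - (1 + 0) / p = (p - 1) / p := by field_simp; ring
      rw [this]
      field_simp
      ring
    rw [e]
    constructor
    · have : 1 / ((p : ℝ) - 1) ^ 2 ≤ 8 / (p : ℝ) ^ 2 := by
        rw [div_le_div_iff₀ (by positivity) (by positivity)]
        nlinarith
      linarith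
    · have : 0 ≤ 1 / ((p : ℝ) - 1) ^ 2 := by positivity
      linarith
  · rw [h]
    push_cast
    have e : (1 - (1 + 1) / ((p : ℝ) - 1)) / (1 - (1 + 1) / p) = 1 - 2 / (((p : ℝ) - 1) * (p - 2)) := by
      have : (1 : ℝ) - (1 + 1) / p = (p - 2) / p := by field_simp; ring
      rw [this]
      field_simp
      ring
    rw [e]
    have h12 : 0 < ((p : ℝ) - 1) * (p - 2) := mul_pos (by linarith) (by linarith)
    constructor
    · have : 2 / (((p : ℝ) - 1) * (p - 2)) ≤ 8 / (p : ℝ) ^ 2 := by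
        rw [div_le_div_iff₀ h12 (by positivity)]
        nlinarith
      linarith
    · have : 0 ≤ 2 / (((p : ℝ) - 1) * (p - 2)) := by positivity
      linarith

lemma hq_dvd {a b c : ℤ} {p : ℕ} (hp : p.Prime) (h5 : 5 ≤ p) (hpa : ¬ (p : ℤ) ∣ a) (hpc : (p : ℤ) ∣ c) :
    1 ≤ hq a b c p ∧ hq a b c p ≤ 1 + 2 / p := by
  classical
  have hν := nu_val (b := b) (c := c) hp (by omega) hpa
  have hρ := rho_eq (QS (-a) (-b) c) p hp
  have hQ : QS (-a) (-b) c p 0 := by
    unfold QS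
    simpa using hpc
  rw [if_pos hQ] at hρ
  have hp5 : (5 : ℝ) ≤ p := by exact_mod_cast h5
  have e0 : (p : ℝ) ≠ 0 := by linarith
  have e1 : (p : ℝ) - 1 ≠ 0 := by
    have : (0 : ℝ) < p - 1 := by linarith
    exact this.ne'
  have e2 : (p : ℝ) - 2 ≠ 0 := by
    have : (0 : ℝ) < p - 2 := by linarith
    exact this.ne'
  have e3 : 1 - 1 / (p : ℝ) ≠ 0 := by
    have : 0 < 1 - 1 / (p : ℝ) := by
      rw [sub_pos, div_lt_one (by linarith)]
      linarith
    exact this.ne'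
  have hjs : jacobiSym (b ^ 2 - 4 * a * c) p = 0 ∨ jacobiSym (b ^ 2 - 4 * a * c) p = 1 := by
    rcases js_vals (b ^ 2 - 4 * a * c) p with h | h | h
    · exfalso
      have h1 : rhoA (QS (-a) (-b) c) p = (rhoA (QS (-a) (-b) c) p : ℕ) := rfl
      have h2 : (0 : ℝ) ≤ rhoA (QS (-a) (-b) c) p := Nat.cast_nonneg _
      rw [hρ, hν, h] at h2
      push_cast at h2
      linarith
    · exact Or.inl h
    · exact Or.inr h
  have hval : hq a b c p = 1 + 1 / ((p : ℝ) - 1) := by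
    unfold hq loc
    simp only [if_true, Bool.false_eq_true, if_false]
    rw [hρ, hν]
    rw [div_div_div_cancel_right₀ e3]
    rcases hjs with h | h
    · rw [h]
      push_cast
      have : (1 : ℝ) - (1 + 0) / p = (p - 1) / p := by field_simp; ring
      rw [this]
      field_simp
      ring
    · rw [h]
      push_cast
      have : (1 : ℝ) - (1 + 1) / p = (p - 2) / p := by field_simp; ring
      rw [this]
      field_simp
      ring
  rw [hval]
  constructor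
  · have : 0 < 1 / ((p : ℝ) - 1) := by
      apply div_pos one_pos
      linarith
    linarith
  · have : 1 / ((p : ℝ) - 1) ≤ 2 / p := by
      rw [div_le_div_iff₀ (by linarith) (by linarith)]
      linarith
    linarith

/-- the product of the ratios beyond `z` -/
noncomputable def HP (a b c : ℤ) (z N : ℕ) : ℝ := ∏ p ∈ (Ioc z N).filter Nat.Prime, hq a b c p

lemma one_sub_le_prod (T : Finset ℕ) (x : ℕ → ℝ) (h : ∀ p ∈ T, 0 ≤ x p ∧ x p ≤ 1) : 1 - ∑ p ∈ T, x p ≤ ∏ p ∈ T, (1 - x p) := by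
  classical
  induction T using Finset.induction_on with
  | empty => simp
  | insert p T hp ih =>
    rw [sum_insert hp, prod_insert hp]
    have h1 := ih (fun q hq => h q (mem_insert_of_mem hq))
    have h2 := h p (mem_insert_self p T)
    have h3 : ∏ q ∈ T, (1 - x q) ≤ 1 := prod_le_one (fun q hq => by linarith [(h q (mem_insert_of_mem hq)).2])
      (fun q hq => by linarith [(h q (mem_insert_of_mem hq)).1])
    nlinarith

lemma sum_sq_tail (z N : ℕ) (hz : 1 ≤ z) : ∑ p ∈ (Ioc z N).filter Nat.Prime, 8 / (p : ℝ) ^ 2 ≤ 8 / (z : ℝ) := by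
  have hz0 : (0 : ℝ) < z := by exact_mod_cast hz
  rcases le_or_gt N z with h | h
  · rw [Ioc_eq_empty (by omega), filter_empty, sum_empty]
    positivity
  have h1 : ∑ p ∈ (Ioc z N).filter Nat.Prime, 8 / (p : ℝ) ^ 2 ≤ ∑ n ∈ Ioc z N, 8 / (n : ℝ) ^ 2 := by
    apply sum_le_sum_of_subset_of_nonneg (filter_subset _ _)
    intro n _ _
    positivity
  refine h1.trans ?_
  have h2 := sum_Ioc_inv_sq_le_sub (α := ℝ) (by omega : z ≠ 0) h.le
  have h3 : ∑ n ∈ Ioc z N, 8 / (n : ℝ) ^ 2 = 8 * ∑ n ∈ Ioc z N, ((n : ℝ) ^ 2)⁻¹ := by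
    rw [mul_sum]
    apply sum_congr rfl
    intro n _
    rw [div_eq_mul_inv]
  rw [h3, div_eq_mul_inv]
  have h4 : (0 : ℝ) ≤ (N : ℝ)⁻¹ := by positivity
  linarith

lemma pz_split {z N : ℕ} (hN : z ≤ N) (F : ℕ → ℝ) : ∏ p ∈ pz N, F p = (∏ p ∈ pz z, F p) * ∏ p ∈ (Ioc z N).filter Nat.Prime, F p := by
  have e1 : pz N = pz z ∪ (Ioc z N).filter Nat.Prime := by
    ext p
    rw [mem_union, mem_pz, mem_pz, mem_filter, mem_Ioc]
    constructor
    · rintro ⟨h1, h2⟩
      by_cases h3 : p ≤ z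
      · exact Or.inl ⟨h3, h2⟩
      · exact Or.inr ⟨⟨by omega, h1⟩, h2⟩
    · rintro (⟨h1, h2⟩ | ⟨⟨h1, h2⟩, h3⟩)
      · exact ⟨by omega, h2⟩
      · exact ⟨h2, h3⟩
  have hdis : Disjoint (pz z) ((Ioc z N).filter Nat.Prime) := by
    rw [disjoint_left]
    intro p hp hp'
    rw [mem_pz] at hp
    rw [mem_filter, mem_Ioc] at hp'
    omega
  rw [e1, prod_union hdis]

lemma ndvd_of {a : ℤ} (ha : a ≠ 0) {z p : ℕ} (haz : a.natAbs ≤ z) (hp : z < p) : ¬ (p : ℤ) ∣ a := by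
  intro h
  have h1 := Int.natAbs_dvd_natAbs.2 h
  rw [Int.natAbs_natCast] at h1
  have := Nat.le_of_dvd (Int.natAbs_pos.2 ha) h1
  omega

lemma St_split {a b c : ℤ} (ha : a ≠ 0) {z N : ℕ} (hz : 4 ≤ z) (haz : a.natAbs ≤ z) (hN : z ≤ N) :
    St true N (QS (-a) (-b) c) = St true z (QS (-a) (-b) c) * (PJ (b ^ 2 - 4 * a * c) z N * HP a b c z N) := by
  rw [St_prod, St_prod, pz_split hN]
  congr 1
  unfold PJ HP
  rw [← prod_mul_distrib]
  apply prod_congr rfl
  intro p hp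
  rw [mem_filter, mem_Ioc] at hp
  have hp5 : (5 : ℝ) ≤ p := by exact_mod_cast (by omega : 5 ≤ p)
  have hν := nu_val (b := b) (c := c) hp.2 (by omega) (ndvd_of ha haz hp.1.1)
  have e0 : (p : ℝ) ≠ 0 := by linarith
  have e1 : (p : ℝ) - 1 ≠ 0 := by
    have : (0 : ℝ) < p - 1 := by linarith
    exact this.ne'
  have hF : (1 - loc false (QS (-a) (-b) c) p) / (1 - 1 / (p : ℝ)) = 1 - (jacobiSym (b ^ 2 - 4 * a * c) p : ℝ) / (p - 1) := by
    unfold loc
    simp only [Bool.false_eq_true, if_false]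
    rw [hν]
    field_simp
    ring
  have hpos := Pool.Agent.W468.ConjF.factor_pos (b ^ 2 - 4 * a * c) p (by omega)
  unfold hq
  rw [hF, mul_div_cancel₀ _ hpos.ne']

lemma HP_low {a b c : ℤ} (ha : a ≠ 0) {z : ℕ} (N : ℕ) (hz : 8 ≤ z) (haz : a.natAbs ≤ z) : 1 - 8 / (z : ℝ) ≤ HP a b c z N := by
  have h1 := sum_sq_tail z N (by omega)
  have h2 := one_sub_le_prod ((Ioc z N).filter Nat.Prime) (fun p => 8 / (p : ℝ) ^ 2) (by
    intro p hp
    rw [mem_filter, mem_Ioc] at hp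
    have hp5 : (8 : ℝ) ≤ p := by exact_mod_cast (by omega : 8 ≤ p)
    constructor
    · positivity
    · rw [div_le_one (by positivity)]
      nlinarith)
  have h3 : ∏ p ∈ (Ioc z N).filter Nat.Prime, (1 - 8 / (p : ℝ) ^ 2) ≤ HP a b c z N := by
    unfold HP
    apply Finset.prod_le_prod
    · intro p hp
      rw [mem_filter, mem_Ioc] at hp
      have hp5 : (8 : ℝ) ≤ p := by exact_mod_cast (by omega : 8 ≤ p)
      have : 8 / (p : ℝ) ^ 2 ≤ 1 := by
        rw [div_le_one (by positivity)]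
        nlinarith
      linarith
    · intro p hp
      rw [mem_filter, mem_Ioc] at hp
      by_cases hc : (p : ℤ) ∣ c
      · have h4 := (hq_dvd (b := b) hp.2 (by omega) (ndvd_of ha haz hp.1.1) hc).1
        have : 0 ≤ 8 / (p : ℝ) ^ 2 := by positivity
        linarith
      · exact (hq_ndvd hp.2 (by omega) (ndvd_of ha haz hp.1.1) hc).1
  linarith

lemma card_pdvd {c : ℤ} (hc : c ≠ 0) (T : Finset ℕ) (hT : ∀ p ∈ T, p.Prime ∧ (p : ℤ) ∣ c) : (T.card : ℝ) ≤ 2 * Real.log c.natAbs := by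
  have h1 : ∏ p ∈ T, p ∣ c.natAbs := by
    apply Finset.prod_primes_dvd
    · intro p hp
      exact (hT p hp).1.prime
    · intro p hp
      have := Int.natAbs_dvd_natAbs.2 (hT p hp).2
      rwa [Int.natAbs_natCast] at this
  have h2 : 2 ^ T.card ≤ ∏ p ∈ T, p := by
    rw [← prod_const]
    apply Finset.prod_le_prod'
    intro p hp
    exact (hT p hp).1.two_le
  have h3 : 2 ^ T.card ≤ c.natAbs := h2.trans (Nat.le_of_dvd (Int.natAbs_pos.2 hc) h1)
  have h4 : (2 : ℝ) ^ T.card ≤ c.natAbs := by exact_mod_cast h3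
  have h5 := Real.log_le_log (by positivity) h4
  rw [Real.log_pow] at h5
  have h6 := Real.log_two_gt_d9
  have h7 : (0 : ℝ) ≤ T.card := Nat.cast_nonneg _
  nlinarith

lemma HP_up {a b c : ℤ} (ha : a ≠ 0) (hc : c ≠ 0) {z : ℕ} (N : ℕ) (hz : 8 ≤ z) (haz : a.natAbs ≤ z) (K : ℝ)
    (hK : Real.log c.natAbs ≤ K) (hKz : 4 * K / z ≤ 1 / 2) : HP a b c z N ≤ 1 + 8 * K / z := by
  classical
  have hz0 : (0 : ℝ) < z := by exact_mod_cast (by omega : 0 < z)
  obtain ⟨T, hT⟩ : ∃ T, T = ((Ioc z N).filter Nat.Prime).filter (fun p : ℕ => (p : ℤ) ∣ c) := ⟨_, rfl⟩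
  have h1 : HP a b c z N ≤ ∏ p ∈ (Ioc z N).filter Nat.Prime, (if (p : ℤ) ∣ c then 1 + 2 / (z : ℝ) else 1) := by
    unfold HP
    apply Finset.prod_le_prod
    · intro p hp
      rw [mem_filter, mem_Ioc] at hp
      by_cases hd : (p : ℤ) ∣ c
      · have h4 := (hq_dvd (b := b) hp.2 (by omega) (ndvd_of ha haz hp.1.1) hd).1
        linarith
      · have h4 := (hq_ndvd (b := b) hp.2 (by omega) (ndvd_of ha haz hp.1.1) hd).1
        have hp5 : (8 : ℝ) ≤ p := by exact_mod_cast (by omega : 8 ≤ p)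
        have : 8 / (p : ℝ) ^ 2 ≤ 1 := by
          rw [div_le_one (by positivity)]
          nlinarith
        linarith
    · intro p hp
      rw [mem_filter, mem_Ioc] at hp
      split_ifs with hd
      · refine (hq_dvd (b := b) hp.2 (by omega) (ndvd_of ha haz hp.1.1) hd).2.trans ?_
        have : 2 / (p : ℝ) ≤ 2 / z := by
          apply div_le_div_of_nonneg_left (by norm_num) hz0
          exact_mod_cast hp.1.1.le
        linarith
      · exact (hq_ndvd (b := b) hp.2 (by omega) (ndvd_of ha haz hp.1.1) hd).2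
  have h2 : ∏ p ∈ (Ioc z N).filter Nat.Prime, (if (p : ℤ) ∣ c then 1 + 2 / (z : ℝ) else 1) = (1 + 2 / (z : ℝ)) ^ T.card := by
    rw [← prod_filter, prod_const, hT]
  have h3 : (T.card : ℝ) ≤ 2 * K := by
    refine (card_pdvd hc T ?_).trans (by linarith)
    intro p hp
    rw [hT, mem_filter, mem_filter] at hp
    exact ⟨hp.1.2, hp.2⟩
  have h4 : (1 + 2 / (z : ℝ)) ^ T.card ≤ Real.exp (4 * K / z) := by
    calc (1 + 2 / (z : ℝ)) ^ T.card ≤ (Real.exp (2 / z)) ^ T.card := by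
          apply pow_le_pow_left₀ (by positivity)
          have := Real.add_one_le_exp (2 / (z : ℝ))
          linarith
      _ = Real.exp (T.card * (2 / z)) := by rw [← Real.exp_nat_mul]
      _ ≤ _ := by
          apply Real.exp_le_exp.2
          calc (T.card : ℝ) * (2 / z) ≤ (2 * K) * (2 / z) := mul_le_mul_of_nonneg_right h3 (by positivity)
            _ = 4 * K / z := by ring
  have hK0 : 0 ≤ K := (Real.log_natCast_nonneg _).trans hK
  have hx0 : 0 ≤ 4 * K / z := by positivity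
  have h5 := Real.exp_bound_div_one_sub_of_interval hx0 (by linarith)
  have h6 : 1 / (1 - 4 * K / z) ≤ 1 + 8 * K / z := by
    rw [div_le_iff₀ (by linarith)]
    have e : (8 : ℝ) * K / z = 2 * (4 * K / z) := by ring
    rw [e]
    nlinarith
  rw [h2] at h1
  linarith

lemma HP_tendsto {a b c : ℤ} (ha : a ≠ 0) (hc : c ≠ 0) {z : ℕ} (hz : 16 ≤ z) (haz : a.natAbs ≤ z) (K : ℝ)
    (hK : Real.log c.natAbs ≤ K) (hKz : 4 * K / z ≤ 1 / 2) :
    ∃ ℓ : ℝ, Tendsto (fun N => HP a b c z N) atTop (𝓝 ℓ) ∧ 1 - 8 / (z : ℝ) ≤ ℓ ∧ ℓ ≤ 1 + 8 * K / z := by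
  obtain ⟨N0, hN0⟩ : ∃ N0, N0 = max z c.natAbs := ⟨_, rfl⟩
  have hzN : z ≤ N0 := by rw [hN0]; exact le_max_left _ _
  have hcN : c.natAbs ≤ N0 := by rw [hN0]; exact le_max_right _ _
  have hfac : ∀ p : ℕ, p.Prime → N0 < p → 0 ≤ hq a b c p ∧ hq a b c p ≤ 1 := by
    intro p hp hpN
    have h1 := hq_ndvd (b := b) hp (by omega) (ndvd_of ha haz (by omega : z < p)) (ndvd_of hc (le_refl _) (by omega : c.natAbs < p))
    refine ⟨le_trans ?_ h1.1, h1.2⟩
    have hp5 : (8 : ℝ) ≤ p := by exact_mod_cast (by omega : 8 ≤ p)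
    have : 8 / (p : ℝ) ^ 2 ≤ 1 := by
      rw [div_le_one (by positivity)]
      nlinarith
    linarith
  have hanti : Antitone (fun N => HP a b c N0 N) := by
    intro N N' hNN
    unfold HP
    simp only
    have hsub : (Ioc N0 N).filter Nat.Prime ⊆ (Ioc N0 N').filter Nat.Prime :=
      filter_subset_filter _ (Ioc_subset_Ioc_right hNN)
    rw [← prod_sdiff hsub]
    apply mul_le_of_le_one_left
    · apply Finset.prod_nonneg
      intro p hp
      rw [mem_filter, mem_Ioc] at hp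
      exact (hfac p hp.2 hp.1.1).1
    · apply Finset.prod_le_one
      · intro p hp
        rw [Finset.mem_sdiff, mem_filter, mem_Ioc] at hp
        exact (hfac p hp.1.2 hp.1.1.1).1
      · intro p hp
        rw [Finset.mem_sdiff, mem_filter, mem_Ioc] at hp
        exact (hfac p hp.1.2 hp.1.1.1).2
  have hbdd : BddBelow (Set.range (fun N => HP a b c N0 N)) := by
    refine ⟨1 - 8 / (N0 : ℝ), ?_⟩
    rintro _ ⟨N, rfl⟩
    exact HP_low ha N (by omega) (haz.trans hzN)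
  have ht := tendsto_atTop_ciInf hanti hbdd
  obtain ⟨ℓ1, hℓ1⟩ : ∃ ℓ1, ℓ1 = ⨅ N, HP a b c N0 N := ⟨_, rfl⟩
  rw [← hℓ1] at ht
  have hmul : ∀ N, N0 ≤ N → HP a b c z N = HP a b c z N0 * HP a b c N0 N := by
    intro N hN
    unfold HP
    have e1 : (Ioc z N).filter Nat.Prime = (Ioc z N0).filter Nat.Prime ∪ (Ioc N0 N).filter Nat.Prime := by
      ext p
      rw [mem_union, mem_filter, mem_filter, mem_filter, mem_Ioc, mem_Ioc, mem_Ioc]
      constructor
      · rintro ⟨⟨h1, h2⟩, h3⟩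
        by_cases h4 : p ≤ N0
        · exact Or.inl ⟨⟨h1, h4⟩, h3⟩
        · exact Or.inr ⟨⟨by omega, h2⟩, h3⟩
      · rintro (⟨⟨h1, h2⟩, h3⟩ | ⟨⟨h1, h2⟩, h3⟩)
        · exact ⟨⟨h1, by omega⟩, h3⟩
        · exact ⟨⟨by omega, h2⟩, h3⟩
    have hdis : Disjoint ((Ioc z N0).filter Nat.Prime) ((Ioc N0 N).filter Nat.Prime) := by
      rw [disjoint_left]
      intro p hp hp'
      rw [mem_filter, mem_Ioc] at hp hp'
      omega
    rw [e1, prod_union hdis]
  have ht2 : Tendsto (fun N => HP a b c z N) atTop (𝓝 (HP a b c z N0 * ℓ1)) := by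
    refine (ht.const_mul (HP a b c z N0)).congr' ?_
    filter_upwards [eventually_ge_atTop N0] with N hN
    rw [hmul N hN]
  refine ⟨_, ht2, ?_, ?_⟩
  · apply ge_of_tendsto' ht2
    intro N
    exact HP_low ha N (by omega) haz
  · apply le_of_tendsto' ht2
    intro N
    exact HP_up ha hc N (by omega) haz K hK hKz

/-- the full product at the integers -/
theorem tc_false {a b c : ℤ} (ha : a ≠ 0) {z : ℕ} (hz : 2 ≤ z) (haz : a.natAbs ≤ z) (hsq : ¬ IsSquare (b ^ 2 - 4 * a * c))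
    {δ : ℝ} (hδ0 : 0 ≤ δ) (hδ1 : δ + 5 / z ≤ 1 / 2) (h : ∀ᶠ N in atTop, |SJ (b ^ 2 - 4 * a * c) z N| ≤ δ)
    (hS : 0 < St false z (QS (-a) (-b) c)) :
    ∃ S : ℝ, 0 < S ∧ Tendsto (fun N => St false N (QS (-a) (-b) c)) atTop (𝓝 S) ∧
      |S - St false z (QS (-a) (-b) c)| ≤ 2 * (δ + 5 / z) * St false z (QS (-a) (-b) c) := by
  obtain ⟨ℓ, hℓ0, hℓ, hℓ1⟩ := PJ_lim hsq hz hδ0 hδ1 h
  refine ⟨St false z (QS (-a) (-b) c) * ℓ, by positivity, ?_, ?_⟩
  · refine (hℓ.const_mul (St false z (QS (-a) (-b) c))).congr' ?_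
    filter_upwards [eventually_ge_atTop z] with M hM
    rw [St_Sz, St_Sz, Sz_split' ha hz haz hM]
  · have e : St false z (QS (-a) (-b) c) * ℓ - St false z (QS (-a) (-b) c) = (ℓ - 1) * St false z (QS (-a) (-b) c) := by ring
    rw [e, abs_mul, abs_of_pos hS]
    exact mul_le_mul_of_nonneg_right hℓ1 hS.le

/-- the full product at the primes -/
theorem tc_true {a b c : ℤ} (ha : a ≠ 0) (hc : c ≠ 0) {z : ℕ} (hz : 16 ≤ z) (haz : a.natAbs ≤ z) (hsq : ¬ IsSquare (b ^ 2 - 4 * a * c))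
    {δ : ℝ} (hδ0 : 0 ≤ δ) (hδ1 : δ + 5 / z ≤ 1 / 2) (h : ∀ᶠ N in atTop, |SJ (b ^ 2 - 4 * a * c) z N| ≤ δ)
    (K : ℝ) (hK : Real.log c.natAbs ≤ K) (hK1 : 1 ≤ K) (hKz : 4 * K / z ≤ 1 / 2)
    (hS : 0 < St true z (QS (-a) (-b) c)) :
    ∃ S : ℝ, 0 < S ∧ Tendsto (fun N => St true N (QS (-a) (-b) c)) atTop (𝓝 S) ∧
      |S - St true z (QS (-a) (-b) c)| ≤ (4 * (δ + 5 / z) + 8 * K / z) * St true z (QS (-a) (-b) c) := by
  obtain ⟨ℓ, hℓ0, hℓ, hℓ1⟩ := PJ_lim hsq (by omega) hδ0 hδ1 h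
  obtain ⟨m, hm, hm1, hm2⟩ := HP_tendsto (b := b) ha hc hz haz K hK hKz
  have hz0 : (0 : ℝ) < z := by exact_mod_cast (by omega : 0 < z)
  have h16 : (16 : ℝ) ≤ z := by exact_mod_cast hz
  have hz8 : 8 / (z : ℝ) ≤ 1 / 2 := by
    rw [div_le_iff₀ hz0]
    linarith
  have h8K : 8 / (z : ℝ) ≤ 8 * K / z := by
    apply div_le_div_of_nonneg_right _ hz0.le
    linarith
  have hm0 : 0 < m := by linarith
  have hmK : 8 * K / z = 2 * (4 * K / z) := by ring
  refine ⟨St true z (QS (-a) (-b) c) * (ℓ * m), by positivity, ?_, ?_⟩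
  · refine ((hℓ.mul hm).const_mul (St true z (QS (-a) (-b) c))).congr' ?_
    filter_upwards [eventually_ge_atTop z] with M hM
    rw [St_split ha (by omega) haz hM]
  · have e : St true z (QS (-a) (-b) c) * (ℓ * m) - St true z (QS (-a) (-b) c) =
        ((ℓ - 1) * m + (m - 1)) * St true z (QS (-a) (-b) c) := by ring
    rw [e, abs_mul, abs_of_pos hS]
    apply mul_le_mul_of_nonneg_right _ hS.le
    refine (abs_add_le _ _).trans ?_
    have e1 : |(ℓ - 1) * m| ≤ 2 * (δ + 5 / z) * 2 := by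
      rw [abs_mul, abs_of_pos hm0]
      apply mul_le_mul hℓ1 _ hm0.le (by
        have : 0 ≤ 5 / (z : ℝ) := by positivity
        linarith)
      linarith
    have e2 : |m - 1| ≤ 8 * K / z := by
      rw [abs_le]
      constructor <;> linarith
    linarith

end Pool.Agent.H561.PG
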