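import Pool.Agent.H561.PG.Q3

set_option autoImplicit false

/-! The forms `n ^ 2 + a` at the primes: the local conditions and the constant. -/

namespace Pool.Agent.H561.PG

open Finset
open Pool.Agent.H373R2.T7
open Pool.Agent.R460.SB (QS QS_per QS_perB QS_two)

lemma QS_one (a : ℤ) (p r : ℕ) : QS (-1) (-0) a p r ↔ (p : ℤ) ∣ a + (r : ℤ) ^ 2 := by
  unfold QS
  have e : a - (-1 * (r : ℤ) ^ 2 + -0 * (r : ℤ)) = a + (r : ℤ) ^ 2 := by ring
  rw [e]

lemma rho_two (a : ℤ) (h : Even a) : rhoA (QS (-1) (-0) a) 2 = 0 := by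
  classical
  unfold rhoA
  rw [card_eq_zero, filter_eq_empty_iff]
  rintro r hr ⟨h1, h2⟩
  rw [mem_range] at hr
  have hr1 : r = 1 := by
    rcases Nat.lt_or_ge r 1 with h3 | h3
    · exfalso
      apply h1
      have : r = 0 := by omega
      rw [this]
      exact dvd_zero 2
    · omega
  rw [QS_one, hr1] at h2
  obtain ⟨m, hm⟩ := h
  simp only [Nat.cast_ofNat, Nat.cast_one, one_pow] at h2
  omega

lemma rho_three (a : ℤ) (h : a % 3 ≠ 2) : rhoA (QS (-1) (-0) a) 3 = 0 := by
  classical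
  unfold rhoA
  rw [card_eq_zero, filter_eq_empty_iff]
  rintro r hr ⟨h1, h2⟩
  rw [mem_range] at hr
  have hr0 : r ≠ 0 := by
    intro h3
    apply h1
    rw [h3]
    exact dvd_zero 3
  have hr1 : r = 1 ∨ r = 2 := by omega
  rw [QS_one] at h2
  rcases hr1 with h3 | h3
  · rw [h3] at h2
    simp only [Nat.cast_ofNat, Nat.cast_one, one_pow] at h2
    omega
  · rw [h3] at h2
    norm_num at h2
    omega

lemma LS_one (a : ℤ) (h : Even a) (h3 : a % 3 ≠ 2) : LS true 1 0 a := by
  intro p hp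
  unfold loc
  simp only [if_true]
  rcases Nat.lt_or_ge p 5 with h5 | h5
  · have hp2 := hp.two_le
    have : p = 2 ∨ p = 3 ∨ p = 4 := by omega
    rcases this with h4 | h4 | h4
    · rw [h4, rho_two a h]
      norm_num
    · rw [h4, rho_three a h3]
      norm_num
    · rw [h4] at hp
      norm_num at hp
  · classical
    have h1 := rho_eq (Q := QS (-1) (-0) a) p hp
    have h2 : nuB (QS (-1) (-0) a) p ≤ 2 := QS_two (α := -1) (γ := -0) a p hp (by
      intro hd
      rw [dvd_neg] at hd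
      have := Int.le_of_dvd one_pos hd
      omega)
    have h2r : (nuB (QS (-1) (-0) a) p : ℝ) ≤ 2 := by exact_mod_cast h2
    have h5r : (5 : ℝ) ≤ p := by exact_mod_cast h5
    have h6 : (rhoA (QS (-1) (-0) a) p : ℝ) ≤ 2 := by
      rw [h1]
      split_ifs <;> linarith
    rw [div_lt_one (by linarith)]
    linarith

/-- the value of the local factor -/
lemma fac_one (a : ℤ) (p : ℕ) (hp : p.Prime) (h3 : 3 ≤ p) :
    (1 - loc true (QS (-1) (-0) a) p) / (1 - 1 / (p : ℝ)) =
      if (p : ℤ) ∣ a then (p : ℝ) / (p - 1) else p * (p - 2 - (jacobiSym (-a) p : ℝ)) / (p - 1) ^ 2 := by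
  classical
  have h1 := rho_eq (Q := QS (-1) (-0) a) p hp
  have hodd : p % 2 = 1 := by
    rcases hp.eq_two_or_odd with h | h
    · omega
    · exact h
  have h2 := nu_val (a := 1) (b := 0) (c := a) hp h3 (by
    intro hd
    have := Int.le_of_dvd one_pos hd
    omega)
  have hj : jacobiSym (0 ^ 2 - 4 * 1 * a) p = jacobiSym (-a) p := by
    have e : (0 ^ 2 - 4 * 1 * a : ℤ) = 2 ^ 2 * (-a) := by ring
    rw [e, jacobiSym.mul_left, jacobiSym.sq_one', one_mul]
    have : Nat.Coprime 2 p := by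
      rw [Nat.coprime_two_left]
      exact Nat.odd_iff.2 hodd
    exact_mod_cast this
  rw [hj] at h2
  have hQ : QS (-1) (-0) a p 0 ↔ (p : ℤ) ∣ a := by
    rw [QS_one]
    simp
  have hp3 : (3 : ℝ) ≤ p := by exact_mod_cast h3
  have e0 : (p : ℝ) ≠ 0 := by linarith
  have e1 : (p : ℝ) - 1 ≠ 0 := by
    have : (0 : ℝ) < p - 1 := by linarith
    exact this.ne'
  unfold loc
  simp only [if_true]
  rw [h1, h2]
  split_ifs with h4 h5 h5
  · have hj0 : jacobiSym (-a) p = 0 := by
      have : NeZero p := ⟨hp.ne_zero⟩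
      rw [jacobiSym.eq_zero_iff_not_coprime]
      intro hco
      have h6 : (p : ℤ) ∣ (Int.gcd (-a) p : ℤ) := Int.dvd_coe_gcd (by rwa [dvd_neg]) dvd_rfl
      rw [hco] at h6
      have h7 : p ∣ 1 := by exact_mod_cast h6
      have := Nat.le_of_dvd one_pos h7
      omega
    rw [hj0]
    push_cast
    field_simp
    try ring
  · exact absurd (hQ.1 h4) h5
  · exact absurd (hQ.2 h5) h4
  · field_simp
    ring

end Pool.Agent.H561.PG
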