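import Pool.Agent.H561.PG.Q4

set_option autoImplicit false

/-! Odd numbers `n = f(p) + q` with a monic quadratic polynomial `f`: the local conditions and the change from `n - c` to `n`. -/

namespace Pool.Agent.H561.PG

open Finset
open Pool.Agent.H373R2.T7
open Pool.Agent.R460.SB (QS QS_per QS_perB QS_two)

lemma QS_mon (b c : ℤ) (p r : ℕ) : QS (-1) (-b) c p r ↔ (p : ℤ) ∣ (r : ℤ) ^ 2 + b * r + c := by
  unfold QS
  have e : c - (-1 * (r : ℤ) ^ 2 + -b * (r : ℤ)) = (r : ℤ) ^ 2 + b * r + c := by ring
  rw [e]

lemma LS_mon (b c : ℤ) (h2 : Odd (1 + b + c)) (h3 : ¬ (3 : ℤ) ∣ b) : LS true 1 b c := by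
  classical
  intro p hp
  unfold loc
  simp only [if_true]
  rcases Nat.lt_or_ge p 5 with h5 | h5
  · have hp2 := hp.two_le
    have : p = 2 ∨ p = 3 ∨ p = 4 := by omega
    rcases this with h4 | h4 | h4
    · have : rhoA (QS (-1) (-b) c) 2 = 0 := by
        unfold rhoA
        rw [card_eq_zero, filter_eq_empty_iff]
        rintro r hr ⟨h6, h7⟩
        rw [mem_range] at hr
        have hr1 : r = 1 := by
          rcases Nat.lt_or_ge r 1 with h8 | h8
          · exfalso
            apply h6
            have : r = 0 := by omega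
            rw [this]
            exact dvd_zero 2
          · omega
        rw [QS_mon, hr1] at h7
        obtain ⟨m, hm⟩ := h2
        simp only [Nat.cast_ofNat, Nat.cast_one, one_pow, mul_one] at h7
        omega
      rw [h4, this]
      norm_num
    · have h8 : (rhoA (QS (-1) (-b) c) 3 : ℝ) ≤ 1 := by
        have : rhoA (QS (-1) (-b) c) 3 ≤ 1 := by
          unfold rhoA
          rw [card_le_one]
          intro r hr s hs
          obtain ⟨hr1, hr2, hr3⟩ := mem_filter.1 hr
          obtain ⟨hs1, hs2, hs3⟩ := mem_filter.1 hs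
          rw [mem_range] at hr1 hs1
          rw [QS_mon] at hr3 hs3
          have hr0 : r ≠ 0 := by
            intro h
            apply hr2
            rw [h]
            exact dvd_zero 3
          have hs0 : s ≠ 0 := by
            intro h
            apply hs2
            rw [h]
            exact dvd_zero 3
          have hr' : r = 1 ∨ r = 2 := by omega
          have hs' : s = 1 ∨ s = 2 := by omega
          rcases hr' with h | h <;> rcases hs' with h' | h'
          · rw [h, h']
          · exfalso
            apply h3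
            rw [h] at hr3
            rw [h'] at hs3
            norm_num at hr3 hs3
            omega
          · exfalso
            apply h3
            rw [h] at hr3
            rw [h'] at hs3
            norm_num at hr3 hs3
            omega
          · rw [h, h']
        exact_mod_cast this
      rw [h4]
      rw [div_lt_one (by norm_num)]
      push_cast
      linarith
    · rw [h4] at hp
      norm_num at hp
  · have h1 := rho_eq (Q := QS (-1) (-b) c) p hp
    have h2 : nuB (QS (-1) (-b) c) p ≤ 2 := QS_two (α := -1) (γ := -b) c p hp (by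
      intro hd
      rw [dvd_neg] at hd
      have := Int.le_of_dvd one_pos hd
      omega)
    have h2r : (nuB (QS (-1) (-b) c) p : ℝ) ≤ 2 := by exact_mod_cast h2
    have h5r : (5 : ℝ) ≤ p := by exact_mod_cast h5
    have h6 : (rhoA (QS (-1) (-b) c) p : ℝ) ≤ 2 := by
      rw [h1]
      split_ifs <;> linarith
    rw [div_lt_one (by linarith)]
    linarith

open Classical in
/-- the number of the residues `r` with `r (n - f(r)) = 0` modulo `p` -/
noncomputable def omf (b c : ℤ) (n p : ℕ) : ℕ :=
  ((range p).filter (fun r : ℕ => (p : ℤ) ∣ r * ((n : ℤ) - ((r : ℤ) ^ 2 + b * r + c)))).card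

lemma omf_eq (b c : ℤ) (n p : ℕ) (hp : p.Prime) : omf b c n p = 1 + rhoA (QS (-1) (-b) (c - n)) p := by
  classical
  unfold omf rhoA
  have : (range p).filter (fun r : ℕ => (p : ℤ) ∣ r * ((n : ℤ) - ((r : ℤ) ^ 2 + b * r + c))) =
      insert 0 ((range p).filter (fun r => ¬ p ∣ r ∧ QS (-1) (-b) (c - n) p r)) := by
    ext r
    rw [mem_insert, mem_filter, mem_filter, mem_range, QS_mon]
    have hpi : Prime (p : ℤ) := Nat.prime_iff_prime_int.1 hp
    rw [hpi.dvd_mul]
    have e : (p : ℤ) ∣ (n : ℤ) - ((r : ℤ) ^ 2 + b * r + c) ↔ (p : ℤ) ∣ (r : ℤ) ^ 2 + b * r + (c - n) := by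
      rw [← dvd_neg]
      have : -((n : ℤ) - ((r : ℤ) ^ 2 + b * r + c)) = (r : ℤ) ^ 2 + b * r + (c - n) := by ring
      rw [this]
    rw [e]
    constructor
    · rintro ⟨h1, h2⟩
      by_cases h0 : r = 0
      · exact Or.inl h0
      · right
        have h3 : ¬ p ∣ r := fun h => by
          have := Nat.le_of_dvd (by omega) h
          omega
        refine ⟨h1, h3, ?_⟩
        rcases h2 with h2 | h2
        · exact absurd (by exact_mod_cast h2) h3
        · exact h2
    · rintro (h1 | ⟨h1, h2, h3⟩)
      · rw [h1]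
        exact ⟨hp.pos, Or.inl (by simp)⟩
      · exact ⟨h1, Or.inr h3⟩
  rw [this, card_insert_of_notMem]
  · ring
  · rw [mem_filter]
    rintro ⟨_, h, _⟩
    exact h (dvd_zero p)

/-- the factor of the singular series -/
lemma fac_mon (b c : ℤ) (n p : ℕ) (hp : p.Prime) :
    (1 - loc true (QS (-1) (-b) (c - n)) p) / (1 - 1 / (p : ℝ)) = (1 - (omf b c n p : ℝ) / p) / (1 - 1 / (p : ℝ)) ^ 2 := by
  rw [omf_eq b c n p hp]
  have hp2 : (2 : ℝ) ≤ p := by exact_mod_cast hp.two_le
  have e0 : (p : ℝ) ≠ 0 := by linarith
  have e1 : (p : ℝ) - 1 ≠ 0 := by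
    have : (0 : ℝ) < p - 1 := by linarith
    exact this.ne'
  unfold loc
  simp only [if_true]
  push_cast
  have e2 : 1 - 1 / (p : ℝ) = (p - 1) / p := by field_simp
  rw [e2]
  field_simp
  ring

end Pool.Agent.H561.PG
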