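import Pool.Agent.H561.PG.Q5

set_option autoImplicit false

/-! Odd numbers `n = f(p) + q` with a monic quadratic polynomial `f`: from `|c - n|` to `n`. -/

namespace Pool.Agent.H561.PG

open Finset
open Pool.Agent.H373R2.T7
open Pool.Agent.R460.SB (QS QS_per QS_perB QS_two)

/-- the analytic comparison of `M` and `n` -/
lemma ev_cmp (b c : ℤ) (δ ε : ℝ) (hδ : 0 < δ) (hε : 0 < ε) (W D : ℕ) : ∃ n₀ : ℕ, ∀ n : ℕ, n₀ ≤ n →
    c < n ∧ (n : ℝ) ≤ 2 * ((c - n).natAbs : ℕ) ∧ (((c - n).natAbs : ℕ) : ℝ) ≤ 2 * n ∧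
    1 ≤ Real.log n ∧ 0 < Real.log ((c - n).natAbs : ℕ) ∧
    (((c - n).natAbs : ℕ) : ℝ) ^ (1 / 8 + δ / 2) ≤ (n : ℝ) ^ (1 / 8 + δ) ∧
    Real.log ((c - n).natAbs : ℕ) ^ D * 2 ≤ Real.log n ^ (D + 3) ∧
    Real.log n ^ W ≤ Real.log ((c - n).natAbs : ℕ) ^ (W + 1) ∧
    |Real.log n / Real.log ((c - n).natAbs : ℕ) - 1| ≤ ε ∧
    (∀ x : ℝ, 0 ≤ x → x ^ 2 * Real.log n ^ (D + 3) ≤ n → x ^ 2 + |(b : ℝ)| * x + |(c : ℝ)| < n) := by
  obtain ⟨L0, hL0⟩ : ∃ L0 : ℝ, L0 = 4 + 2 ^ (D + 3) + 2 ^ (W + 1) + 4 / ε + 3 * |(b : ℝ)| + 3 * |(c : ℝ)| := ⟨_, rfl⟩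
  have hb0 := abs_nonneg (b : ℝ)
  have hc0 := abs_nonneg (c : ℝ)
  have h4e : 0 < 4 / ε := by positivity
  have hp1 : (0 : ℝ) < 2 ^ (D + 3) := by positivity
  have hp2 : (0 : ℝ) < 2 ^ (W + 1) := by positivity
  obtain ⟨n1, h1⟩ := ev_L' L0
  have hten : Filter.Tendsto (fun n : ℕ => ((n : ℕ) : ℝ) ^ (δ / 2)) Filter.atTop Filter.atTop :=
    (tendsto_rpow_atTop (by positivity)).comp tendsto_natCast_atTop_atTop
  obtain ⟨n2, h2⟩ := Filter.eventually_atTop.1 (hten.eventually_ge_atTop ((2 : ℝ) ^ (1 / 8 + δ / 2)))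
  refine ⟨n1 + n2 + 4 * c.natAbs + 10, fun n hn => ?_⟩
  have k1 := h1 n (by omega)
  have k2 := h2 n (by omega)
  have hn0 : (0 : ℝ) < n := by exact_mod_cast (by omega : 0 < n)
  have hn1 : (1 : ℝ) ≤ n := by exact_mod_cast (by omega : 1 ≤ n)
  obtain ⟨M, hM⟩ : ∃ M : ℕ, M = (c - n).natAbs := ⟨_, rfl⟩
  rw [← hM]
  have hMn : 4 * M ≤ 5 * n ∧ 3 * n ≤ 4 * M := by omega
  have hMn1 : (4 : ℝ) * M ≤ 5 * n := by exact_mod_cast hMn.1
  have hMn2 : (3 : ℝ) * n ≤ 4 * M := by exact_mod_cast hMn.2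
  have hM0 : (0 : ℝ) < M := by linarith
  obtain ⟨L, hL⟩ : ∃ L, L = Real.log n := ⟨_, rfl⟩
  obtain ⟨K, hK⟩ : ∃ K, K = Real.log M := ⟨_, rfl⟩
  rw [← hL, ← hK]
  rw [← hL] at k1
  have hl2 : Real.log 2 ≤ 1 := by
    have := Real.log_two_lt_d9
    linarith
  have hKL : K ≤ L + 1 := by
    rw [hK, hL]
    calc Real.log M ≤ Real.log (2 * n) := Real.log_le_log hM0 (by linarith)
      _ = Real.log 2 + Real.log n := Real.log_mul (by norm_num) hn0.ne'
      _ ≤ _ := by linarith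
  have hLK : L ≤ K + 1 := by
    rw [hK, hL]
    calc Real.log n ≤ Real.log (2 * M) := Real.log_le_log hn0 (by linarith)
      _ = Real.log 2 + Real.log M := Real.log_mul (by norm_num) hM0.ne'
      _ ≤ _ := by linarith
  have hL4 : 4 ≤ L := by rw [hL0] at k1; linarith
  have hK3 : 3 ≤ K := by linarith
  have hLe : 4 / ε ≤ L := by rw [hL0] at k1; linarith
  refine ⟨by omega, by linarith, by linarith, by linarith, by linarith, ?_, ?_, ?_, ?_, ?_⟩
  · calc (M : ℝ) ^ (1 / 8 + δ / 2) ≤ (2 * n) ^ (1 / 8 + δ / 2) :=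
          Real.rpow_le_rpow hM0.le (by linarith) (by positivity)
      _ = 2 ^ (1 / 8 + δ / 2) * (n : ℝ) ^ (1 / 8 + δ / 2) := Real.mul_rpow (by norm_num) hn0.le
      _ ≤ (n : ℝ) ^ (δ / 2) * (n : ℝ) ^ (1 / 8 + δ / 2) := by
          apply mul_le_mul_of_nonneg_right k2 (by positivity)
      _ = (n : ℝ) ^ (1 / 8 + δ) := by
          rw [← Real.rpow_add hn0]
          congr 1
          ring
  · have h5 : K ≤ 2 * L := by linarith
    have h6 : (2 : ℝ) ^ (D + 3) ≤ L := by rw [hL0] at k1; linarith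
    calc K ^ D * 2 ≤ (2 * L) ^ D * 2 := by
          apply mul_le_mul_of_nonneg_right (pow_le_pow_left₀ (by linarith) h5 D) (by norm_num)
      _ = (2 ^ D * 2) * L ^ D := by rw [mul_pow]; ring
      _ ≤ 2 ^ (D + 3) * L ^ D := by
          apply mul_le_mul_of_nonneg_right _ (by positivity)
          rw [pow_add]
          nlinarith [pow_pos (show (0 : ℝ) < 2 by norm_num) D]
      _ ≤ L * L ^ D := mul_le_mul_of_nonneg_right h6 (by positivity)
      _ ≤ L ^ 3 * L ^ D := by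
          apply mul_le_mul_of_nonneg_right _ (by positivity)
          nlinarith [mul_pos (show (0:ℝ) < L by linarith) (show (0:ℝ) < L by linarith)]
      _ = L ^ (D + 3) := by rw [← pow_add, add_comm]
  · have h5 : L / 2 ≤ K := by linarith
    have h6 : (2 : ℝ) ^ (W + 1) ≤ L := by rw [hL0] at k1; linarith
    calc L ^ W ≤ (L / 2 ^ (W + 1)) * L ^ W := by
          have : 1 ≤ L / 2 ^ (W + 1) := by
            rw [le_div_iff₀ hp2]
            linarith
          nlinarith [pow_pos (show (0:ℝ) < L by linarith) W]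
      _ = (L / 2) ^ (W + 1) := by
          rw [div_pow, pow_succ L W]
          ring
      _ ≤ K ^ (W + 1) := pow_le_pow_left₀ (by linarith) h5 _
  · have e : L / K - 1 = (L - K) / K := by
      field_simp
    rw [e, abs_div, abs_of_pos (show (0 : ℝ) < K by linarith), div_le_iff₀ (by linarith)]
    have h5 : |L - K| ≤ 1 := by
      rw [abs_le]
      constructor <;> linarith
    have h6 : 4 ≤ ε * L := by
      rw [div_le_iff₀ hε] at hLe
      linarith
    have h7 : ε * L ≤ 2 * (ε * K) := by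
      have : L ≤ 2 * K := by linarith
      nlinarith
    linarith
  · intro x hx0 hx
    have h8 : 0 < L ^ (D + 3) := by positivity
    have hLL : L * L ≤ L ^ (D + 3) := by
      calc L * L = L ^ 2 := by ring
        _ ≤ L ^ (D + 3) := pow_le_pow_right₀ (by linarith) (by omega)
    have h9 : x ^ 2 * (L * L) ≤ n := (mul_le_mul_of_nonneg_left hLL (by positivity)).trans hx
    have hbL : 3 * |(b : ℝ)| ≤ L := by rw [hL0] at k1; linarith
    have hcL : 3 * |(c : ℝ)| ≤ L := by rw [hL0] at k1; linarith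
    have hLn : L ≤ n - 1 := by
      rw [hL]
      exact Real.log_le_sub_one_of_pos hn0
    have hx2 : x ^ 2 * 16 ≤ n := by
      have : (16 : ℝ) ≤ L * L := by nlinarith
      exact (mul_le_mul_of_nonneg_left this (by positivity)).trans h9
    have h3bx : 3 * (|(b : ℝ)| * x) ≤ n := by
      have h10 : 3 * (|(b : ℝ)| * x) ≤ L * x := by nlinarith
      rcases le_total x 1 with h11 | h11
      · nlinarith
      · have : L * x ≤ x ^ 2 * (L * L) := by
          have h12 : (1 : ℝ) ≤ L * x := by nlinarith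
          nlinarith [mul_nonneg (show (0:ℝ) ≤ L by linarith) hx0]
        linarith
    nlinarith

/-- the number of the primes `p` of `(u, v]` for which `n = f(p) + q`, `q` prime -/
noncomputable def cntn (b c : ℤ) (n : ℕ) (u v : ℝ) : ℕ := by
  classical
  exact ((Ioc ⌊u⌋₊ ⌊v⌋₊).filter (fun p : ℕ => p.Prime ∧ ∃ q : ℕ, q.Prime ∧ (n : ℤ) = ((p : ℤ) ^ 2 + b * p + c) + q)).card

theorem mon_core (b c : ℤ) (δ ε : ℝ) (hδ : 0 < δ) (hε : 0 < ε) (hε1 : ε ≤ 1) (W D : ℕ) : ∃ n₀ : ℕ, ∀ n : ℕ, n₀ ≤ n →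
    HoldC true 1 b (δ / 2) (ε / 4) (W + 1) D (c - n) →
    ∃ S : ℝ, 0 < S ∧
      Filter.Tendsto (fun z : ℕ => ∏ p ∈ (Icc 1 z).filter Nat.Prime, (1 - (omf b c n p : ℝ) / p) / (1 - 1 / (p : ℝ)) ^ 2)
        Filter.atTop (nhds S) ∧
      ∀ u v : ℝ, 0 ≤ u → (n : ℝ) ^ (1 / 8 + δ) ≤ v → v ^ 2 * Real.log n ^ (D + 3) ≤ n → v / Real.log n ^ W ≤ v - u →
        |(cntn b c n u v : ℝ) - S * (v - u) / (Real.log v * Real.log n)| ≤ ε * (S * (v - u) / (Real.log v * Real.log n)) := by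
  classical
  obtain ⟨n0, h0⟩ := ev_cmp b c δ (ε / 4) hδ (by linarith) W D
  refine ⟨n0 + 2, fun n hn hH => ?_⟩
  obtain ⟨hcn, k1, k2, k3, k4, k5, k6, k7, k8, k9⟩ := h0 n (by omega)
  obtain ⟨S, g1, g2, g3⟩ := hH
  have hn0 : (0 : ℝ) < n := by exact_mod_cast (by omega : 0 < n)
  have hn1 : (1 : ℝ) ≤ n := by exact_mod_cast (by omega : 1 ≤ n)
  obtain ⟨M, hM⟩ : ∃ M : ℕ, M = (c - n).natAbs := ⟨_, rfl⟩
  rw [← hM] at k1 k2 k4 k5 k6 k7 k8 g3
  refine ⟨S, g1, ?_, ?_⟩
  · refine g2.congr' ?_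
    filter_upwards [Filter.eventually_ge_atTop 2] with z hz
    rw [St_prod]
    have e1 : pz z = (Icc 1 z).filter Nat.Prime := by
      ext p
      rw [mem_pz, mem_filter, mem_Icc]
      constructor
      · rintro ⟨h4, h5⟩
        exact ⟨⟨h5.one_le, h4⟩, h5⟩
      · rintro ⟨⟨_, h5⟩, h6⟩
        exact ⟨h5, h6⟩
    rw [e1]
    apply prod_congr rfl
    intro p hp
    rw [mem_filter] at hp
    exact fac_mon b c n p hp.2
  · intro u v hu hv hvD hvu
    have hL0 : 0 < Real.log n := by linarith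
    have hv0 : 1 ≤ v := (Real.one_le_rpow hn1 (by positivity)).trans hv
    have hM0 : (0 : ℝ) < M := by linarith
    have c1 : (M : ℝ) ^ (1 / 8 + δ / 2) ≤ v := k5.trans hv
    have c2 : v ^ 2 * Real.log M ^ D ≤ M := by
      have : v ^ 2 * (Real.log M ^ D * 2) ≤ n := (mul_le_mul_of_nonneg_left k6 (by positivity)).trans hvD
      linarith
    have c3 : v / Real.log M ^ (W + 1) ≤ v - u := by
      refine le_trans ?_ hvu
      exact div_le_div_of_nonneg_left (by linarith) (by positivity) k7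
    have c4 := g3 u v hu c1 c2 c3
    have hlb : lb true v = Real.log v := by simp [lb]
    rw [hlb] at c4
    have hcount : cntq true 1 b (c - n) u v = cntn b c n u v := by
      unfold cntq cntn
      congr 1
      apply filter_congr
      intro p hp
      rw [mem_Ioc] at hp
      have hpv : (p : ℝ) ≤ v := (Nat.cast_le.2 hp.2).trans (Nat.floor_le (by linarith))
      have h5 := k9 v (by linarith) hvD
      have h6 : ((p : ℤ) ^ 2 + b * p + c : ℤ) < n := by
        have : ((p : ℝ) ^ 2 + b * p + c : ℝ) < n := by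
          have hp0 : (0 : ℝ) ≤ p := Nat.cast_nonneg p
          have h7 : (b : ℝ) * p ≤ |(b : ℝ)| * v := by
            calc (b : ℝ) * p ≤ |(b : ℝ)| * p := mul_le_mul_of_nonneg_right (le_abs_self _) hp0
              _ ≤ _ := mul_le_mul_of_nonneg_left hpv (abs_nonneg _)
          have h8 : (c : ℝ) ≤ |(c : ℝ)| := le_abs_self _
          have h9 : (p : ℝ) ^ 2 ≤ v ^ 2 := pow_le_pow_left₀ hp0 hpv 2
          linarith
        exact_mod_cast this
      simp only [forall_const]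
      have e2 : 1 * (p : ℤ) ^ 2 + b * p + (c - n) = -((n : ℤ) - ((p : ℤ) ^ 2 + b * p + c)) := by ring
      rw [e2, Int.natAbs_neg]
      constructor
      · rintro ⟨h7, h8⟩
        refine ⟨h7, _, h8, ?_⟩
        omega
      · rintro ⟨h7, q, h8, h9⟩
        refine ⟨h7, ?_⟩
        have : ((n : ℤ) - ((p : ℤ) ^ 2 + b * p + c)).natAbs = q := by omega
        rw [this]
        exact h8
    rw [hcount] at c4
    obtain ⟨T, hT⟩ : ∃ T, T = S * (v - u) / (Real.log v * Real.log n) := ⟨_, rfl⟩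
    have hT0 : 0 ≤ T := by
      rw [hT]
      have : 0 ≤ v - u := (div_nonneg (by linarith) (by positivity)).trans hvu
      have h5 := Real.log_nonneg hv0
      positivity
    have hT' : S * (v - u) / (Real.log v * Real.log M) = T * (Real.log n / Real.log M) := by
      rw [hT]
      rcases eq_or_ne (Real.log v) 0 with h | h
      · rw [h]
        simp
      · field_simp
    rw [hT'] at c4
    rw [← hT]
    obtain ⟨r, hr⟩ : ∃ r, r = Real.log n / Real.log M := ⟨_, rfl⟩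
    rw [← hr] at c4 k8
    rw [abs_le] at c4 k8 ⊢
    have h1 : T * r ≤ T * (1 + ε / 4) := mul_le_mul_of_nonneg_left (by linarith [k8.2]) hT0
    have h2 : T * (1 - ε / 4) ≤ T * r := mul_le_mul_of_nonneg_left (by linarith [k8.1]) hT0
    have h3 : ε / 4 * (T * r) ≤ ε / 4 * (T * (1 + ε / 4)) := mul_le_mul_of_nonneg_left h1 (by linarith)
    have h4 : ε / 4 * (T * (1 + ε / 4)) ≤ ε / 2 * T := by nlinarith
    constructor
    · nlinarith [c4.1]
    · nlinarith [c4.2]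

end Pool.Agent.H561.PG
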