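import Pool.Agent.H561.PG.Q2

set_option autoImplicit false

/-! Polynomials of every degree: comparison of the truncated products, and the general theorem. -/

namespace Pool.Agent.H561.PG

open Finset Polynomial
open Pool.Agent.H373R2.T7

/-- a constant which makes all the values positive -/
lemma exists_K (G : ℤ[X]) (r : ℕ) (hr : 1 ≤ r) (hdeg : G.natDegree ≤ r) (hlead : 0 < G.coeff r) :
    ∃ K : ℕ, ∀ t : ℕ, 1 ≤ t → 1 ≤ gv G t + K := by
  obtain ⟨Gr, hGr⟩ : ∃ Gr : ℝ[X], Gr = G.map (Int.castRingHom ℝ) := ⟨_, rfl⟩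
  have hnd : G.natDegree = r := le_antisymm hdeg (le_natDegree_of_ne_zero hlead.ne')
  have hinj : Function.Injective (Int.castRingHom ℝ) := Int.cast_injective
  have hd : 0 < Gr.degree := by
    rw [hGr, degree_map_eq_of_injective hinj, ← natDegree_pos_iff_degree_pos, hnd]
    omega
  have hl : 0 ≤ Gr.leadingCoeff := by
    rw [hGr, leadingCoeff_map_of_injective hinj, leadingCoeff, hnd]
    rw [eq_intCast]
    exact_mod_cast hlead.le
  have ht := (Polynomial.tendsto_atTop_of_leadingCoeff_nonneg Gr hd hl).comp (tendsto_natCast_atTop_atTop (R := ℝ))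
  obtain ⟨T, hT⟩ := Filter.eventually_atTop.1 (ht.eventually_ge_atTop 1)
  have hval : ∀ t : ℕ, Gr.eval (t : ℝ) = (gv G t : ℝ) := by
    intro t
    rw [hGr]
    unfold gv
    have := Polynomial.eval_intCast_map (Int.castRingHom ℝ) G (t : ℤ)
    simp only [Int.cast_natCast, eq_intCast] at this
    exact this
  refine ⟨∑ t ∈ range T, (gv G t).natAbs + 1, fun t _ => ?_⟩
  by_cases h : T ≤ t
  · have h1 := hT t h
    simp only [Function.comp] at h1
    rw [hval] at h1
    have h2 : (1 : ℤ) ≤ gv G t := by exact_mod_cast h1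
    push_cast
    have h3 : (0 : ℤ) ≤ ∑ t ∈ range T, |gv G t| := sum_nonneg fun _ _ => abs_nonneg _
    linarith
  · have h1 : |gv G t| ≤ ∑ t ∈ range T, |gv G t| :=
      single_le_sum (f := fun t => |gv G t|) (fun _ _ => abs_nonneg _) (mem_range.2 (by omega))
    push_cast
    have h2 := neg_abs_le (gv G t)
    linarith

/-- comparison of two truncated products -/
lemma St_close (s : Bool) (c : ℕ) (Q : ℕ → ℕ → Prop) (hQ : PerB Q c) (z z' m : ℕ) (hz : 4 * c + 4 ≤ z) (hzz : z ≤ z')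
    (hm : z' ≤ z + m) (hmz : (8 * c + 8 : ℝ) * m ≤ z) :
    |St s z' Q - St s z Q| ≤ ((8 * c + 8 : ℝ) * m / z) * St s z Q := by
  obtain ⟨hS0, _⟩ := St_mem s Q z
  have hz0 : (0 : ℝ) < z := by exact_mod_cast (by omega : 0 < z)
  have hc0 : (0 : ℝ) ≤ c := Nat.cast_nonneg _
  obtain ⟨F, hF⟩ : ∃ F : ℕ → ℝ, F = fun p => (1 - loc s Q p) / (1 - 1 / (p : ℝ)) := ⟨_, rfl⟩
  obtain ⟨R, hR⟩ : ∃ R, R = ∏ p ∈ (Ioc z z').filter Nat.Prime, F p := ⟨_, rfl⟩
  have e : St s z' Q = St s z Q * R := by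
    rw [St_prod, St_prod, pz_split hzz, hR, hF]
  have hcard : (((Ioc z z').filter Nat.Prime).card : ℝ) ≤ m := by
    have : ((Ioc z z').filter Nat.Prime).card ≤ m := by
      refine (card_filter_le _ _).trans ?_
      rw [Nat.card_Ioc]
      omega
    exact_mod_cast this
  have hfac : ∀ p ∈ (Ioc z z').filter Nat.Prime, 1 - 2 * c / (z : ℝ) ≤ F p ∧ F p ≤ 1 + 2 / (z : ℝ) := by
    intro p hp
    rw [mem_filter, mem_Ioc] at hp
    have hpz : (z : ℝ) ≤ p := by exact_mod_cast hp.1.1.le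
    have hp4 : (4 : ℝ) ≤ p := by exact_mod_cast (by omega : 4 ≤ p)
    have hp0 : (0 : ℝ) < p := by linarith
    have h1 : 0 < 1 - 1 / (p : ℝ) := by
      rw [sub_pos, div_lt_one hp0]
      linarith
    have h1' : 1 - 1 / (p : ℝ) ≤ 1 := by
      have : 0 < 1 / (p : ℝ) := by positivity
      linarith
    obtain ⟨l0, l1⟩ := loc_mem s Q p hp.2
    have hl2 : loc s Q p ≤ 2 * c / p := by
      unfold loc
      split_ifs
      · have h8 : (rhoA Q p : ℝ) ≤ c := by exact_mod_cast hQ.toA.few p hp.2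
        calc (rhoA Q p : ℝ) / (p - 1) ≤ c / (p - 1) := by
              apply div_le_div_of_nonneg_right h8
              linarith
          _ ≤ 2 * c / p := by
              rw [div_le_div_iff₀ (by linarith) hp0]
              nlinarith
      · have h8 : (nuB Q p : ℝ) ≤ c := by exact_mod_cast hQ.few p hp.2
        apply div_le_div_of_nonneg_right _ hp0.le
        linarith
    have hl3 : 2 * c / (p : ℝ) ≤ 2 * c / z := div_le_div_of_nonneg_left (by positivity) hz0 hpz
    rw [hF]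
    simp only
    constructor
    · rw [le_div_iff₀ h1]
      have h9 : 0 ≤ 1 - 2 * c / (z : ℝ) := by
        rw [sub_nonneg, div_le_one hz0]
        have : ((4 * c + 4 : ℕ) : ℝ) ≤ z := by exact_mod_cast hz
        push_cast at this
        linarith
      calc (1 - 2 * c / (z : ℝ)) * (1 - 1 / p) ≤ (1 - 2 * c / (z : ℝ)) * 1 := mul_le_mul_of_nonneg_left h1' h9
        _ ≤ 1 - loc s Q p := by linarith
    · rw [div_le_iff₀ h1]
      have h9 : 1 / (p : ℝ) ≤ 1 / z := one_div_le_one_div_of_le hz0 hpz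
      have h10 : (1 : ℝ) ≤ (1 + 2 / (z : ℝ)) * (1 - 1 / z) := by
        have hz4 : (4 : ℝ) ≤ z := by exact_mod_cast (by omega : 4 ≤ z)
        have e1 : (1 + 2 / (z : ℝ)) * (1 - 1 / z) = 1 + (1 / z) * (1 - 2 / z) := by ring
        have h11 : 2 / (z : ℝ) ≤ 1 := by
          rw [div_le_one hz0]
          linarith
        have h12 : 0 ≤ (1 / (z : ℝ)) * (1 - 2 / z) := mul_nonneg (by positivity) (by linarith)
        linarith
      have h11 : (1 + 2 / (z : ℝ)) * (1 - 1 / z) ≤ (1 + 2 / (z : ℝ)) * (1 - 1 / p) := by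
        apply mul_le_mul_of_nonneg_left _ (by positivity)
        linarith
      linarith
  have h2cz : 2 * c / (z : ℝ) ≤ 1 / 2 := by
    rw [div_le_iff₀ hz0]
    have : ((4 * c + 4 : ℕ) : ℝ) ≤ z := by exact_mod_cast hz
    push_cast at this
    linarith
  have h2cz0 : 0 ≤ 2 * c / (z : ℝ) := by positivity
  obtain ⟨η, hη⟩ : ∃ η, η = (8 * c + 8 : ℝ) * m / z := ⟨_, rfl⟩
  have hη1 : η ≤ 1 := by
    rw [hη, div_le_one hz0]
    exact hmz
  have hlow : 1 - η ≤ R := by
    have h1 := one_sub_le_prod ((Ioc z z').filter Nat.Prime) (fun _ => 2 * c / (z : ℝ)) (fun p _ => ⟨h2cz0, by linarith⟩)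
    have h2 : ∏ p ∈ (Ioc z z').filter Nat.Prime, (1 - 2 * c / (z : ℝ)) ≤ R := by
      rw [hR]
      apply Finset.prod_le_prod
      · intro p _
        linarith
      · intro p hp
        exact (hfac p hp).1
    rw [sum_const, nsmul_eq_mul] at h1
    have h3 : (((Ioc z z').filter Nat.Prime).card : ℝ) * (2 * c / z) ≤ η := by
      calc (((Ioc z z').filter Nat.Prime).card : ℝ) * (2 * c / z) ≤ m * (2 * c / z) := mul_le_mul_of_nonneg_right hcard h2cz0
        _ = (2 * c) * m / z := by ring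
        _ ≤ η := by
            rw [hη]
            apply div_le_div_of_nonneg_right _ hz0.le
            apply mul_le_mul_of_nonneg_right _ (Nat.cast_nonneg _)
            linarith
    linarith
  have hup : R ≤ 1 + η := by
    have h1 : R ≤ (1 + 2 / (z : ℝ)) ^ m := by
      calc R ≤ ∏ _p ∈ (Ioc z z').filter Nat.Prime, (1 + 2 / (z : ℝ)) := by
            rw [hR]
            apply Finset.prod_le_prod
            · intro p hp
              linarith [(hfac p hp).1]
            · intro p hp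
              exact (hfac p hp).2
        _ = (1 + 2 / (z : ℝ)) ^ ((Ioc z z').filter Nat.Prime).card := by rw [prod_const]
        _ ≤ _ := by
            apply pow_le_pow_right₀
            · have : 0 ≤ 2 / (z : ℝ) := by positivity
              linarith
            · exact_mod_cast hcard
    have h2 : (1 + 2 / (z : ℝ)) ^ m ≤ Real.exp (2 * m / z) := by
      calc (1 + 2 / (z : ℝ)) ^ m ≤ (Real.exp (2 / z)) ^ m := by
            apply pow_le_pow_left₀ (by positivity)
            have := Real.add_one_le_exp (2 / (z : ℝ))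
            linarith
        _ = Real.exp (m * (2 / z)) := by rw [← Real.exp_nat_mul]
        _ = _ := by
            congr 1
            ring
    have hx : 4 * (2 * m / (z : ℝ)) ≤ η := by
      rw [hη]
      have e1 : 4 * (2 * (m : ℝ) / z) = 8 * m / z := by ring
      rw [e1]
      apply div_le_div_of_nonneg_right _ hz0.le
      apply mul_le_mul_of_nonneg_right _ (Nat.cast_nonneg _)
      linarith
    have hx0 : 0 ≤ 2 * (m : ℝ) / z := by positivity
    have h3 := Real.exp_bound_div_one_sub_of_interval hx0 (by linarith)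
    have h4 : 1 / (1 - 2 * (m : ℝ) / z) ≤ 1 + 2 * (2 * m / z) := by
      rw [div_le_iff₀ (by linarith)]
      nlinarith
    linarith
  rw [e]
  have e2 : St s z Q * R - St s z Q = (R - 1) * St s z Q := by ring
  rw [e2, abs_mul, abs_of_nonneg hS0, ← hη]
  apply mul_le_mul_of_nonneg_right _ hS0
  rw [abs_le]
  constructor <;> linarith

/-- no local obstruction -/
def LSG (s : Bool) (σ : ℤ) (G : ℤ[X]) (N : ℕ) : Prop := ∀ p : ℕ, p.Prime → loc s (QP (GF σ G N)) p < 1

/-- the formula with the product over the primes up to `(log N) ^ E` -/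
def HoldN (s : Bool) (σ : ℤ) (G : ℤ[X]) (r : ℕ) (δ ε : ℝ) (W B E : ℕ) (N : ℕ) : Prop :=
  GoN s r B W (1 / (4 * r) + δ) ε N (fG σ G N) (St s ⌊Real.log N ^ E⌋₊ (QP (GF σ G N)))

open Classical in
/-- **Polynomials of every degree.** -/
theorem gen_dy (s : Bool) (G : ℤ[X]) (r : ℕ) (hr : 1 ≤ r) (hdeg : G.natDegree ≤ r) (hlead : 0 < G.coeff r)
    (W A : ℕ) (δ ε : ℝ) (hδ : 0 < δ) (hδ1 : δ ≤ 1 / 8) (hε : 0 < ε) (hε1 : ε ≤ 1) :
    ∃ E₀ B : ℕ, ∀ E : ℕ, E₀ ≤ E → ∃ X₀ : ℕ, ∀ X : ℕ, X₀ ≤ X → ∀ σ : ℤ, (σ = 1 ∨ σ = -1) →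
    (((Icc 1 X).filter (fun N : ℕ => (LSG s σ G N ∧ ¬ HoldN s σ G r δ ε W B E N) ∧ X ≤ 2 * N)).card : ℝ) ≤
      X / Real.log X ^ A := by
  obtain ⟨K, hK⟩ := exists_K G r hr hdeg hlead
  obtain ⟨G', hG'⟩ : ∃ G' : ℤ[X], G' = G + C (K : ℤ) := ⟨_, rfl⟩
  have hgv : ∀ t : ℕ, gv G' t = gv G t + K := by
    intro t
    unfold gv
    rw [hG', eval_add, eval_C]
  have hdeg' : G'.natDegree ≤ r := by
    rw [hG']
    refine (natDegree_add_le _ _).trans ?_
    rw [natDegree_C]
    exact max_le hdeg (Nat.zero_le _)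
  have hcoe' : G'.coeff r = G.coeff r := by
    rw [hG', coeff_add, coeff_C, if_neg (by omega), add_zero]
  have hlead' : 0 < G'.coeff r := by rw [hcoe']; exact hlead
  obtain ⟨E₀, D, hD1, hfam⟩ := famP s G' r hr hdeg' hlead' (fun t ht => by rw [hgv]; exact hK t ht) (W + 1) (A + 2) (by omega)
    (δ / 2) (ε / 8) (by positivity) (by linarith) (by positivity) (by linarith)
  refine ⟨E₀ + 2, D + 1, fun E hE => ?_⟩
  obtain ⟨n1, h1⟩ := hfam E
  have hr0 : (1 : ℝ) ≤ r := by exact_mod_cast hr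
  have h14 : 1 / (4 * (r : ℝ)) ≤ 1 / 4 := one_div_le_one_div_of_le (by norm_num) (by linarith)
  obtain ⟨n3, h3⟩ := norm_all s r D W hr (1 / (4 * r) + δ / 2) (δ / 2) ε (by positivity)
    (by linarith) (by positivity) hε hε1
  obtain ⟨c, hc⟩ : ∃ c, c = r + (G.coeff r).natAbs := ⟨_, rfl⟩
  obtain ⟨κ, hκ⟩ : ∃ κ : ℝ, κ = (8 * c + 8) * (4 * (E * 4 ^ E + 2)) := ⟨_, rfl⟩
  have hκ0 : 0 < κ := by rw [hκ]; positivity
  obtain ⟨n4, h4⟩ := ev_L' (16 * κ / ε + 4 * κ + 100 + 8 * c)
  refine ⟨n1 + n3 + n4 + 40 * K + 100, fun X hX σ hσ => ?_⟩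
  obtain ⟨X', hX'⟩ : ∃ X', X' = 2 * X := ⟨_, rfl⟩
  have k1 := h1 X' (by omega)
  have k3 := h3 X' (by omega)
  have k4 := h4 X' (by omega)
  have hX1 : (1 : ℝ) ≤ X := by exact_mod_cast (by omega : 1 ≤ X)
  have hX0 : (0 : ℝ) < X := by linarith
  have hX'r : (X' : ℝ) = 2 * X := by rw [hX']; push_cast; ring
  have hX'0 : (0 : ℝ) < X' := by linarith
  have hlogXX' : Real.log X ≤ Real.log X' := Real.log_le_log hX0 (by linarith)
  have hlogX0 : 0 ≤ Real.log X := Real.log_nonneg hX1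
  obtain ⟨L, hL⟩ : ∃ L, L = Real.log (X' : ℝ) := ⟨_, rfl⟩
  rw [← hL] at k1 k4 hlogXX'
  have hc0 : (0 : ℝ) ≤ c := Nat.cast_nonneg _
  have p1 : 0 < 16 * κ / ε := by positivity
  have hL100 : 100 ≤ L := by linarith
  have hL1 : 1 ≤ L := by linarith
  have hL0 : 0 < L := by linarith
  -- the sieve level
  obtain ⟨z', hz'⟩ : ∃ z', z' = ⌊L ^ E⌋₊ := ⟨_, rfl⟩
  have hz'1 : (z' : ℝ) ≤ L ^ E := by rw [hz']; exact Nat.floor_le (by positivity)
  have hz'2 : L ^ E < z' + 1 := by rw [hz']; exact Nat.lt_floor_add_one _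
  have hz'3 : L ^ E₀ ≤ z' := by
    have e1 : 2 * L ^ E₀ ≤ L ^ E := by
      calc 2 * L ^ E₀ ≤ L * L ^ E₀ := mul_le_mul_of_nonneg_right (by linarith) (by positivity)
        _ = L ^ (E₀ + 1) := by ring
        _ ≤ L ^ E := pow_le_pow_right₀ hL1 (by omega)
    have e2 : 1 ≤ L ^ E₀ := one_le_pow₀ hL1
    linarith
  have q1 := k1 z' hz'3 hz'1 σ hσ
  obtain ⟨B1, hB1⟩ : ∃ B1 : Finset ℕ, B1 = (Icc 1 X').filter (fun N : ℕ => (X' : ℝ) / L ≤ N ∧
      (∀ p ∈ pz z', loc s (QP (GF σ G' N)) p < 1) ∧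
      ¬ GdT s r X' D (W + 1) (1 / (4 * r) + δ / 2) (ε / 8) (fG σ G' N) (St s z' (QP (GF σ G' N)))) := ⟨_, rfl⟩
  rw [← hB1] at q1
  have hsub : ((Icc 1 X).filter (fun N : ℕ => (LSG s σ G N ∧ ¬ HoldN s σ G r δ ε W (D + 1) E N) ∧ X ≤ 2 * N)) ⊆
      (Icc 1 X).filter (fun N : ℕ => ((N : ℤ) - σ * K).toNat ∈ B1 ∧ X ≤ 2 * N) := by
    intro N hN
    rw [mem_filter, mem_Icc] at hN ⊢
    obtain ⟨⟨hN1, hNX⟩, ⟨hLS, hnH⟩, hXN⟩ := hN
    refine ⟨⟨hN1, hNX⟩, ?_, hXN⟩
    by_contra hB
    apply hnH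
    obtain ⟨N', hNd⟩ : ∃ N', N' = ((N : ℤ) - σ * K).toNat := ⟨_, rfl⟩
    rw [← hNd] at hB
    have hσK : -(K : ℤ) ≤ σ * K ∧ σ * K ≤ K := by
      rcases hσ with h | h <;> rw [h] <;> constructor <;> omega
    have hmK : 20 * K ≤ N := by omega
    have hNZ : (N' : ℤ) = (N : ℤ) - σ * K := by
      rw [hNd]
      apply Int.toNat_of_nonneg
      omega
    have hGF : GF σ G' N' = GF σ G N := by
      unfold GF
      rw [hNZ, hG']
      rw [C_sub, C_mul, mul_add]
      ring
    have hfG : fG σ G' N' = fG σ G N := by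
      unfold fG
      rw [hGF]
    have hNr : (N : ℝ) ≤ X := by exact_mod_cast hNX
    have hXNr : (X : ℝ) ≤ 2 * N := by exact_mod_cast hXN
    have hN0 : (0 : ℝ) < N := by linarith
    have hN'r : (N : ℝ) ≤ 2 * N' := by
      have : N ≤ 2 * N' := by omega
      exact_mod_cast this
    have hcon : GdT s r X' D (W + 1) (1 / (4 * r) + δ / 2) (ε / 8) (fG σ G N) (St s z' (QP (GF σ G N))) := by
      by_contra hcc
      apply hB
      rw [hB1, mem_filter, mem_Icc, hGF, hfG]
      refine ⟨⟨by omega, by omega⟩, ?_, fun p hp => hLS p (mem_pz.1 hp).2, hcc⟩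
      rw [div_le_iff₀ hL0]
      have h1 : (X' : ℝ) ≤ N' * 8 := by linarith
      refine h1.trans ?_
      apply mul_le_mul_of_nonneg_left _ (Nat.cast_nonneg _)
      linarith
    -- the truncation
    obtain ⟨l, hl⟩ : ∃ l, l = Real.log (N : ℝ) := ⟨_, rfl⟩
    have hlL : l ≤ L := by
      rw [hL, hl]
      exact Real.log_le_log hN0 (by linarith)
    have hlL2 : L ≤ l + 2 := by
      have e1 : Real.log X' ≤ Real.log (4 * N) := Real.log_le_log hX'0 (by linarith)
      rw [Real.log_mul (by norm_num) hN0.ne'] at e1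
      have h4 : Real.log 4 ≤ 2 := by
        have : Real.log 4 = 2 * Real.log 2 := by
          rw [show (4 : ℝ) = 2 ^ 2 by norm_num, Real.log_pow]
          norm_num
        have := Real.log_two_lt_d9
        linarith
      rw [hL, hl]
      linarith
    have hl1 : 1 ≤ l := by linarith
    have hl0 : 0 < l := by linarith
    obtain ⟨z, hz⟩ : ∃ z, z = ⌊l ^ E⌋₊ := ⟨_, rfl⟩
    have hz1 : (z : ℝ) ≤ l ^ E := by rw [hz]; exact Nat.floor_le (by positivity)
    have hz2 : l ^ E < z + 1 := by rw [hz]; exact Nat.lt_floor_add_one _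
    have hlE : l ≤ l ^ E := le_self_pow₀ hl1 (by omega)
    have hzl : l ^ E ≤ 2 * z := by linarith
    have hzz : z ≤ z' := by
      rw [hz, hz']
      exact Nat.floor_le_floor (pow_le_pow_left₀ hl0.le hlL E)
    obtain ⟨m, hm⟩ : ∃ m, m = z' - z := ⟨_, rfl⟩
    have hmr : (m : ℝ) ≤ (E * 4 ^ E + 2) * (l ^ E / l) := by
      have e1 : (m : ℝ) = z' - z := by
        rw [hm, Nat.cast_sub hzz]
      have e2 : L ^ E ≤ (l + 2) ^ E := pow_le_pow_left₀ hL0.le hlL2 E
      have e3 : (l + 2) ^ E - l ^ E ≤ E * 4 ^ E * (l ^ E / l) := by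
        have e4 : (l + 2) ^ E = l ^ E * (1 + 2 / l) ^ E := by
          rw [← mul_pow]
          congr 1
          field_simp
        have e5 : (1 + 2 / l) ^ E ≤ 1 + E * 4 ^ E / l := by
          have hx : ∀ (x : ℝ), 0 ≤ x → x ≤ 2 → ∀ n : ℕ, (1 + x) ^ n ≤ 1 + n * 4 ^ n * (x / 2) := by
            intro x hx0 hx2 n
            induction n with
            | zero => simp
            | succ n ih =>
              have h4n : (1 : ℝ) ≤ 4 ^ n := one_le_pow₀ (by norm_num)
              have hn0 : (0 : ℝ) ≤ n := Nat.cast_nonneg n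
              calc (1 + x) ^ (n + 1) = (1 + x) ^ n * (1 + x) := by ring
                _ ≤ (1 + n * 4 ^ n * (x / 2)) * (1 + x) := mul_le_mul_of_nonneg_right ih (by linarith)
                _ = 1 + x + (n * 4 ^ n * (x / 2)) * (1 + x) := by ring
                _ ≤ 1 + x + (n * 4 ^ n * (x / 2)) * 3 := by
                    have : 0 ≤ n * 4 ^ n * (x / 2) := by positivity
                    nlinarith
                _ ≤ 1 + ((n + 1 : ℕ) : ℝ) * 4 ^ (n + 1) * (x / 2) := by
                    push_cast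
                    rw [pow_succ]
                    have h5 : (2 : ℝ) * (x / 2) ≤ 4 ^ n * 4 * (x / 2) := by
                      apply mul_le_mul_of_nonneg_right _ (by positivity)
                      linarith
                    have h6 : 0 ≤ n * 4 ^ n * (x / 2) := by positivity
                    nlinarith
          have := hx (2 / l) (by positivity) (by
            rw [div_le_iff₀ hl0]
            linarith) E
          refine this.trans (le_of_eq ?_)
          field_simp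
        have e6 : l ^ E * (1 + 2 / l) ^ E ≤ l ^ E * (1 + E * 4 ^ E / l) := mul_le_mul_of_nonneg_left e5 (by positivity)
        rw [e4]
        have e7 : l ^ E * (1 + E * 4 ^ E / l) - l ^ E = E * 4 ^ E * (l ^ E / l) := by
          field_simp
          ring
        linarith
      have e8 : 1 ≤ l ^ E / l := by
        rw [le_div_iff₀ hl0]
        linarith
      rw [e1, add_mul]
      linarith
    have hz0 : (0 : ℝ) < z := by
      have : 0 < l ^ E := by positivity
      linarith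
    have hml : (8 * c + 8 : ℝ) * m / z ≤ κ / l := by
      rw [div_le_div_iff₀ hz0 hl0, hκ]
      have e1 : (m : ℝ) * l ≤ (E * 4 ^ E + 2) * l ^ E := by
        calc (m : ℝ) * l ≤ ((E * 4 ^ E + 2) * (l ^ E / l)) * l := mul_le_mul_of_nonneg_right hmr hl0.le
          _ = _ := by field_simp
      have e2 : (m : ℝ) * l ≤ (4 * (E * 4 ^ E + 2)) * z := by
        refine e1.trans ?_
        have : (E * 4 ^ E + 2 : ℝ) * l ^ E ≤ (E * 4 ^ E + 2) * (2 * z) := mul_le_mul_of_nonneg_left hzl (by positivity)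
        have h0 : 0 ≤ (E * 4 ^ E + 2 : ℝ) * z := by positivity
        linarith
      calc (8 * c + 8 : ℝ) * m * l = (8 * c + 8) * (m * l) := by ring
        _ ≤ (8 * c + 8) * ((4 * (E * 4 ^ E + 2)) * z) := mul_le_mul_of_nonneg_left e2 (by positivity)
        _ = _ := by ring
    have hκl : κ / l ≤ ε / 16 := by
      rw [div_le_div_iff₀ hl0 (by norm_num)]
      have e1 : 16 * κ / ε ≤ l := by linarith
      rw [div_le_iff₀ hε] at e1
      linarith
    have hper : PerB (QP (GF σ G N)) c := by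
      rw [hc]
      exact GF_perB σ hσ G r hr hdeg hlead N
    have hzc : 4 * c + 4 ≤ z := by
      have : ((4 * c + 4 : ℕ) : ℝ) ≤ z := by
        push_cast
        linarith
      exact_mod_cast this
    have hcl := St_close s c (QP (GF σ G N)) hper z z' m hzc hzz (by omega) (by
      have : (8 * c + 8 : ℝ) * m / z ≤ 1 := by linarith
      rwa [div_le_one hz0] at this)
    have hcl2 : |St s z' (QP (GF σ G N)) - St s z (QP (GF σ G N))| ≤ ε / 16 * St s z (QP (GF σ G N)) := by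
      refine hcl.trans ?_
      apply mul_le_mul_of_nonneg_right _ (St_mem _ _ _).1
      linarith
    obtain ⟨S, hS⟩ : ∃ S, S = St s z (QP (GF σ G N)) := ⟨_, rfl⟩
    obtain ⟨S', hS'⟩ : ∃ S', S' = St s z' (QP (GF σ G N)) := ⟨_, rfl⟩
    have hS0 : 0 ≤ S := by rw [hS]; exact (St_mem _ _ _).1
    have hS'0 : 0 ≤ S' := by rw [hS']; exact (St_mem _ _ _).1
    rw [← hS, ← hS'] at hcl2
    have hSS : |S - S'| ≤ ε / 8 * S' := by
      rw [abs_sub_comm]
      have h5 := (abs_le.1 hcl2).1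
      have h6 : S / 2 ≤ S' := by
        have : ε / 16 * S ≤ 1 / 2 * S := mul_le_mul_of_nonneg_right (by linarith) hS0
        linarith
      calc |S' - S| ≤ ε / 16 * S := hcl2
        _ = ε / 8 * (S / 2) := by ring
        _ ≤ ε / 8 * S' := mul_le_mul_of_nonneg_left h6 (by positivity)
    unfold HoldN
    rw [← hl, ← hz, ← hS]
    rw [← hS'] at hcon
    have hgo := k3 N (by linarith) (by linarith) (fG σ G N) S' S hS'0 hSS hcon
    have e9 : (1 / (4 * (r : ℝ)) + δ / 2) + δ / 2 = 1 / (4 * r) + δ := by ring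
    rw [e9] at hgo
    exact hgo
  have hc1 : ((Icc 1 X).filter (fun m : ℕ => ((m : ℤ) - σ * K).toNat ∈ B1 ∧ X ≤ 2 * m)).card ≤ B1.card := by
    apply card_le_card_of_injOn (fun m : ℕ => ((m : ℤ) - σ * K).toNat)
    · intro m hm
      exact (mem_filter.1 (mem_coe.1 hm)).2.1
    · intro m hm m' hm' h
      have g1 := (mem_filter.1 (mem_coe.1 hm)).2.2
      have g2 := (mem_filter.1 (mem_coe.1 hm')).2.2
      have hσK : -(K : ℤ) ≤ σ * K ∧ σ * K ≤ K := by
        rcases hσ with h | h <;> rw [h] <;> constructor <;> omega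
      simp only at h
      omega
  have hcard : (((Icc 1 X).filter (fun N : ℕ => (LSG s σ G N ∧ ¬ HoldN s σ G r δ ε W (D + 1) E N) ∧ X ≤ 2 * N)).card : ℝ) ≤ B1.card := by
    exact_mod_cast (card_le_card hsub).trans hc1
  refine hcard.trans (q1.trans ?_)
  have hLA : 0 < L ^ A := by positivity
  have e1 : (X' : ℝ) / L ^ (A + 2) = (2 / L ^ 2) * (X / L ^ A) := by
    rw [hX'r, pow_add]
    field_simp
  rw [e1]
  have e5 : (2 / L ^ 2) * ((X : ℝ) / L ^ A) ≤ X / L ^ A := by
    apply mul_le_of_le_one_left (by positivity)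
    rw [div_le_one (by positivity)]
    nlinarith
  have e6 : (X : ℝ) / L ^ A ≤ X / Real.log X ^ A := by
    apply div_le_div_of_nonneg_left hX0.le
    · apply pow_pos
      apply Real.log_pos
      have : (1 : ℝ) < X := by exact_mod_cast (by omega : 1 < X)
      exact this
    · exact pow_le_pow_left₀ hlogX0 hlogXX' A
  linarith

open Classical in
/-- **Polynomials of every degree, all `N ≤ X`.** -/
theorem gen_all (s : Bool) (G : ℤ[X]) (r : ℕ) (hr : 1 ≤ r) (hdeg : G.natDegree ≤ r) (hlead : 0 < G.coeff r)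
    (σ : ℤ) (hσ : σ = 1 ∨ σ = -1) (W A : ℕ) (δ ε : ℝ) (hδ : 0 < δ) (hδ1 : δ ≤ 1 / 8) (hε : 0 < ε) (hε1 : ε ≤ 1) :
    ∃ E₀ B : ℕ, ∀ E : ℕ, E₀ ≤ E → ∃ X₀ : ℕ, ∀ X : ℕ, X₀ ≤ X →
    (((Icc 1 X).filter (fun N : ℕ => LSG s σ G N ∧ ¬ HoldN s σ G r δ ε W B E N)).card : ℝ) ≤ X / Real.log X ^ A := by
  obtain ⟨E₀, B, h⟩ := gen_dy s G r hr hdeg hlead W (A + 1) δ ε hδ hδ1 hε hε1
  refine ⟨E₀, B, fun E hE => ?_⟩
  obtain ⟨X0, h0⟩ := h E hE
  obtain ⟨X1, h1⟩ := CM.dyadic (fun N : ℕ => LSG s σ G N ∧ ¬ HoldN s σ G r δ ε W B E N) A X0 (by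
    intro X hX
    refine le_trans (le_of_eq ?_) (h0 X hX σ hσ)
    congr 2
    ext m
    simp only [mem_filter])
  refine ⟨X1, fun X hX => ?_⟩
  refine le_trans (le_of_eq ?_) (h1 X hX)
  congr 2
  ext m
  simp only [mem_filter]

end Pool.Agent.H561.PG
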