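import Pool.Agent.H561.PG.R1

set_option autoImplicit false

/-! The truncated products in other forms. -/

namespace Pool.Agent.H561.PG

open Finset Polynomial
open Pool.Agent.H373R2.T7

lemma loc_false_lt (Q : ℕ → ℕ → Prop) (hper : ∀ p n, Q p n ↔ Q p (n % p)) (p : ℕ) (hp : p.Prime) (n : ℕ) (hn : ¬ Q p n) :
    loc false Q p < 1 := by
  classical
  unfold loc
  simp only [Bool.false_eq_true, if_false]
  have hp0 : (0 : ℝ) < p := by exact_mod_cast hp.pos
  rw [div_lt_one hp0]
  have h1 : nuB Q p < p := by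
    unfold nuB
    have h2 : (range p).filter (fun r => Q p r) ⊆ (range p).erase (n % p) := by
      intro r hr
      rw [mem_filter] at hr
      rw [mem_erase]
      refine ⟨fun h => hn ?_, hr.1⟩
      rw [hper, ← h]
      exact hr.2
    have h3 := card_le_card h2
    rw [card_erase_of_mem (mem_range.2 (Nat.mod_lt n hp.pos)), card_range] at h3
    have := hp.pos
    omega
  exact_mod_cast h1

lemma loc_true_lt (Q : ℕ → ℕ → Prop) (hper : ∀ p n, Q p n ↔ Q p (n % p)) (p : ℕ) (hp : p.Prime) (n : ℕ) (hn : ¬ Q p n)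
    (hpn : ¬ p ∣ n) : loc true Q p < 1 := by
  classical
  unfold loc
  simp only [if_true]
  have hp2 : (2 : ℝ) ≤ p := by exact_mod_cast hp.two_le
  rw [div_lt_one (by linarith)]
  have h1 : rhoA Q p + 2 ≤ p := by
    unfold rhoA
    have hne : n % p ≠ 0 := fun h => hpn (Nat.dvd_of_mod_eq_zero h)
    have h2 : (range p).filter (fun r => ¬ p ∣ r ∧ Q p r) ⊆ ((range p).erase (n % p)).erase 0 := by
      intro r hr
      rw [mem_filter] at hr
      rw [mem_erase, mem_erase]
      refine ⟨fun h => hr.2.1 ?_, fun h => hn ?_, hr.1⟩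
      · rw [h]
        exact dvd_zero p
      · rw [hper, ← h]
        exact hr.2.2
    have h3 := card_le_card h2
    rw [card_erase_of_mem (mem_erase.2 ⟨hne.symm, mem_range.2 hp.pos⟩),
      card_erase_of_mem (mem_range.2 (Nat.mod_lt n hp.pos)), card_range] at h3
    have := hp.two_le
    omega
  have h2 : (rhoA Q p : ℝ) + 2 ≤ p := by exact_mod_cast h1
  linarith

/-- the factor of a prime in the product for the integers -/
lemma fac_false (Q : ℕ → ℕ → Prop) (p : ℕ) (hp : p.Prime) :
    (1 - loc false Q p) / (1 - 1 / (p : ℝ)) = ((p : ℝ) - nuB Q p) / (p - 1) := by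
  unfold loc
  simp only [Bool.false_eq_true, if_false]
  have hp2 : (2 : ℝ) ≤ p := by exact_mod_cast hp.two_le
  have e0 : (p : ℝ) ≠ 0 := by linarith
  have e1 : (p : ℝ) - 1 ≠ 0 := by
    have : (0 : ℝ) < p - 1 := by linarith
    exact this.ne'
  field_simp

/-- the factor of a prime in the product for the primes -/
lemma fac_true (Q Q' : ℕ → ℕ → Prop) (p : ℕ) (hp : p.Prime) (hQ : ∀ r < p, Q' p r ↔ (p ∣ r ∨ Q p r)) :
    (1 - loc true Q p) / (1 - 1 / (p : ℝ)) = (1 - (nuB Q' p : ℝ) / p) / (1 - 1 / (p : ℝ)) ^ 2 := by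
  classical
  have h1 : nuB Q' p = rhoA Q p + 1 := by
    unfold nuB rhoA
    have h2 : (range p).filter (fun r => Q' p r) = insert 0 ((range p).filter (fun r => ¬ p ∣ r ∧ Q p r)) := by
      ext r
      rw [mem_insert, mem_filter, mem_filter, mem_range]
      constructor
      · rintro ⟨h3, h4⟩
        by_cases h5 : p ∣ r
        · left
          exact Nat.eq_zero_of_dvd_of_lt h5 h3
        · right
          exact ⟨h3, h5, ((hQ r h3).1 h4).resolve_left h5⟩
      · rintro (h3 | ⟨h3, h4, h5⟩)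
        · rw [h3]
          exact ⟨hp.pos, (hQ 0 hp.pos).2 (Or.inl (dvd_zero p))⟩
        · exact ⟨h3, (hQ r h3).2 (Or.inr h5)⟩
    rw [h2, card_insert_of_notMem]
    rw [mem_filter]
    rintro ⟨_, h3, _⟩
    exact h3 (dvd_zero p)
  unfold loc
  simp only [if_true]
  rw [h1]
  have hp2 : (2 : ℝ) ≤ p := by exact_mod_cast hp.two_le
  have e0 : (p : ℝ) ≠ 0 := by linarith
  have e1 : (p : ℝ) - 1 ≠ 0 := by
    have : (0 : ℝ) < p - 1 := by linarith
    exact this.ne'
  push_cast
  have e2 : (1 : ℝ) - 1 / p = (p - 1) / p := by field_simp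
  rw [e2]
  field_simp
  ring

end Pool.Agent.H561.PG
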